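import Pool.Agent.Helper32.Sq.Part2

/-!
# The random partial colouring: probabilities of the bad events
-/

set_option autoImplicit false
set_option linter.unusedSectionVars false

namespace Pool.Agent.Helper32.Sq

variable {V : Type} [Fintype V] [DecidableEq V] (H : SimpleGraph V) [DecidableRel H.Adj]
variable {X m : ℕ}

/-- Few vertices are active. -/
lemma bad_one (hX : 0 < X) (hm : 0 < m) (N : Finset V) (t b : ℝ) (ht : 0 < t)
    (hb : 0 < b) (hN : (N.card : ℝ) ≤ b) (hbt : b / m ≤ t / 2) :
    (((Finset.univ : Finset (V → Fin X × Fin m)).filter fun ω =>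
      t < ((N.filter fun u => ((ω u).2 : ℕ) = 0).card : ℝ)).card : ℝ) ≤
      Fintype.card (V → Fin X × Fin m) * Real.exp (-(t / 2) ^ 2 / (2 * b)) := by
  classical
  haveI : Nonempty (Fin X × Fin m) := ⟨(⟨0, hX⟩, ⟨0, hm⟩)⟩
  have hm' : (0 : ℝ) < m := by exact_mod_cast hm
  have hX' : (0 : ℝ) < X := by exact_mod_cast hX
  set Ω := V → Fin X × Fin m with hΩ
  rcases N.eq_empty_or_nonempty with he | hne
  · have h1 : ((Finset.univ : Finset Ω).filter fun ω =>
        t < ((N.filter fun u => ((ω u).2 : ℕ) = 0).card : ℝ)) = ∅ := by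
      rw [Finset.filter_eq_empty_iff]
      intro ω _
      rw [he]
      simp only [Finset.filter_empty, Finset.card_empty, Nat.cast_zero, not_lt]
      exact ht.le
    rw [h1, Finset.card_empty, Nat.cast_zero]
    positivity
  · have hact : ∀ u : V, (((Finset.univ : Finset Ω).filter fun ω => ((ω u).2 : ℕ) = 0).card : ℝ) ≤
        Fintype.card Ω / m := by
      intro u
      have h1 : ((Finset.univ : Finset Ω).filter fun ω => ((ω u).2 : ℕ) = 0) ⊆
          (Finset.univ : Finset (Fin X)).biUnion fun γ => (Finset.univ : Finset Ω).filter fun ω =>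
            ∀ i ∈ ({u} : Finset V), ω i = (γ, ⟨0, hm⟩) := by
        intro ω hω
        rw [Finset.mem_filter] at hω
        rw [Finset.mem_biUnion]
        refine ⟨(ω u).1, Finset.mem_univ _, ?_⟩
        rw [Finset.mem_filter]
        refine ⟨Finset.mem_univ _, ?_⟩
        intro i hi
        rw [Finset.mem_singleton] at hi
        subst hi
        exact Prod.ext rfl (Fin.ext hω.2)
      have h2 : ∀ γ : Fin X, (((Finset.univ : Finset Ω).filter fun ω =>
            ∀ i ∈ ({u} : Finset V), ω i = (γ, ⟨0, hm⟩)).card : ℝ) = Fintype.card Ω / (X * m) := by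
        intro γ
        have := card_prescribed (ι := V) ({u} : Finset V) (fun _ => ((γ, ⟨0, hm⟩) : Fin X × Fin m))
        rw [Finset.card_singleton, pow_one, card_alpha] at this
        rw [eq_div_iff (by positivity)]
        exact this
      calc (((Finset.univ : Finset Ω).filter fun ω => ((ω u).2 : ℕ) = 0).card : ℝ)
          ≤ ∑ γ : Fin X, (((Finset.univ : Finset Ω).filter fun ω =>
            ∀ i ∈ ({u} : Finset V), ω i = (γ, ⟨0, hm⟩)).card : ℝ) := by
            exact_mod_cast (Finset.card_le_card h1).trans Finset.card_biUnion_le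
        _ = ∑ _γ : Fin X, (Fintype.card Ω : ℝ) / (X * m) :=
            Finset.sum_congr rfl fun γ _ => h2 γ
        _ = Fintype.card Ω / m := by
            rw [Finset.sum_const, Finset.card_univ, Fintype.card_fin, nsmul_eq_mul]
            field_simp
    have hmean : t / 2 * Fintype.card Ω ≤
        ∑ ω : Ω, (t - ((N.filter fun u => ((ω u).2 : ℕ) = 0).card : ℝ)) := by
      rw [Finset.sum_sub_distrib, Finset.sum_const, Finset.card_univ, nsmul_eq_mul]
      have h1 : ∑ ω : Ω, ((N.filter fun u => ((ω u).2 : ℕ) = 0).card : ℝ) ≤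
          b * (Fintype.card Ω / m) := by
        have h2 : ∑ ω : Ω, (N.filter fun u => ((ω u).2 : ℕ) = 0).card =
            ∑ u ∈ N, ((Finset.univ : Finset Ω).filter fun ω => ((ω u).2 : ℕ) = 0).card := by
          simp_rw [Finset.card_filter]
          rw [Finset.sum_comm]
        calc ∑ ω : Ω, ((N.filter fun u => ((ω u).2 : ℕ) = 0).card : ℝ)
            = ∑ u ∈ N, (((Finset.univ : Finset Ω).filter fun ω =>
              ((ω u).2 : ℕ) = 0).card : ℝ) := by exact_mod_cast h2
          _ ≤ ∑ _u ∈ N, (Fintype.card Ω : ℝ) / m := Finset.sum_le_sum fun u _ => hact u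
          _ = N.card * (Fintype.card Ω / m) := by rw [Finset.sum_const, nsmul_eq_mul]
          _ ≤ b * (Fintype.card Ω / m) := mul_le_mul_of_nonneg_right hN (by positivity)
      have h2 : b * ((Fintype.card Ω : ℝ) / m) = b / m * Fintype.card Ω := by ring
      have h3 : b / m * Fintype.card Ω ≤ t / 2 * Fintype.card Ω :=
        mul_le_mul_of_nonneg_right hbt (by positivity)
      have h4 : (Fintype.card Ω : ℝ) * t = t / 2 * Fintype.card Ω + t / 2 * Fintype.card Ω := by
        ring
      linarith
    have hlip : ∀ i, ∀ ω ω' : Ω, (∀ j, j ≠ i → ω j = ω' j) →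
        (N.filter fun u => ((ω u).2 : ℕ) = 0).card ≤
          (N.filter fun u => ((ω' u).2 : ℕ) = 0).card + 1 := by
      intro i ω ω' h
      have h1 : (N.filter fun u => ((ω u).2 : ℕ) = 0) ⊆
          insert i (N.filter fun u => ((ω' u).2 : ℕ) = 0) := by
        intro u hu
        rw [Finset.mem_filter] at hu
        rw [Finset.mem_insert, Finset.mem_filter]
        by_cases hui : u = i
        · exact Or.inl hui
        · rw [← h u hui]
          exact Or.inr hu
      exact (Finset.card_le_card h1).trans (Finset.card_insert_le _ _)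
    have h1 := mcd (ι := V) (α := Fin X × Fin m) N hne
      (fun ω => t - ((N.filter fun u => ((ω u).2 : ℕ) = 0).card : ℝ))
      (by
        intro ω ω' h
        have h2 : (N.filter fun u => ((ω u).2 : ℕ) = 0) =
            N.filter fun u => ((ω' u).2 : ℕ) = 0 := by
          apply Finset.filter_congr
          intro u hu
          rw [h u hu]
        simp only [h2])
      (by
        intro i ω ω' h
        have h2 := hlip i ω ω' h
        have h3 := hlip i ω' ω (fun j hj => (h j hj).symm)
        have h2' : ((N.filter fun u => ((ω u).2 : ℕ) = 0).card : ℝ) ≤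
          (N.filter fun u => ((ω' u).2 : ℕ) = 0).card + 1 := by exact_mod_cast h2
        have h3' : ((N.filter fun u => ((ω' u).2 : ℕ) = 0).card : ℝ) ≤
          (N.filter fun u => ((ω u).2 : ℕ) = 0).card + 1 := by exact_mod_cast h3
        rw [abs_le]
        constructor <;> linarith)
      (t / 2) (by positivity) hmean
      ((Finset.univ : Finset Ω).filter fun ω =>
        t < ((N.filter fun u => ((ω u).2 : ℕ) = 0).card : ℝ))
      (by
        intro ω hω
        rw [Finset.mem_filter] at hω
        linarith [hω.2])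
    refine h1.trans (mul_le_mul_of_nonneg_left (Real.exp_le_exp.2 ?_) (by positivity))
    have hN0 : (0 : ℝ) < N.card := Nat.cast_pos.2 hne.card_pos
    rw [div_le_div_iff₀ (by linarith) (by linarith)]
    have h2 : 0 ≤ (t / 2) ^ 2 := sq_nonneg _
    nlinarith

lemma spl_mix (Z S : Finset V) (φ : V → Fin X) (FP : Finset (V × V)) (N : Finset V)
    (ω ω' : V → Fin X × Fin m) :
    spl H Z S φ FP N (mix N ω ω') (mix N ω ω') = spl H Z S φ FP N ω ω' := by
  classical
  unfold spl
  apply Finset.filter_congr
  intro w hw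
  rw [Finset.mem_sdiff] at hw
  rw [mix_not_mem hw.2, gam_congr H (fun z hz => mix_mem hz),
    cls_congr (fun z hz => mix_mem hz)]

/-- The savings are large. -/
lemma bad_two (hX : 0 < X) (hm : 0 < m) (Z S : Finset V) (φ : V → Fin X) (FP : Finset (V × V))
    (v : V) (hFP : ∀ p ∈ FP, p.1 ≠ p.2 ∧ ¬ H.Adj p.1 p.2) (a b : ℝ) (ha : 0 < a) (hb0 : 0 < b)
    (hb : ∀ z ∈ Z, ((nbr H Z z).card : ℝ) ≤ b) (hv : v ∈ Z) (hne : (nbr H Z v).Nonempty)
    (hbm : 4 * b / (X * m) ≤ 1 / 4)
    (hmean : 2 * a * Fintype.card (V → Fin X × Fin m) ≤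
      ∑ ω : V → Fin X × Fin m, ((gam H S φ FP (nbr H Z v) ω).card : ℝ)) :
    (((Finset.univ : Finset (V → Fin X × Fin m)).filter fun ω =>
      (((Fs H Z S φ ω).filter fun u => H.Adj v u).card : ℝ) <
        ((((Fs H Z S φ ω).filter fun u => H.Adj v u).image fun z => (ω z).1).card : ℝ) +
          a / 2).card : ℝ) ≤
      Fintype.card (V → Fin X × Fin m) * (Real.exp (-a ^ 2 / (8 * b)) + Real.exp (-a / 4)) := by
  classical
  haveI : Nonempty (Fin X × Fin m) := ⟨(⟨0, hX⟩, ⟨0, hm⟩)⟩
  set Ω := V → Fin X × Fin m with hΩ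
  set N := nbr H Z v with hN
  set B1 := (Finset.univ : Finset Ω).filter fun ω => ((gam H S φ FP N ω).card : ℝ) ≤ a with hB1
  set B2 := (Finset.univ : Finset Ω).filter fun ω => a ≤ ((gam H S φ FP N ω).card : ℝ) ∧
    ((gam H S φ FP N ω).card : ℝ) / 2 ≤ ((spl H Z S φ FP N ω ω).card : ℝ) with hB2
  have hNZ : N ⊆ Z := Finset.filter_subset _ _
  have hsub : ((Finset.univ : Finset Ω).filter fun ω =>
      (((Fs H Z S φ ω).filter fun u => H.Adj v u).card : ℝ) <
        ((((Fs H Z S φ ω).filter fun u => H.Adj v u).image fun z => (ω z).1).card : ℝ) +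
          a / 2) ⊆ B1 ∪ B2 := by
    intro ω hω
    rw [Finset.mem_filter] at hω
    rw [Finset.mem_union]
    by_contra hcon
    rw [not_or, hB1, hB2, Finset.mem_filter, Finset.mem_filter] at hcon
    obtain ⟨h1, h2⟩ := hcon
    have h3 : a < ((gam H S φ FP N ω).card : ℝ) := by
      by_contra h
      exact h1 ⟨Finset.mem_univ _, not_lt.1 h⟩
    have h4 : ((spl H Z S φ FP N ω ω).card : ℝ) < ((gam H S φ FP N ω).card : ℝ) / 2 := by
      by_contra h
      exact h2 ⟨Finset.mem_univ _, h3.le, not_lt.1 h⟩
    have h5 := savings H Z S φ FP v ω hFP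
    have h6 : ((((Fs H Z S φ ω).filter fun u => H.Adj v u).image fun z => (ω z).1).card : ℝ) +
      ((gam H S φ FP N ω).card : ℝ) ≤
      (((Fs H Z S φ ω).filter fun u => H.Adj v u).card : ℝ) +
      ((spl H Z S φ FP N ω ω).card : ℝ) := by exact_mod_cast h5
    linarith [hω.2]
  have hΩpos : (0 : ℝ) < Fintype.card Ω := by exact_mod_cast Fintype.card_pos
  have hc1 : (B1.card : ℝ) ≤ Fintype.card Ω * Real.exp (-a ^ 2 / (8 * b)) := by
    have h1 := mcd (ι := V) (α := Fin X × Fin m) N hne
      (fun ω => (((gam H S φ FP N ω).card : ℝ) - a) / 2)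
      (by
        intro ω ω' h
        simp only [gam_congr H h])
      (by
        intro i ω ω' h
        have h2 := gam_lip (S := S) (φ := φ) (FP := FP) (N := N) H i h
        have h3 := gam_lip (S := S) (φ := φ) (FP := FP) (N := N) H i
          (fun j hj => (h j hj).symm)
        have h2' : ((gam H S φ FP N ω).card : ℝ) ≤ (gam H S φ FP N ω').card + 2 := by
          exact_mod_cast h2
        have h3' : ((gam H S φ FP N ω').card : ℝ) ≤ (gam H S φ FP N ω).card + 2 := by
          exact_mod_cast h3
        rw [abs_le]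
        constructor <;> linarith)
      (a / 2) (by positivity)
      (by
        rw [← Finset.sum_div, Finset.sum_sub_distrib, Finset.sum_const, Finset.card_univ,
          nsmul_eq_mul]
        have h4 : a / 2 * (Fintype.card Ω : ℝ) =
          (2 * a * Fintype.card Ω - Fintype.card Ω * a) / 2 := by ring
        rw [h4]
        apply div_le_div_of_nonneg_right _ (by norm_num)
        linarith)
      B1
      (by
        intro ω hω
        rw [hB1, Finset.mem_filter] at hω
        have := hω.2
        show (((gam H S φ FP N ω).card : ℝ) - a) / 2 ≤ 0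
        linarith)
    refine h1.trans (mul_le_mul_of_nonneg_left (Real.exp_le_exp.2 ?_) hΩpos.le)
    have hN0 : (0 : ℝ) < N.card := Nat.cast_pos.2 hne.card_pos
    have hNb : (N.card : ℝ) ≤ b := hb v hv
    rw [div_le_div_iff₀ (by linarith) (by linarith)]
    have h2 : 0 ≤ a ^ 2 := sq_nonneg _
    nlinarith
  have hc2 : (B2.card : ℝ) ≤ Fintype.card Ω * Real.exp (-a / 4) := by
    have h1 := sum_mix N (fun ω : Ω => if ω ∈ B2 then (1 : ℝ) else 0)
    rw [← Finset.sum_filter, Finset.sum_const, nsmul_eq_mul, mul_one,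
      Finset.filter_mem_eq_inter, Finset.univ_inter] at h1
    have h2 : ∀ ω : Ω, ∑ ω' : Ω, (if mix N ω ω' ∈ B2 then (1 : ℝ) else 0) ≤
        Fintype.card Ω * Real.exp (-a / 4) := by
      intro ω
      by_cases h3 : a ≤ ((gam H S φ FP N ω).card : ℝ)
      · have h4 : ∀ ω' : Ω, (if mix N ω ω' ∈ B2 then (1 : ℝ) else 0) ≤
            Real.exp (((spl H Z S φ FP N ω ω').card : ℝ)) *
              Real.exp (-((gam H S φ FP N ω).card : ℝ) / 2) := by
          intro ω'
          by_cases h5 : mix N ω ω' ∈ B2
          · rw [if_pos h5, ← Real.exp_add]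
            rw [hB2, Finset.mem_filter, spl_mix,
              gam_congr H (ω := mix N ω ω') (ω' := ω) (fun z hz => mix_mem hz)] at h5
            apply Real.one_le_exp
            linarith [h5.2.2]
          · rw [if_neg h5]
            positivity
        calc ∑ ω' : Ω, (if mix N ω ω' ∈ B2 then (1 : ℝ) else 0)
            ≤ ∑ ω' : Ω, Real.exp (((spl H Z S φ FP N ω ω').card : ℝ)) *
              Real.exp (-((gam H S φ FP N ω).card : ℝ) / 2) :=
              Finset.sum_le_sum fun ω' _ => h4 ω'
          _ = (∑ ω' : Ω, Real.exp (((spl H Z S φ FP N ω ω').card : ℝ))) *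
              Real.exp (-((gam H S φ FP N ω).card : ℝ) / 2) := by rw [Finset.sum_mul]
          _ ≤ (Fintype.card Ω * Real.exp (4 * b / (X * m) * (gam H S φ FP N ω).card)) *
              Real.exp (-((gam H S φ FP N ω).card : ℝ) / 2) :=
              mul_le_mul_of_nonneg_right
                (sum_exp_spl H hX hm Z S φ FP N ω hNZ b hb (fun p hp => (hFP p hp).1))
                (Real.exp_pos _).le
          _ = Fintype.card Ω * Real.exp (4 * b / (X * m) * (gam H S φ FP N ω).card +
              -((gam H S φ FP N ω).card : ℝ) / 2) := by rw [Real.exp_add]; ring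
          _ ≤ Fintype.card Ω * Real.exp (-a / 4) := by
              apply mul_le_mul_of_nonneg_left (Real.exp_le_exp.2 ?_) hΩpos.le
              have h6 := mul_le_mul_of_nonneg_right hbm
                (show (0 : ℝ) ≤ (gam H S φ FP N ω).card by positivity)
              linarith
      · have h4 : ∀ ω' : Ω, mix N ω ω' ∉ B2 := by
          intro ω' h5
          rw [hB2, Finset.mem_filter,
              gam_congr H (ω := mix N ω ω') (ω' := ω) (fun z hz => mix_mem hz)] at h5
          exact h3 h5.2.1
        have h5 : ∑ ω' : Ω, (if mix N ω ω' ∈ B2 then (1 : ℝ) else 0) = 0 := by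
          apply Finset.sum_eq_zero
          intro ω' _
          rw [if_neg (h4 ω')]
        rw [h5]
        positivity
    have h3 : (Fintype.card Ω : ℝ) * B2.card ≤
        Fintype.card Ω * (Fintype.card Ω * Real.exp (-a / 4)) := by
      rw [← h1]
      calc _ ≤ ∑ _ω : Ω, (Fintype.card Ω : ℝ) * Real.exp (-a / 4) :=
            Finset.sum_le_sum fun ω _ => h2 ω
        _ = _ := by rw [Finset.sum_const, Finset.card_univ, nsmul_eq_mul]
    exact le_of_mul_le_mul_left h3 hΩpos
  have h1 : (((Finset.univ : Finset Ω).filter fun ω =>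
      (((Fs H Z S φ ω).filter fun u => H.Adj v u).card : ℝ) <
        ((((Fs H Z S φ ω).filter fun u => H.Adj v u).image fun z => (ω z).1).card : ℝ) +
          a / 2).card : ℝ) ≤ B1.card + B2.card := by
    exact_mod_cast (Finset.card_le_card hsub).trans (Finset.card_union_le _ _)
  rw [mul_add]
  linarith

end Pool.Agent.Helper32.Sq
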