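import Pool.Agent.Helper14.SquareDefs

/-!
# Maximum average degree and the function `M'_k(D)`
-/

set_option autoImplicit false

namespace Pool.Agent.Helper32.Sq

open Pool.Agent.Helper14.Square

/-- The maximum average degree of a graph: the maximum of `2|E(H)|/|V(H)|` over the nonempty
subgraphs `H`. -/
noncomputable def mad {V : Type} (G : SimpleGraph V) : ℝ :=
  sSup {d : ℝ | ∃ H : G.Subgraph, H.verts.Nonempty ∧
    d = 2 * (H.edgeSet.ncard : ℝ) / (H.verts.ncard : ℝ)}

open Classical in
/-- The chromatic numbers of the squares of the finite graphs of maximum degree `D` with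
`mad(G) < 2k`. -/
def chromaticSet' (k D : ℕ) : Set ℕ :=
  {χ : ℕ | ∃ (V : Type) (_ : Fintype V) (G : SimpleGraph V),
    G.maxDegree = D ∧ mad G < 2 * k ∧ (square G).chromaticNumber = χ}

/-- `M'_k(D) = max {χ(G²) : Δ(G) = D, mad(G) < 2k}`. -/
noncomputable def M' (k D : ℕ) : ℕ := sSup (chromaticSet' k D)

end Pool.Agent.Helper32.Sq
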