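import Pool.Agent.Helper32.Sq.RL
import Pool.Agent.Helper14.SquareDefs

/-!
# Orientations of sparse graphs (Hall's theorem)
-/

set_option autoImplicit false
set_option linter.unusedSectionVars false

namespace Pool.Agent.Helper32.Sq

open Pool.Agent.Helper14.Square

variable {V : Type} [Fintype V] [DecidableEq V]

/-- A sparse graph has an orientation with small out-degrees: `T v` is the set of the
out-neighbours of `v`. -/
theorem exists_orientation (k : ℕ) (G : SimpleGraph V)
    (hG : ∀ H : G.Subgraph, H.edgeSet.ncard ≤ k * H.verts.ncard) :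
    ∃ out : V → Finset V, (∀ v, (out v).card ≤ k) ∧ (∀ v, ∀ w ∈ out v, G.Adj v w) ∧
      ∀ v w, G.Adj v w → w ∈ out v ∨ v ∈ out w := by
  classical
  -- Hall's theorem
  have hall : ∀ s : Finset G.edgeSet, s.card ≤
      (s.biUnion fun e => (Finset.univ : Finset (V × Fin k)).filter fun p => p.1 ∈ (e : Sym2 V)).card := by
    intro s
    set W : Set V := {v | ∃ e ∈ s, v ∈ (e : Sym2 V)} with hW
    let H : G.Subgraph :=
      { verts := W
        Adj := fun v w => ∃ e ∈ s, (e : Sym2 V) = s(v, w)
        adj_sub := by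
          rintro v w ⟨e, -, he⟩
          have := e.2
          rw [he] at this
          exact this
        edge_vert := by
          rintro v w ⟨e, hs, he⟩
          exact ⟨e, hs, by rw [he]; exact Sym2.mem_mk_left v w⟩
        symm := ⟨by
          rintro v w ⟨e, hs, he⟩
          exact ⟨e, hs, by rw [he, Sym2.eq_swap]⟩⟩ }
    have h1 := hG H
    have h2 : H.edgeSet = (fun e : G.edgeSet => (e : Sym2 V)) '' (s : Set G.edgeSet) := by
      ext e
      induction e using Sym2.ind with
      | _ v w =>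
        rw [SimpleGraph.Subgraph.mem_edgeSet]
        constructor
        · rintro ⟨e, hs, he⟩
          exact ⟨e, hs, he⟩
        · rintro ⟨e, hs, he⟩
          exact ⟨e, hs, he⟩
    have h3 : H.edgeSet.ncard = s.card := by
      rw [h2, Set.ncard_image_of_injective _ Subtype.val_injective, Set.ncard_coe_finset]
    have h4 : (s.biUnion fun e => (Finset.univ : Finset (V × Fin k)).filter
        fun p => p.1 ∈ (e : Sym2 V)) = W.toFinset ×ˢ (Finset.univ : Finset (Fin k)) := by
      ext p
      rw [Finset.mem_biUnion, Finset.mem_product, Set.mem_toFinset]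
      simp only [Finset.mem_filter, Finset.mem_univ, true_and, and_true, hW]
      rfl
    rw [h4, Finset.card_product, Finset.card_univ, Fintype.card_fin, ← h3]
    refine h1.trans ?_
    show k * W.ncard ≤ _
    rw [Set.ncard_eq_toFinset_card', Nat.mul_comm]
  obtain ⟨f, hf, hf2⟩ := (Finset.all_card_le_biUnion_card_iff_exists_injective _).1 hall
  have hf3 : ∀ e : G.edgeSet, (f e).1 ∈ (e : Sym2 V) := fun e => by
    have := hf2 e
    rw [Finset.mem_filter] at this
    exact this.2
  refine ⟨fun v => Finset.univ.filter fun w => ∃ h : G.Adj v w, (f ⟨s(v, w), h⟩).1 = v, ?_, ?_, ?_⟩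
  · intro v
    have h1 : ((Finset.univ : Finset V).filter fun w =>
        ∃ h : G.Adj v w, (f ⟨s(v, w), h⟩).1 = v) ⊆ (Finset.univ : Finset (Fin k)).image
        (fun i => if h : ∃ w, ∃ h : G.Adj v w, f ⟨s(v, w), h⟩ = (v, i) then h.choose else v) := by
      intro w hw
      rw [Finset.mem_filter] at hw
      obtain ⟨-, h, hv⟩ := hw
      have h2 : ∃ w', ∃ h' : G.Adj v w', f ⟨s(v, w'), h'⟩ = (v, (f ⟨s(v, w), h⟩).2) :=
        ⟨w, h, Prod.ext hv rfl⟩
      rw [Finset.mem_image]
      refine ⟨(f ⟨s(v, w), h⟩).2, Finset.mem_univ _, ?_⟩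
      rw [dif_pos h2]
      obtain ⟨h', h3⟩ := h2.choose_spec
      have h4 : f ⟨s(v, h2.choose), h'⟩ = f ⟨s(v, w), h⟩ := by
        rw [h3]
        exact Prod.ext hv.symm rfl
      have h5 := congrArg Subtype.val (hf h4)
      exact Sym2.congr_right.1 h5
    refine (Finset.card_le_card h1).trans (Finset.card_image_le.trans ?_)
    rw [Finset.card_univ, Fintype.card_fin]
  · intro v w hw
    rw [Finset.mem_filter] at hw
    exact hw.2.1
  · intro v w h
    have h1 := hf3 ⟨s(v, w), h⟩
    rw [Sym2.mem_iff] at h1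
    rcases h1 with h1 | h1
    · left
      rw [Finset.mem_filter]
      exact ⟨Finset.mem_univ _, h, h1⟩
    · right
      rw [Finset.mem_filter]
      refine ⟨Finset.mem_univ _, h.symm, ?_⟩
      have h2 : (⟨s(w, v), h.symm⟩ : G.edgeSet) = ⟨s(v, w), h⟩ := Subtype.ext Sym2.eq_swap
      rw [h2]
      exact h1

/-- Vertices at distance at most two are related. -/
lemma rel_of_square {G : SimpleGraph V} {out : V → Finset V}
    (h : ∀ v w, G.Adj v w → w ∈ out v ∨ v ∈ out w) {x y : V} (hxy : (square G).Adj x y) :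
    Rel out x y := by
  obtain ⟨hne, hd⟩ := hxy
  have h0 : G.edist x y ≠ ⊤ := ne_top_of_le_ne_top (by norm_num) hd
  obtain ⟨p, hp⟩ := SimpleGraph.exists_walk_of_edist_ne_top h0
  have hlen : p.length ≤ 2 := by
    have : (p.length : ℕ∞) ≤ (2 : ℕ) := by rw [hp]; exact_mod_cast hd
    exact_mod_cast this
  have hanc1 : ∀ {a b : V}, b ∈ out a → b ∈ Anc out a := fun hb => Finset.mem_union_left _ hb
  have hanc2 : ∀ {a b c : V}, b ∈ out a → c ∈ out b → c ∈ Anc out a := fun hb hc =>
    Finset.mem_union_right _ (Finset.mem_biUnion.2 ⟨_, hb, hc⟩)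
  match p, hlen with
  | .nil, _ => exact absurd rfl hne
  | .cons (v := w) h1 .nil, _ =>
    rcases h _ _ h1 with h2 | h2
    · exact Or.inl (hanc1 h2)
    · exact Or.inr (Or.inl (hanc1 h2))
  | .cons (v := w) h1 (.cons h2 .nil), _ =>
    rcases h _ _ h1 with h3 | h3
    · rcases h _ _ h2 with h4 | h4
      · exact Or.inl (hanc2 h3 h4)
      · exact Or.inr (Or.inr (Or.inl ⟨w, h3, h4⟩))
    · rcases h _ _ h2 with h4 | h4
      · exact Or.inr (Or.inr (Or.inr ⟨w, h3, h4⟩))
      · exact Or.inr (Or.inl (hanc2 h4 h3))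
  | .cons h1 (.cons h2 (.cons h3 q)), hlen =>
    simp only [SimpleGraph.Walk.length_cons] at hlen
    omega

/-- The orientation structure for a graph of maximum degree at most `D`. -/
lemma ori_of {G : SimpleGraph V} [DecidableRel G.Adj] {out : V → Finset V} {k D : ℕ}
    (h1 : ∀ v, (out v).card ≤ k) (h2 : ∀ v, ∀ w ∈ out v, G.Adj v w) (hD : G.maxDegree ≤ D) :
    Ori k D out := by
  refine ⟨h1, fun h => ?_⟩
  refine le_trans (Finset.card_le_card ?_) ((G.degree_le_maxDegree h).trans hD)
  intro u hu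
  rw [Finset.mem_filter] at hu
  rw [SimpleGraph.mem_neighborFinset]
  exact (h2 u h hu.2).symm

end Pool.Agent.Helper32.Sq
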