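import Pool.Agent.Helper32.Sq.Main
import Pool.Agent.Helper32.Sq.Orient
import Pool.Agent.Helper32.Sq.Defs

/-!
# The upper bound for squares of sparse graphs
-/

set_option autoImplicit false
set_option linter.unusedSectionVars false

namespace Pool.Agent.Helper32.Sq

open Pool.Agent.Helper14.Square

/-- Graphs of small maximum average degree are sparse. -/
lemma sparse_of_mad {V : Type} [Fintype V] {G : SimpleGraph V} {k : ℕ} (h : mad G < 2 * k)
    (H : G.Subgraph) : H.edgeSet.ncard ≤ k * H.verts.ncard := by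
  classical
  rcases H.verts.eq_empty_or_nonempty with he | hne
  · have : H.edgeSet = ∅ := by
      ext e
      induction e using Sym2.ind with
      | _ v w =>
        simp only [SimpleGraph.Subgraph.mem_edgeSet, Set.mem_empty_iff_false, iff_false]
        intro hvw
        have := hvw.fst_mem
        rw [he] at this
        exact this
    rw [this]
    simp
  · have hfin : {d : ℝ | ∃ H : G.Subgraph, H.verts.Nonempty ∧
        d = 2 * (H.edgeSet.ncard : ℝ) / (H.verts.ncard : ℝ)}.Finite := by
      have : {d : ℝ | ∃ H : G.Subgraph, H.verts.Nonempty ∧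
        d = 2 * (H.edgeSet.ncard : ℝ) / (H.verts.ncard : ℝ)} ⊆ Set.range
          (fun H : G.Subgraph => 2 * (H.edgeSet.ncard : ℝ) / (H.verts.ncard : ℝ)) := by
        rintro d ⟨H, -, rfl⟩
        exact ⟨H, rfl⟩
      exact (Set.finite_range _).subset this
    have h1 : 2 * (H.edgeSet.ncard : ℝ) / (H.verts.ncard : ℝ) ≤ mad G :=
      le_csSup hfin.bddAbove ⟨H, hne, rfl⟩
    have h2 : (0 : ℝ) < H.verts.ncard := by
      exact_mod_cast (Set.ncard_pos).2 hne
    have h3 : 2 * (H.edgeSet.ncard : ℝ) / (H.verts.ncard : ℝ) < 2 * k := lt_of_le_of_lt h1 h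
    rw [div_lt_iff₀ h2] at h3
    have h4 : (H.edgeSet.ncard : ℝ) ≤ ((k * H.verts.ncard : ℕ) : ℝ) := by
      push_cast
      linarith
    exact_mod_cast h4

/-- Degenerate graphs are sparse. -/
lemma sparse_of_degenerate {V : Type} [Fintype V] {G : SimpleGraph V} {k : ℕ}
    (h : Degenerate k G) : ∀ (n : ℕ) (H : G.Subgraph), H.verts.ncard = n →
      H.edgeSet.ncard ≤ k * n := by
  classical
  intro n
  induction n with
  | zero =>
    intro H hH
    have he : H.verts = ∅ := (Set.ncard_eq_zero).1 hH
    have : H.edgeSet = ∅ := by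
      ext e
      induction e using Sym2.ind with
      | _ v w =>
        simp only [SimpleGraph.Subgraph.mem_edgeSet, Set.mem_empty_iff_false, iff_false]
        intro hvw
        have := hvw.fst_mem
        rw [he] at this
        exact this
    rw [this]
    simp
  | succ n ih =>
    intro H hH
    have hne : H.verts.Nonempty := by
      rw [Set.nonempty_iff_ne_empty]
      intro he
      rw [he, Set.ncard_empty] at hH
      omega
    obtain ⟨v, hv, hdeg⟩ := h H hne
    have h1 := ih (H.deleteVerts {v}) (by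
      rw [SimpleGraph.Subgraph.deleteVerts_verts, Set.ncard_sdiff_singleton_of_mem hv, hH]
      rfl)
    have h2 : H.edgeSet ⊆ (H.deleteVerts {v}).edgeSet ∪ (fun w => s(v, w)) '' H.neighborSet v := by
      intro e
      induction e using Sym2.ind with
      | _ a b =>
        intro hab
        rw [SimpleGraph.Subgraph.mem_edgeSet] at hab
        by_cases ha : a = v
        · subst ha
          exact Or.inr ⟨b, hab, rfl⟩
        · by_cases hb : b = v
          · subst hb
            exact Or.inr ⟨a, hab.symm, Sym2.eq_swap⟩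
          · left
            rw [SimpleGraph.Subgraph.mem_edgeSet, SimpleGraph.Subgraph.deleteVerts_adj]
            exact ⟨hab.fst_mem, ha, hab.snd_mem, hb, hab⟩
    have h3 : H.edgeSet.ncard ≤ (H.deleteVerts {v}).edgeSet.ncard +
        ((fun w => s(v, w)) '' H.neighborSet v).ncard :=
      (Set.ncard_le_ncard h2 (Set.toFinite _)).trans (Set.ncard_union_le _ _)
    have h4 : ((fun w => s(v, w)) '' H.neighborSet v).ncard ≤ (H.neighborSet v).ncard :=
      Set.ncard_image_le (Set.toFinite _)
    rw [Nat.mul_succ]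
    omega

/-- Greedy colouring. -/
lemma greedy {V : Type} [Fintype V] [DecidableEq V] (H : SimpleGraph V) [DecidableRel H.Adj]
    (m : ℕ) (h : ∀ v, dg H Finset.univ v ≤ m) :
    ∃ f : V → Fin (m + 1), Proper H Finset.univ f := by
  classical
  have key : ∀ A : Finset V, ∃ f : V → Fin (m + 1), Proper H A f := by
    intro A
    induction A using Finset.induction_on with
    | empty => exact ⟨fun _ => 0, fun x hx => absurd hx (Finset.notMem_empty x)⟩
    | insert v A hv ih =>
      obtain ⟨f, hf⟩ := ih
      obtain ⟨f', hf', -⟩ := hf.extend v hv (by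
        refine lt_of_le_of_lt Finset.card_image_le (Nat.lt_succ_of_le ?_)
        exact (dg_mono H (Finset.subset_univ A) v).trans (h v))
      exact ⟨f', hf'⟩
  exact key Finset.univ

lemma colorable_of_proper {V : Type} [Fintype V] {H : SimpleGraph V} {X : ℕ} {f : V → Fin X}
    (hf : Proper H Finset.univ f) : H.Colorable X :=
  ⟨SimpleGraph.Coloring.mk f fun {v w} hvw => hf v (Finset.mem_univ _) w (Finset.mem_univ _) hvw⟩

/-- The trivial bound for the square. -/
lemma square_trivial {V : Type} [Fintype V] [DecidableEq V] (G : SimpleGraph V)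
    [DecidableRel G.Adj] [DecidableRel (square G).Adj] (v : V) :
    dg (square G) Finset.univ v ≤ G.maxDegree + G.maxDegree * G.maxDegree := by
  have h1 : ((Finset.univ : Finset V).filter fun u => (square G).Adj v u) ⊆
      G.neighborFinset v ∪ (G.neighborFinset v).biUnion fun w => G.neighborFinset w := by
    intro u hu
    rw [Finset.mem_filter] at hu
    obtain ⟨-, hne, hd⟩ := hu
    have h0 : G.edist v u ≠ ⊤ := ne_top_of_le_ne_top (by norm_num) hd
    obtain ⟨p, hp⟩ := SimpleGraph.exists_walk_of_edist_ne_top h0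
    have hlen : p.length ≤ 2 := by
      have : (p.length : ℕ∞) ≤ (2 : ℕ) := by rw [hp]; exact_mod_cast hd
      exact_mod_cast this
    rw [Finset.mem_union, Finset.mem_biUnion]
    match p, hlen with
    | .nil, _ => exact absurd rfl hne
    | .cons (v := w) h1 .nil, _ => exact Or.inl ((G.mem_neighborFinset _ _).2 h1)
    | .cons (v := w) h1 (.cons h2 .nil), _ =>
      exact Or.inr ⟨w, (G.mem_neighborFinset _ _).2 h1, (G.mem_neighborFinset _ _).2 h2⟩
    | .cons h1 (.cons h2 (.cons h3 q)), hlen =>
      simp only [SimpleGraph.Walk.length_cons] at hlen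
      omega
  refine (Finset.card_le_card h1).trans ((Finset.card_union_le _ _).trans
    (add_le_add (G.degree_le_maxDegree v) (Finset.card_biUnion_le.trans ?_)))
  calc ∑ w ∈ G.neighborFinset v, (G.neighborFinset w).card
      ≤ ∑ _w ∈ G.neighborFinset v, G.maxDegree :=
        Finset.sum_le_sum fun w _ => G.degree_le_maxDegree w
    _ = (G.neighborFinset v).card * G.maxDegree := by rw [Finset.sum_const, smul_eq_mul]
    _ ≤ _ := Nat.mul_le_mul_right _ (G.degree_le_maxDegree v)

/-- The upper bound for all sparse graphs. -/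
theorem upper (k : ℕ) (hk : 2 ≤ k) : ∃ ε C : ℝ, 0 < ε ∧ ε ≤ 1 ∧ 0 ≤ C ∧
    ∀ (V : Type) [Fintype V] (G : SimpleGraph V) [DecidableRel G.Adj],
      (∀ H : G.Subgraph, H.edgeSet.ncard ≤ k * H.verts.ncard) →
      ∃ X : ℕ, (square G).Colorable X ∧ (X : ℝ) ≤ (2 * k - 1 - ε) * G.maxDegree + C := by
  classical
  obtain ⟨ε, hε, D0, h⟩ := main_orientation k hk
  have hk' : (2 : ℝ) ≤ k := by exact_mod_cast hk
  refine ⟨min ε 1, D0 + D0 * D0 + 1, by positivity, min_le_right _ _, by positivity, ?_⟩
  intro V _ G _ hG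
  obtain ⟨out, h1, h2, h3⟩ := exists_orientation k G hG
  have hε1 : min ε 1 ≤ ε := min_le_left _ _
  have hε2 : min ε 1 ≤ 1 := min_le_right _ _
  have hpos : 0 ≤ (2 * k - 1 - min ε 1) * (G.maxDegree : ℝ) :=
    mul_nonneg (by linarith) (by positivity)
  rcases le_or_gt D0 G.maxDegree with hD | hD
  · obtain ⟨X, hX, f, hf⟩ := h G.maxDegree hD V out (square G) (ori_of h1 h2 le_rfl)
      (fun x y hxy => rel_of_square h3 hxy)
    refine ⟨X, colorable_of_proper hf, ?_⟩
    have h4 : (2 * k - 1 - ε) * (G.maxDegree : ℝ) ≤ (2 * k - 1 - min ε 1) * G.maxDegree :=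
      mul_le_mul_of_nonneg_right (by linarith) (by positivity)
    have h5 : (0 : ℝ) ≤ D0 + D0 * D0 + 1 := by positivity
    linarith
  · obtain ⟨f, hf⟩ := greedy (square G) _ (square_trivial G)
    refine ⟨_, colorable_of_proper hf, ?_⟩
    have h4 : G.maxDegree + G.maxDegree * G.maxDegree + 1 ≤ D0 + D0 * D0 + 1 := by
      have := Nat.mul_le_mul hD.le hD.le
      omega
    have h5 : ((G.maxDegree + G.maxDegree * G.maxDegree + 1 : ℕ) : ℝ) ≤
        ((D0 + D0 * D0 + 1 : ℕ) : ℝ) := by exact_mod_cast h4
    push_cast at h5 ⊢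
    linarith

/-- The upper bound for `M_k(D)` and `M'_k(D)`. -/
theorem M_upper (k : ℕ) (hk : 2 ≤ k) : ∃ ε C : ℝ, 0 < ε ∧
    (∀ D : ℕ, (M k D : ℝ) ≤ (2 * k - 1 - ε) * D + C) ∧
    (∀ D : ℕ, (M' k D : ℝ) ≤ (2 * k - 1 - ε) * D + C) := by
  classical
  obtain ⟨ε, C, hε, hε1, hC, h⟩ := upper k hk
  have hk' : (2 : ℝ) ≤ k := by exact_mod_cast hk
  refine ⟨ε, C, hε, ?_, ?_⟩
  · intro D
    have hpos : 0 ≤ (2 * k - 1 - ε) * (D : ℝ) := mul_nonneg (by linarith) (by positivity)
    rcases (chromaticSet k D).eq_empty_or_nonempty with he | hne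
    · unfold M
      rw [he]
      simp only [csSup_empty, bot_eq_zero', Nat.cast_zero]
      linarith
    · by_cases hb : BddAbove (chromaticSet k D)
      · have hmem := Nat.sSup_mem hne hb
        obtain ⟨V, hV, G, hG1, hG2, hG3⟩ := hmem
        obtain ⟨X, hX1, hX2⟩ := h V G (fun H => sparse_of_degenerate hG2 _ H rfl)
        have h4 : (square G).chromaticNumber ≤ X := hX1.chromaticNumber_le
        rw [hG3] at h4
        have h5 : sSup (chromaticSet k D) ≤ X := by exact_mod_cast h4
        have h6 : ((M k D : ℕ) : ℝ) ≤ X := by exact_mod_cast h5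
        rw [hG1] at hX2
        linarith
      · unfold M
        rw [Nat.sSup_of_not_bddAbove hb]
        simp only [Nat.cast_zero]
        linarith
  · intro D
    have hpos : 0 ≤ (2 * k - 1 - ε) * (D : ℝ) := mul_nonneg (by linarith) (by positivity)
    rcases (chromaticSet' k D).eq_empty_or_nonempty with he | hne
    · unfold M'
      rw [he]
      simp only [csSup_empty, bot_eq_zero', Nat.cast_zero]
      linarith
    · by_cases hb : BddAbove (chromaticSet' k D)
      · have hmem := Nat.sSup_mem hne hb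
        obtain ⟨V, hV, G, hG1, hG2, hG3⟩ := hmem
        obtain ⟨X, hX1, hX2⟩ := h V G (fun H => sparse_of_mad hG2 H)
        have h4 : (square G).chromaticNumber ≤ X := hX1.chromaticNumber_le
        rw [hG3] at h4
        have h5 : sSup (chromaticSet' k D) ≤ X := by exact_mod_cast h4
        have h6 : ((M' k D : ℕ) : ℝ) ≤ X := by exact_mod_cast h5
        rw [hG1] at hX2
        linarith
      · unfold M'
        rw [Nat.sSup_of_not_bddAbove hb]
        simp only [Nat.cast_zero]
        linarith

/-- Degenerate graphs are strictly sparse. -/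
lemma strict_of_degenerate {V : Type} [Fintype V] {G : SimpleGraph V} {k : ℕ} (hk : 1 ≤ k)
    (h : Degenerate k G) : ∀ (n : ℕ) (H : G.Subgraph), H.verts.ncard = n + 1 →
      H.edgeSet.ncard + 1 ≤ k * (n + 1) := by
  classical
  intro n
  induction n with
  | zero =>
    intro H hH
    obtain ⟨v, hv⟩ := Set.ncard_eq_one.1 hH
    have : H.edgeSet = ∅ := by
      ext e
      induction e using Sym2.ind with
      | _ a b =>
        simp only [SimpleGraph.Subgraph.mem_edgeSet, Set.mem_empty_iff_false, iff_false]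
        intro hab
        have h1 := hab.fst_mem
        have h2 := hab.snd_mem
        rw [hv, Set.mem_singleton_iff] at h1 h2
        exact hab.ne (h1.trans h2.symm)
    rw [this]
    simp only [Set.ncard_empty]
    omega
  | succ n ih =>
    intro H hH
    have hne : H.verts.Nonempty := by
      rw [Set.nonempty_iff_ne_empty]
      intro he
      rw [he, Set.ncard_empty] at hH
      omega
    obtain ⟨v, hv, hdeg⟩ := h H hne
    have h1 := ih (H.deleteVerts {v}) (by
      rw [SimpleGraph.Subgraph.deleteVerts_verts, Set.ncard_sdiff_singleton_of_mem hv, hH]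
      rfl)
    have h2 : H.edgeSet ⊆ (H.deleteVerts {v}).edgeSet ∪ (fun w => s(v, w)) '' H.neighborSet v := by
      intro e
      induction e using Sym2.ind with
      | _ a b =>
        intro hab
        rw [SimpleGraph.Subgraph.mem_edgeSet] at hab
        by_cases ha : a = v
        · subst ha
          exact Or.inr ⟨b, hab, rfl⟩
        · by_cases hb : b = v
          · subst hb
            exact Or.inr ⟨a, hab.symm, Sym2.eq_swap⟩
          · left
            rw [SimpleGraph.Subgraph.mem_edgeSet, SimpleGraph.Subgraph.deleteVerts_adj]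
            exact ⟨hab.fst_mem, ha, hab.snd_mem, hb, hab⟩
    have h3 : H.edgeSet.ncard ≤ (H.deleteVerts {v}).edgeSet.ncard +
        ((fun w => s(v, w)) '' H.neighborSet v).ncard :=
      (Set.ncard_le_ncard h2 (Set.toFinite _)).trans (Set.ncard_union_le _ _)
    have h4 : ((fun w => s(v, w)) '' H.neighborSet v).ncard ≤ (H.neighborSet v).ncard :=
      Set.ncard_image_le (Set.toFinite _)
    rw [Nat.mul_succ]
    omega

/-- Degenerate graphs have small maximum average degree. -/
lemma mad_of_degenerate {V : Type} [Fintype V] {G : SimpleGraph V} {k : ℕ} (hk : 1 ≤ k)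
    (h : Degenerate k G) : mad G < 2 * k := by
  classical
  have hk' : (1 : ℝ) ≤ k := by exact_mod_cast hk
  set A : Set ℝ := {d : ℝ | ∃ H : G.Subgraph, H.verts.Nonempty ∧
        d = 2 * (H.edgeSet.ncard : ℝ) / (H.verts.ncard : ℝ)} with hA
  have hfin : A.Finite := by
    have : A ⊆ Set.range
          (fun H : G.Subgraph => 2 * (H.edgeSet.ncard : ℝ) / (H.verts.ncard : ℝ)) := by
      rintro d ⟨H, -, rfl⟩
      exact ⟨H, rfl⟩
    exact (Set.finite_range _).subset this
  rcases A.eq_empty_or_nonempty with he | hne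
  · have : mad G = 0 := by
      unfold mad
      rw [← hA, he, Real.sSup_empty]
    rw [this]
    linarith
  · have hmem : mad G ∈ A := hne.csSup_mem hfin
    obtain ⟨H, hH, hd⟩ := hmem
    rw [hd]
    have hpos : 0 < H.verts.ncard := (Set.ncard_pos).2 hH
    obtain ⟨n, hn⟩ : ∃ n, H.verts.ncard = n + 1 := ⟨H.verts.ncard - 1, by omega⟩
    have h1 := strict_of_degenerate hk h n H hn
    rw [← hn] at h1
    have h2 : (H.edgeSet.ncard : ℝ) + 1 ≤ k * H.verts.ncard := by exact_mod_cast h1
    have h3 : (0 : ℝ) < H.verts.ncard := by exact_mod_cast hpos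
    rw [div_lt_iff₀ h3]
    linarith

lemma chromaticSet'_bdd (k D : ℕ) : BddAbove (chromaticSet' k D) := by
  classical
  refine ⟨D + D * D + 1, ?_⟩
  rintro χ ⟨V, _, G, hG, -, hχ⟩
  obtain ⟨f, hf⟩ := greedy (square G) _ (square_trivial G)
  have h1 : (square G).chromaticNumber ≤ ((G.maxDegree + G.maxDegree * G.maxDegree + 1 : ℕ) : ℕ∞) :=
    (colorable_of_proper hf).chromaticNumber_le
  rw [hχ, hG] at h1
  exact_mod_cast h1

/-- `M_k(D) ≤ M'_k(D)`. -/
lemma M_le_M' (k D : ℕ) (hk : 1 ≤ k) : M k D ≤ M' k D := by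
  classical
  have hsub : chromaticSet k D ⊆ chromaticSet' k D := by
    rintro χ ⟨V, hV, G, h1, h2, h3⟩
    exact ⟨V, hV, G, h1, mad_of_degenerate hk h2, h3⟩
  unfold M M'
  rcases (chromaticSet k D).eq_empty_or_nonempty with he | hne
  · rw [he]
    simp only [csSup_empty, bot_eq_zero', zero_le]
  · exact csSup_le_csSup (chromaticSet'_bdd k D) hne hsub

/-- The upper bound, in one chain. -/
theorem M_chain (k : ℕ) (hk : 2 ≤ k) : ∃ ε C : ℝ, 0 < ε ∧
    ∀ D : ℕ, (M k D : ℝ) ≤ M' k D ∧ (M' k D : ℝ) ≤ (2 * k - 1 - ε) * D + C := by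
  obtain ⟨ε, C, hε, -, h⟩ := M_upper k hk
  exact ⟨ε, C, hε, fun D => ⟨by exact_mod_cast M_le_M' k D (by omega), h D⟩⟩

end Pool.Agent.Helper32.Sq
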