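import Pool.Agent.Helper32.Sq.Part3

/-!
# The random partial colouring lemma
-/

set_option autoImplicit false
set_option linter.unusedSectionVars false
set_option linter.style.haveILetI false

namespace Pool.Agent.Helper32.Sq

open Filter in
lemma evt_exp (β C : ℝ) (hβ : 0 < β) (hC : 0 < C) :
    ∀ᶠ D : ℕ in atTop, (D : ℝ) ^ 4 * Real.exp (-(β * D)) < C := by
  have h := (Real.tendsto_pow_mul_exp_neg_atTop_nhds_zero 4).comp
    ((tendsto_natCast_atTop_atTop (R := ℝ)).const_mul_atTop hβ)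
  have h2 := h.eventually_lt_const (show 0 < β ^ 4 * C by positivity)
  filter_upwards [h2] with D hD
  simp only [Function.comp] at hD
  have h3 : β ^ 4 * ((D : ℝ) ^ 4 * Real.exp (-(β * D))) < β ^ 4 * C := by
    calc β ^ 4 * ((D : ℝ) ^ 4 * Real.exp (-(β * D))) = (β * D) ^ 4 * Real.exp (-(β * D)) := by ring
      _ < _ := hD
  exact lt_of_mul_lt_mul_left h3 (by positivity)

section

variable {V : Type} [Fintype V] [DecidableEq V] (H : SimpleGraph V) [DecidableRel H.Adj]

/-- The coordinates which determine the bad event at `v`. -/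
def Tv (Z : Finset V) (v : V) : Finset V :=
  if v ∈ Z then nbr H Z v ∪ (nbr H Z v).biUnion (nbr H Z) else ∅

lemma mem_Tv_symm {Z : Finset V} {t v : V} (h : t ∈ Tv H Z v) : v ∈ Tv H Z t := by
  unfold Tv at h ⊢
  by_cases hv : v ∈ Z
  · rw [if_pos hv, Finset.mem_union, Finset.mem_biUnion] at h
    rcases h with h | ⟨u, hu, hu'⟩
    · rw [nbr, Finset.mem_filter] at h
      rw [if_pos h.1, Finset.mem_union]
      left
      rw [nbr, Finset.mem_filter]
      exact ⟨hv, h.2.symm⟩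
    · rw [nbr, Finset.mem_filter] at hu hu'
      rw [if_pos hu'.1, Finset.mem_union, Finset.mem_biUnion]
      right
      refine ⟨u, ?_, ?_⟩
      · rw [nbr, Finset.mem_filter]
        exact ⟨hu.1, hu'.2.symm⟩
      · rw [nbr, Finset.mem_filter]
        exact ⟨hv, hu.2.symm⟩
  · rw [if_neg hv] at h
    exact absurd h (Finset.notMem_empty _)

lemma card_Tv {Z : Finset V} {B : ℕ} (hB : ∀ z ∈ Z, (nbr H Z z).card ≤ B) (v : V) :
    (Tv H Z v).card ≤ B + B * B := by
  unfold Tv
  by_cases hv : v ∈ Z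
  · rw [if_pos hv]
    refine (Finset.card_union_le _ _).trans (add_le_add (hB v hv) ?_)
    refine Finset.card_biUnion_le.trans ?_
    calc ∑ u ∈ nbr H Z v, (nbr H Z u).card ≤ ∑ _u ∈ nbr H Z v, B := by
          apply Finset.sum_le_sum
          intro u hu
          exact hB u (Finset.mem_filter.1 hu).1
      _ = (nbr H Z v).card * B := by rw [Finset.sum_const, smul_eq_mul]
      _ ≤ B * B := Nat.mul_le_mul_right _ (hB v hv)
  · rw [if_neg hv, Finset.card_empty]
    exact Nat.zero_le _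

lemma card_dep {Z : Finset V} {B : ℕ} (hB : ∀ z ∈ Z, (nbr H Z z).card ≤ B) (v : V) :
    ((Finset.univ : Finset V).filter fun v' => ¬ Disjoint (Tv H Z v) (Tv H Z v')).card ≤
      (B + B * B) * (B + B * B) := by
  have h1 : ((Finset.univ : Finset V).filter fun v' => ¬ Disjoint (Tv H Z v) (Tv H Z v')) ⊆
      (Tv H Z v).biUnion (Tv H Z) := by
    intro v' hv'
    rw [Finset.mem_filter, Finset.not_disjoint_iff] at hv'
    obtain ⟨-, t, ht, ht'⟩ := hv'
    rw [Finset.mem_biUnion]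
    exact ⟨t, ht, mem_Tv_symm H ht'⟩
  refine (Finset.card_le_card h1).trans (Finset.card_biUnion_le.trans ?_)
  calc ∑ u ∈ Tv H Z v, (Tv H Z u).card ≤ ∑ _u ∈ Tv H Z v, (B + B * B) :=
        Finset.sum_le_sum fun u _ => card_Tv H hB u
    _ = (Tv H Z v).card * (B + B * B) := by rw [Finset.sum_const, smul_eq_mul]
    _ ≤ _ := Nat.mul_le_mul_right _ (card_Tv H hB v)

lemma Fs_congr {X m : ℕ} (Z S : Finset V) (φ : V → Fin X) {ω ω' : V → Fin X × Fin m} {v : V}
    (hv : v ∈ Z) (h : ∀ i ∈ Tv H Z v, ω i = ω' i) :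
    (Fs H Z S φ ω).filter (fun u => H.Adj v u) = (Fs H Z S φ ω').filter (fun u => H.Adj v u) := by
  classical
  have hT : ∀ z, z ∈ Z → H.Adj v z → ω z = ω' z ∧ ∀ w ∈ Z, H.Adj z w → ω w = ω' w := by
    intro z hz hvz
    have hzN : z ∈ nbr H Z v := Finset.mem_filter.2 ⟨hz, hvz⟩
    constructor
    · apply h
      rw [Tv, if_pos hv, Finset.mem_union]
      exact Or.inl hzN
    · intro w hw hzw
      apply h
      rw [Tv, if_pos hv, Finset.mem_union, Finset.mem_biUnion]
      exact Or.inr ⟨z, hzN, Finset.mem_filter.2 ⟨hw, hzw⟩⟩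
  ext z
  rw [Finset.mem_filter, Finset.mem_filter, Fs, Fs, Finset.mem_filter, Finset.mem_filter]
  constructor
  · rintro ⟨⟨h1, h2, h3, h4⟩, h5⟩
    obtain ⟨g1, g2⟩ := hT z h1 h5
    rw [g1] at h2 h3
    refine ⟨⟨h1, h2, h3, fun w hw hzw hw0 => ?_⟩, h5⟩
    rw [← g2 w hw hzw] at hw0 ⊢
    rw [← g1]
    exact h4 w hw hzw hw0
  · rintro ⟨⟨h1, h2, h3, h4⟩, h5⟩
    obtain ⟨g1, g2⟩ := hT z h1 h5
    rw [← g1] at h2 h3
    refine ⟨⟨h1, h2, h3, fun w hw hzw hw0 => ?_⟩, h5⟩
    rw [g2 w hw hzw] at hw0 ⊢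
    rw [g1]
    exact h4 w hw hzw hw0

end

set_option maxHeartbeats 4000000 in
open Filter in
/-- The random partial colouring lemma. `Z` is the set of vertices to be coloured, `S` is already
coloured by `φ`. Every vertex of `Low` sees many ordered non adjacent pairs of vertices of `Z` with
few neighbours in `S`. -/
theorem exists_partial (K c δ : ℝ) (hK : 1 ≤ K) (hc : 0 < c) (hδ : 0 < δ) :
    ∃ μ : ℝ, 0 < μ ∧ ∃ D0 : ℕ, ∀ D : ℕ, D0 ≤ D → ∀ X : ℕ, D ≤ X → (X : ℝ) ≤ K * D →
      ∀ (V : Type) [Fintype V] [DecidableEq V] (H : SimpleGraph V) [DecidableRel H.Adj]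
        (S Z Low : Finset V) (φ : V → Fin X), Disjoint S Z → Low ⊆ Z →
        (∀ v ∈ Z, ((Z.filter fun u => H.Adj v u).card : ℝ) ≤ K * D) →
        (∀ v ∈ Low, c * (D : ℝ) ^ 2 ≤ (((Z ×ˢ Z).filter fun p : V × V =>
          p.1 ≠ p.2 ∧ H.Adj v p.1 ∧ H.Adj v p.2 ∧ ¬ H.Adj p.1 p.2 ∧
          4 * (S.filter fun s => H.Adj p.1 s).card ≤ X ∧
          4 * (S.filter fun s => H.Adj p.2 s).card ≤ X).card : ℝ)) →
        ∃ (F : Finset V) (f : V → Fin X), F ⊆ Z ∧
          (∀ x ∈ F, ∀ y ∈ F, H.Adj x y → f x ≠ f y) ∧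
          (∀ x ∈ F, ∀ s ∈ S, H.Adj x s → f x ≠ φ s) ∧
          (∀ v ∈ Z, ((F.filter fun u => H.Adj v u).card : ℝ) ≤ δ * D) ∧
          (∀ v ∈ Low, (((F.filter fun u => H.Adj v u).image f).card : ℝ) + μ * D ≤
            ((F.filter fun u => H.Adj v u).card : ℝ)) := by
  classical
  have hK0 : 0 < K := by linarith
  set m : ℕ := ⌈16 * K + 2 * K / δ⌉₊ with hm
  have hm1 : 16 * K + 2 * K / δ ≤ m := Nat.le_ceil _
  have hKδ : 0 < 2 * K / δ := by positivity
  have hm2 : 16 * K ≤ m := by linarith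
  have hm3 : 2 * K / δ ≤ m := by linarith
  have hm0 : (0 : ℝ) < m := by linarith
  have hmpos : 0 < m := by exact_mod_cast hm0
  set a0 : ℝ := c / (16 * K * m ^ 2) with ha0
  have ha0pos : 0 < a0 := by positivity
  refine ⟨a0 / 2, by positivity, ?_⟩
  set C : ℝ := 1 / (60 * K ^ 4) with hC
  have hC0 : 0 < C := by positivity
  have hev : ∀ᶠ D : ℕ in atTop, 0 < D ∧
      (D : ℝ) ^ 4 * Real.exp (-((δ ^ 2 / (8 * K)) * D)) < C ∧
      (D : ℝ) ^ 4 * Real.exp (-((a0 ^ 2 / (8 * K)) * D)) < C ∧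
      (D : ℝ) ^ 4 * Real.exp (-((a0 / 4) * D)) < C := by
    filter_upwards [eventually_gt_atTop 0, evt_exp (δ ^ 2 / (8 * K)) C (by positivity) hC0,
      evt_exp (a0 ^ 2 / (8 * K)) C (by positivity) hC0,
      evt_exp (a0 / 4) C (by positivity) hC0] with D h1 h2 h3 h4
    exact ⟨h1, h2, h3, h4⟩
  obtain ⟨D0, hD0⟩ := eventually_atTop.1 hev
  refine ⟨D0, fun D hD X hDX hXK V _ _ H _ S Z Low φ _ hLZ hdeg hfine => ?_⟩
  obtain ⟨hDpos, e1, e2, e3⟩ := hD0 D hD
  have hD' : (0 : ℝ) < D := by exact_mod_cast hDpos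
  have hD1 : (1 : ℝ) ≤ D := by exact_mod_cast hDpos
  have hX : 0 < X := lt_of_lt_of_le hDpos hDX
  have hX' : (0 : ℝ) < X := by exact_mod_cast hX
  have hDX' : (D : ℝ) ≤ X := by exact_mod_cast hDX
  set Ω := V → Fin X × Fin m with hΩ
  haveI : Nonempty (Fin X × Fin m) := ⟨(⟨0, hX⟩, ⟨0, hmpos⟩)⟩
  have hΩpos : (0 : ℝ) < Fintype.card Ω := by exact_mod_cast Fintype.card_pos
  set b : ℝ := K * D with hb
  have hb0 : 0 < b := by positivity
  set B : ℕ := ⌊b⌋₊ with hB
  have hBb : (B : ℝ) ≤ b := Nat.floor_le hb0.le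
  have hnbr : ∀ z ∈ Z, ((nbr H Z z).card : ℝ) ≤ b := hdeg
  have hnbr' : ∀ z ∈ Z, (nbr H Z z).card ≤ B := fun z hz => Nat.le_floor (hnbr z hz)
  set FP : V → Finset (V × V) := fun v => (Z ×ˢ Z).filter fun p : V × V =>
          p.1 ≠ p.2 ∧ H.Adj v p.1 ∧ H.Adj v p.2 ∧ ¬ H.Adj p.1 p.2 ∧
          4 * (S.filter fun s => H.Adj p.1 s).card ≤ X ∧
          4 * (S.filter fun s => H.Adj p.2 s).card ≤ X with hFP
  set a : ℝ := a0 * D with ha
  have ha0' : 0 < a := by positivity
  set E1 : V → Ω → Prop := fun v ω =>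
    δ * D < (((nbr H Z v).filter fun u => ((ω u).2 : ℕ) = 0).card : ℝ) with hE1
  set E2 : V → Ω → Prop := fun v ω =>
    (((Fs H Z S φ ω).filter fun u => H.Adj v u).card : ℝ) <
        ((((Fs H Z S φ ω).filter fun u => H.Adj v u).image fun z => (ω z).1).card : ℝ) +
          a / 2 with hE2
  set A : V → Finset Ω := fun v => Finset.univ.filter fun ω =>
    v ∈ Z ∧ (E1 v ω ∨ (v ∈ Low ∧ E2 v ω)) with hA
  set q1 : ℝ := Real.exp (-(δ * D / 2) ^ 2 / (2 * b)) with hq1
  set q2 : ℝ := Real.exp (-a ^ 2 / (8 * b)) + Real.exp (-a / 4) with hq2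
  have hq1pos : 0 < q1 := Real.exp_pos _
  have hq2pos : 0 < q2 := by positivity
  have hbm1 : b / m ≤ δ * D / 2 := by
    rw [div_le_iff₀ hm0]
    have h1 : 2 * K ≤ m * δ := by
      rw [div_le_iff₀ hδ] at hm3
      exact hm3
    have h2 : 2 * K * D ≤ m * δ * D := mul_le_mul_of_nonneg_right h1 hD'.le
    rw [hb]
    linarith
  have hbm2 : 4 * b / (X * m) ≤ 1 / 4 := by
    rw [div_le_div_iff₀ (by positivity) (by norm_num)]
    have h1 : 16 * K * D ≤ m * X := by
      calc 16 * K * D ≤ m * D := mul_le_mul_of_nonneg_right hm2 hD'.le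
        _ ≤ m * X := mul_le_mul_of_nonneg_left hDX' hm0.le
    rw [hb]
    linarith
  have hbm3 : b ≤ X * m / 2 := by
    have h1 : 16 * K * D ≤ m * X := by
      calc 16 * K * D ≤ m * D := mul_le_mul_of_nonneg_right hm2 hD'.le
        _ ≤ m * X := mul_le_mul_of_nonneg_left hDX' hm0.le
    have h2 : 0 < K * D := by positivity
    rw [hb]
    linarith
  -- the probabilities
  have hP : ∀ v, ((A v).card : ℝ) ≤ (q1 + q2) * Fintype.card Ω := by
    intro v
    by_cases hv : v ∈ Z
    · have h1 := bad_one (V := V) (X := X) (m := m) hX hmpos (nbr H Z v) (δ * D) b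
        (by positivity) hb0 (hnbr v hv) hbm1
      by_cases hvL : v ∈ Low
      · have hf := hfine v hvL
        have hFPv : ∀ p ∈ FP v, p.1 ∈ nbr H Z v ∧ p.2 ∈ nbr H Z v ∧ p.1 ≠ p.2 ∧
            4 * (S.filter fun s => H.Adj p.1 s).card ≤ X ∧
            4 * (S.filter fun s => H.Adj p.2 s).card ≤ X := by
          intro p hp
          rw [hFP, Finset.mem_filter, Finset.mem_product] at hp
          obtain ⟨⟨g1, g2⟩, g3, g4, g5, g6, g7, g8⟩ := hp
          exact ⟨Finset.mem_filter.2 ⟨g1, g4⟩, Finset.mem_filter.2 ⟨g2, g5⟩, g3, g7, g8⟩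
        have hFPv' : ∀ p ∈ FP v, p.1 ≠ p.2 ∧ ¬ H.Adj p.1 p.2 := by
          intro p hp
          rw [hFP, Finset.mem_filter, Finset.mem_product] at hp
          obtain ⟨⟨g1, g2⟩, g3, g4, g5, g6, g7, g8⟩ := hp
          exact ⟨g3, g6⟩
        have hne : (nbr H Z v).Nonempty := by
          have h2 : (0 : ℝ) < ((FP v).card : ℝ) := lt_of_lt_of_le (by positivity) hf
          have h3 : 0 < (FP v).card := by exact_mod_cast h2
          obtain ⟨p, hp⟩ := Finset.card_pos.1 h3
          exact ⟨p.1, (hFPv p hp).1⟩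
        have hmean : 2 * a * Fintype.card Ω ≤
            ∑ ω : Ω, ((gam H S φ (FP v) (nbr H Z v) ω).card : ℝ) := by
          have h2 := sum_gam_ge H hX hmpos (nbr H Z v) ((hnbr v hv).trans hbm3) S φ (FP v) hFPv
          refine le_trans ?_ h2
          apply mul_le_mul_of_nonneg_right _ hΩpos.le
          rw [le_div_iff₀ (by positivity)]
          have h3 : 2 * a * (8 * X * m ^ 2) = c / K * D * X := by
            rw [ha, ha0]
            field_simp
            ring
          rw [h3]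
          calc c / K * D * X ≤ c / K * D * (K * D) := by
                apply mul_le_mul_of_nonneg_left hXK (by positivity)
            _ = c * D ^ 2 := by field_simp
            _ ≤ _ := hf
        have h2 := bad_two (X := X) (m := m) H hX hmpos Z S φ (FP v) v hFPv' a b ha0' hb0 hnbr hv
          hne hbm2 hmean
        have h3 : A v ⊆ (Finset.univ.filter fun ω => E1 v ω) ∪
            (Finset.univ.filter fun ω => E2 v ω) := by
          intro ω hω
          rw [hA, Finset.mem_filter] at hω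
          rw [Finset.mem_union, Finset.mem_filter, Finset.mem_filter]
          rcases hω.2.2 with h | ⟨-, h⟩
          · exact Or.inl ⟨Finset.mem_univ _, h⟩
          · exact Or.inr ⟨Finset.mem_univ _, h⟩
        have h4 : ((A v).card : ℝ) ≤ ((Finset.univ.filter fun ω => E1 v ω).card : ℝ) +
            ((Finset.univ.filter fun ω => E2 v ω).card : ℝ) := by
          exact_mod_cast (Finset.card_le_card h3).trans (Finset.card_union_le _ _)
        have h5 : ((Finset.univ.filter fun ω => E1 v ω).card : ℝ) ≤ Fintype.card Ω * q1 := h1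
        have h6 : ((Finset.univ.filter fun ω => E2 v ω).card : ℝ) ≤ Fintype.card Ω * q2 := h2
        linarith
      · have h3 : A v ⊆ (Finset.univ.filter fun ω => E1 v ω) := by
          intro ω hω
          rw [hA, Finset.mem_filter] at hω
          rw [Finset.mem_filter]
          rcases hω.2.2 with h | ⟨h, -⟩
          · exact ⟨Finset.mem_univ _, h⟩
          · exact absurd h hvL
        have h4 : ((A v).card : ℝ) ≤ ((Finset.univ.filter fun ω => E1 v ω).card : ℝ) := by
          exact_mod_cast Finset.card_le_card h3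
        have h5 : ((Finset.univ.filter fun ω => E1 v ω).card : ℝ) ≤ Fintype.card Ω * q1 := h1
        have h6 : 0 < q2 * Fintype.card Ω := by positivity
        linarith
    · have h1 : A v = ∅ := by
        rw [hA, Finset.filter_eq_empty_iff]
        rintro ω - ⟨h, -⟩
        exact hv h
      rw [h1, Finset.card_empty, Nat.cast_zero]
      positivity
  -- dependence
  have hDep : ∀ v, DepOn (Tv H Z v) (A v) := by
    intro v ω ω' h hω
    rw [hA, Finset.mem_filter] at hω ⊢
    obtain ⟨-, hv, hω⟩ := hω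
    refine ⟨Finset.mem_univ _, hv, ?_⟩
    have hN : ∀ u ∈ nbr H Z v, ω u = ω' u := by
      intro u hu
      apply h
      rw [Tv, if_pos hv, Finset.mem_union]
      exact Or.inl hu
    rcases hω with hω | ⟨hvL, hω⟩
    · left
      rw [hE1] at hω ⊢
      have h1 : ((nbr H Z v).filter fun u => ((ω u).2 : ℕ) = 0) =
          (nbr H Z v).filter fun u => ((ω' u).2 : ℕ) = 0 := by
        apply Finset.filter_congr
        intro u hu
        rw [hN u hu]
      simp only at hω ⊢
      rw [← h1]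
      exact hω
    · right
      refine ⟨hvL, ?_⟩
      rw [hE2] at hω ⊢
      simp only at hω ⊢
      rw [← Fs_congr H Z S φ hv h]
      have h1 : ((Fs H Z S φ ω).filter fun u => H.Adj v u).image (fun z => (ω' z).1) =
          ((Fs H Z S φ ω).filter fun u => H.Adj v u).image (fun z => (ω z).1) := by
        apply Finset.image_congr
        intro z hz
        rw [Finset.mem_coe, Finset.mem_filter] at hz
        have hzZ : z ∈ Z := by
          have := hz.1
          rw [Fs, Finset.mem_filter] at this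
          exact this.1
        have := hN z (Finset.mem_filter.2 ⟨hzZ, hz.2⟩)
        simp only [this]
      rw [h1]
      exact hω
  -- the local lemma
  have hBB : ((((B + B * B) * (B + B * B) : ℕ) : ℝ) + 1) ≤ 5 * K ^ 4 * D ^ 4 := by
    have h1 : (1 : ℝ) ≤ b := by
      rw [hb]
      nlinarith
    have h2 : ((B + B * B : ℕ) : ℝ) ≤ 2 * b ^ 2 := by
      push_cast
      have h3 : (B : ℝ) * B ≤ b * b := mul_le_mul hBb hBb (by positivity) hb0.le
      nlinarith
    have h3 : (((B + B * B) * (B + B * B) : ℕ) : ℝ) ≤ (2 * b ^ 2) * (2 * b ^ 2) := by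
      rw [Nat.cast_mul]
      exact mul_le_mul h2 h2 (by positivity) (by positivity)
    have h4 : (1 : ℝ) ≤ b ^ 4 := one_le_pow₀ h1
    have h5 : b ^ 4 = K ^ 4 * D ^ 4 := by rw [hb]; ring
    have h6 : (2 * b ^ 2) * (2 * b ^ 2) = 4 * b ^ 4 := by ring
    rw [h6] at h3
    calc ((((B + B * B) * (B + B * B) : ℕ) : ℝ) + 1) ≤ 4 * b ^ 4 + b ^ 4 := by linarith
      _ = 5 * K ^ 4 * D ^ 4 := by rw [h5]; ring
  have hq : 4 * (q1 + q2) * ((((B + B * B) * (B + B * B) : ℕ) : ℝ) + 1) ≤ 1 := by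
    have g1 : q1 = Real.exp (-((δ ^ 2 / (8 * K)) * D)) := by
      rw [hq1]
      congr 1
      rw [hb]
      field_simp
      ring
    have g2 : Real.exp (-a ^ 2 / (8 * b)) = Real.exp (-((a0 ^ 2 / (8 * K)) * D)) := by
      congr 1
      rw [hb, ha]
      field_simp
    have g3 : Real.exp (-a / 4) = Real.exp (-((a0 / 4) * D)) := by
      congr 1
      rw [ha]
      ring
    have g4 : (D : ℝ) ^ 4 * (q1 + q2) ≤ 3 * C := by
      rw [hq2, g1, g2, g3]
      linarith
    calc 4 * (q1 + q2) * ((((B + B * B) * (B + B * B) : ℕ) : ℝ) + 1)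
        ≤ 4 * (q1 + q2) * (5 * K ^ 4 * D ^ 4) :=
          mul_le_mul_of_nonneg_left hBB (by positivity)
      _ = 20 * K ^ 4 * ((D : ℝ) ^ 4 * (q1 + q2)) := by ring
      _ ≤ 20 * K ^ 4 * (3 * C) := mul_le_mul_of_nonneg_left g4 (by positivity)
      _ = 1 := by rw [hC]; field_simp; norm_num
  obtain ⟨ω, hω⟩ := lll (ι := V) (α := Fin X × Fin m) A (Tv H Z) hDep (q1 + q2)
    ((B + B * B) * (B + B * B)) (by positivity) hP (card_dep H hnbr') hq
  have hω' : ∀ v ∈ Z, ¬ E1 v ω ∧ (v ∈ Low → ¬ E2 v ω) := by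
    intro v hv
    have h1 := hω v
    rw [hA, Finset.mem_filter] at h1
    push Not at h1
    have h2 := h1 (Finset.mem_univ _) hv
    exact ⟨h2.1, fun h => h2.2 h⟩
  refine ⟨Fs H Z S φ ω, fun z => (ω z).1, Finset.filter_subset _ _, ?_, ?_, ?_, ?_⟩
  · intro x hx y hy hxy
    rw [Fs, Finset.mem_filter] at hx hy
    exact (hx.2.2.2 y hy.1 hxy hy.2.1).symm
  · intro x hx s hs hxs
    rw [Fs, Finset.mem_filter] at hx
    exact (hx.2.2.1 s hs hxs).symm
  · intro v hv
    have h1 := (hω' v hv).1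
    rw [hE1] at h1
    simp only [not_lt] at h1
    refine le_trans ?_ h1
    have h2 : (Fs H Z S φ ω).filter (fun u => H.Adj v u) ⊆
        (nbr H Z v).filter fun u => ((ω u).2 : ℕ) = 0 := by
      intro u hu
      rw [Finset.mem_filter, Fs, Finset.mem_filter] at hu
      exact Finset.mem_filter.2 ⟨Finset.mem_filter.2 ⟨hu.1.1, hu.2⟩, hu.1.2.1⟩
    exact_mod_cast Finset.card_le_card h2
  · intro v hv
    have h1 := (hω' v (hLZ hv)).2 hv
    rw [hE2] at h1
    simp only [not_lt] at h1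
    have h2 : a / 2 = a0 / 2 * D := by rw [ha]; ring
    rw [h2] at h1
    exact h1

end Pool.Agent.Helper32.Sq
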