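import Mathlib

/-!
# Closed sets and greedy colouring
-/

set_option autoImplicit false
set_option linter.unusedSectionVars false

namespace Pool.Agent.Helper32.Sq

variable {V : Type} [Fintype V] [DecidableEq V] (H : SimpleGraph V) [DecidableRel H.Adj]

/-- The number of neighbours of `v` in `A`. -/
def dg (A : Finset V) (v : V) : ℕ := (A.filter fun u => H.Adj v u).card

lemma dg_mono {A B : Finset V} (h : A ⊆ B) (v : V) : dg H A v ≤ dg H B v :=
  Finset.card_le_card (Finset.filter_subset_filter _ h)

lemma dg_union {A B : Finset V} (h : Disjoint A B) (v : V) :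
    dg H (A ∪ B) v = dg H A v + dg H B v := by
  unfold dg
  rw [Finset.filter_union, Finset.card_union_of_disjoint]
  exact Finset.disjoint_filter_filter h

lemma sum_dg_comm (A B : Finset V) : ∑ v ∈ A, dg H B v = ∑ u ∈ B, dg H A u := by
  unfold dg
  simp_rw [Finset.card_filter]
  rw [Finset.sum_comm]
  apply Finset.sum_congr rfl
  intro u _
  apply Finset.sum_congr rfl
  intro v _
  simp [H.adj_comm]

/-- The vertices of `Q \ S` with few neighbours in `S` and few neighbours with many neighbours
in `S`. -/
def IsLow (Q S : Finset V) (σ : ℝ) (D : ℕ) (v : V) : Prop :=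
  (dg H S v : ℝ) ≤ σ * D ∧
    (((Q \ S).filter fun u => H.Adj v u ∧ σ * D < dg H S u).card : ℝ) ≤ σ * D

theorem exists_closed (Q B : Finset V) (hB : B ⊆ Q) (D : ℕ) (hD : 0 < D) (a σ : ℝ) (ha : 1 ≤ a)
    (hσ : 0 < σ) (hσ1 : σ ≤ 1) (hdeg : ∀ v ∈ Q, v ∉ B → (dg H Q v : ℝ) ≤ a * D) :
    ∃ S, B ⊆ S ∧ S ⊆ Q ∧
      (σ ^ 2 / (6 * a) * D * S.card ≤
        ∑ v ∈ B, (dg H Q v : ℝ) + σ ^ 2 / (6 * a) * D * B.card) ∧
      ∀ C ⊆ Q \ S, C.Nonempty → (∀ v ∈ C, ¬ IsLow H Q S σ D v) →
        ∃ v ∈ C, σ ^ 2 / (6 * a) * D ≤ dg H (Q \ (S ∪ C)) v := by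
  classical
  have hD' : (0 : ℝ) < D := by exact_mod_cast hD
  set lam : ℝ := σ ^ 2 / (6 * a) with hlam
  have hlam0 : 0 < lam := by positivity
  have hlam6 : lam * (6 * a) = σ ^ 2 := by rw [hlam]; field_simp
  set Φ : Finset V → ℝ := fun S => ∑ v ∈ S, (dg H (Q \ S) v : ℝ) + lam * D * S.card with hΦ
  obtain ⟨S, hS, hmin⟩ := Finset.exists_min_image (Q.powerset.filter fun S => B ⊆ S) Φ
    ⟨B, by rw [Finset.mem_filter, Finset.mem_powerset]; exact ⟨hB, Finset.Subset.refl B⟩⟩
  rw [Finset.mem_filter, Finset.mem_powerset] at hS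
  obtain ⟨hSQ, hBS⟩ := hS
  refine ⟨S, hBS, hSQ, ?_, ?_⟩
  · have h1 := hmin B (by rw [Finset.mem_filter, Finset.mem_powerset]; exact ⟨hB, Finset.Subset.refl B⟩)
    have h2 : (0 : ℝ) ≤ ∑ v ∈ S, (dg H (Q \ S) v : ℝ) := Finset.sum_nonneg fun v _ => by positivity
    have h3 : ∑ v ∈ B, (dg H (Q \ B) v : ℝ) ≤ ∑ v ∈ B, (dg H Q v : ℝ) :=
      Finset.sum_le_sum fun v _ => by exact_mod_cast dg_mono H Finset.sdiff_subset v
    simp only [hΦ] at h1
    linarith
  · intro C hC hCne hlow
    by_contra hcon
    push Not at hcon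
    have hCS : Disjoint S C := by
      rw [Finset.disjoint_left]
      intro x hx hx'
      exact (Finset.mem_sdiff.1 (hC hx')).2 hx
    have hSC : S ∪ C ⊆ Q := Finset.union_subset hSQ (hC.trans Finset.sdiff_subset)
    set T := Q \ (S ∪ C) with hT
    have hTC : Disjoint C T := by
      rw [Finset.disjoint_left]
      intro x hx hx'
      exact (Finset.mem_sdiff.1 hx').2 (Finset.mem_union_right _ hx)
    have hQS : Q \ S = C ∪ T := by
      ext x
      simp only [hT, Finset.mem_sdiff, Finset.mem_union]
      constructor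
      · rintro ⟨h1, h2⟩
        by_cases h3 : x ∈ C
        · exact Or.inl h3
        · exact Or.inr ⟨h1, fun h => h.elim h2 h3⟩
      · rintro (h1 | ⟨h1, h2⟩)
        · exact Finset.mem_sdiff.1 (hC h1)
        · exact ⟨h1, fun h => h2 (Or.inl h)⟩
    have hm := hmin (S ∪ C) (by
      rw [Finset.mem_filter, Finset.mem_powerset]
      exact ⟨hSC, hBS.trans Finset.subset_union_left⟩)
    simp only [hΦ] at hm
    rw [Finset.sum_union hCS, hQS, ← hT, Finset.card_union_of_disjoint hCS] at hm
    have h1 : ∑ v ∈ S, (dg H (C ∪ T) v : ℝ) =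
        ∑ v ∈ S, (dg H C v : ℝ) + ∑ v ∈ S, (dg H T v : ℝ) := by
      rw [← Finset.sum_add_distrib]
      apply Finset.sum_congr rfl
      intro v _
      rw [dg_union H hTC]
      push_cast
      rfl
    rw [h1] at hm
    push_cast at hm
    have h2 : ∑ v ∈ C, (dg H T v : ℝ) < lam * D * C.card := by
      calc ∑ v ∈ C, (dg H T v : ℝ) < ∑ _v ∈ C, lam * D := Finset.sum_lt_sum_of_nonempty hCne hcon
        _ = lam * D * C.card := by rw [Finset.sum_const, nsmul_eq_mul]; ring
    have h3 : ∑ v ∈ S, (dg H C v : ℝ) = ∑ u ∈ C, (dg H S u : ℝ) := by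
      have := sum_dg_comm H S C
      exact_mod_cast this
    rw [h3] at hm
    -- the set of vertices of `C` with many neighbours in `S`
    set C1 := C.filter fun v => σ * D < dg H S v with hC1
    set C2 := C.filter fun v => ¬ σ * D < dg H S v with hC2
    have h4 : σ * D * C1.card ≤ ∑ u ∈ C, (dg H S u : ℝ) := by
      calc σ * D * C1.card = ∑ _u ∈ C1, σ * D := by
            rw [Finset.sum_const, nsmul_eq_mul]; ring
        _ ≤ ∑ u ∈ C1, (dg H S u : ℝ) := by
            apply Finset.sum_le_sum
            intro u hu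
            exact (Finset.mem_filter.1 hu).2.le
        _ ≤ _ := Finset.sum_le_sum_of_subset_of_nonneg (Finset.filter_subset _ _)
            fun _ _ _ => by positivity
    have hlamσ : lam ≤ σ / 2 := by
      rw [hlam, div_le_div_iff₀ (by positivity) (by norm_num)]
      nlinarith
    have h5 : ∀ v ∈ C2, σ / 2 * D ≤ dg H C1 v := by
      intro v hv
      rw [hC2, Finset.mem_filter] at hv
      have h6 := hlow v hv.1
      unfold IsLow at h6
      rw [not_and_or] at h6
      rcases h6 with h6 | h6
      · exact absurd (not_le.1 h6) hv.2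
      · push Not at h6
        have h7 : ((Q \ S).filter fun u => H.Adj v u ∧ σ * D < dg H S u) ⊆
            (C1.filter fun u => H.Adj v u) ∪ (T.filter fun u => H.Adj v u) := by
          intro u hu
          rw [Finset.mem_filter, hQS, Finset.mem_union] at hu
          obtain ⟨hu1, hu2, hu3⟩ := hu
          rcases hu1 with hu1 | hu1
          · exact Finset.mem_union_left _ (Finset.mem_filter.2 ⟨Finset.mem_filter.2 ⟨hu1, hu3⟩, hu2⟩)
          · exact Finset.mem_union_right _ (Finset.mem_filter.2 ⟨hu1, hu2⟩)
        have h8 := (Finset.card_le_card h7).trans (Finset.card_union_le _ _)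
        have h9 : (((Q \ S).filter fun u => H.Adj v u ∧ σ * D < dg H S u).card : ℝ) ≤
            (dg H C1 v : ℝ) + dg H T v := by
          unfold dg
          unfold dg at h8
          exact_mod_cast h8
        have h10 := hcon v hv.1
        nlinarith
    have h6 : σ / 2 * D * C2.card ≤ a * D * C1.card := by
      calc σ / 2 * D * C2.card = ∑ _v ∈ C2, σ / 2 * D := by
            rw [Finset.sum_const, nsmul_eq_mul]; ring
        _ ≤ ∑ v ∈ C2, (dg H C1 v : ℝ) := Finset.sum_le_sum h5
        _ = ∑ u ∈ C1, (dg H C2 u : ℝ) := by exact_mod_cast sum_dg_comm H C2 C1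
        _ ≤ ∑ _u ∈ C1, a * D := by
            apply Finset.sum_le_sum
            intro u hu
            have hu' := (Finset.mem_filter.1 hu).1
            have h7 := hC hu'
            rw [Finset.mem_sdiff] at h7
            have h8 := hdeg u h7.1 (fun h => h7.2 (hBS h))
            have h9 : dg H C2 u ≤ dg H Q u :=
              dg_mono H ((Finset.filter_subset _ _).trans (hC.trans Finset.sdiff_subset)) u
            have h9' : (dg H C2 u : ℝ) ≤ dg H Q u := by exact_mod_cast h9
            linarith
        _ = a * D * C1.card := by rw [Finset.sum_const, nsmul_eq_mul]; ring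
    have h7 : C1.card + C2.card = C.card := Finset.card_filter_add_card_filter_not _
    have h7' : (C1.card : ℝ) + C2.card = C.card := by exact_mod_cast h7
    -- `σ * |C| ≤ 3 a |C1|`
    have h8 : σ * C.card ≤ 3 * a * C1.card := by
      have h9 : σ / 2 * C2.card ≤ a * C1.card := by
        have h10 : (σ / 2 * C2.card) * D ≤ (a * C1.card) * D := by linarith
        exact le_of_mul_le_mul_right h10 hD'
      have h11 : σ * C1.card ≤ a * C1.card :=
        mul_le_mul_of_nonneg_right (by linarith) (by positivity)
      rw [← h7']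
      linarith
    have h9 : 2 * lam * D * C.card ≤ σ * D * C1.card := by
      have h10 : 6 * a * (2 * lam * C.card) ≤ 6 * a * (σ * C1.card) := by
        calc 6 * a * (2 * lam * C.card) = 2 * σ * (σ * C.card) := by
              rw [show 6 * a * (2 * lam * C.card) = 2 * (lam * (6 * a)) * C.card by ring, hlam6]
              ring
          _ ≤ 2 * σ * (3 * a * C1.card) := mul_le_mul_of_nonneg_left h8 (by positivity)
          _ = 6 * a * (σ * C1.card) := by ring
      have h11 : 2 * lam * C.card ≤ σ * C1.card := le_of_mul_le_mul_left h10 (by positivity)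
      have h12 := mul_le_mul_of_nonneg_right h11 hD'.le
      linarith
    linarith

/-! ### Greedy colouring -/

variable {H}

/-- `f` is a proper colouring of `A`. -/
def Proper (H : SimpleGraph V) {X : ℕ} (A : Finset V) (f : V → Fin X) : Prop :=
  ∀ x ∈ A, ∀ y ∈ A, H.Adj x y → f x ≠ f y

lemma Proper.mono {X : ℕ} {A B : Finset V} {f : V → Fin X} (h : Proper H B f) (hAB : A ⊆ B) :
    Proper H A f := fun x hx y hy => h x (hAB hx) y (hAB hy)

lemma Proper.extend {X : ℕ} {A : Finset V} {f : V → Fin X} (h : Proper H A f) (v : V)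
    (hv : v ∉ A) (hc : ((A.filter fun u => H.Adj v u).image f).card < X) :
    ∃ f' : V → Fin X, Proper H (insert v A) f' ∧ ∀ u ∈ A, f' u = f u := by
  have h1 : ∃ γ : Fin X, γ ∉ (A.filter fun u => H.Adj v u).image f := by
    by_contra hcon
    push Not at hcon
    have h2 : (Finset.univ : Finset (Fin X)) ⊆ (A.filter fun u => H.Adj v u).image f :=
      fun γ _ => hcon γ
    have h3 := Finset.card_le_card h2
    rw [Finset.card_univ, Fintype.card_fin] at h3
    omega
  obtain ⟨γ, hγ⟩ := h1
  have hγ' : ∀ u ∈ A, H.Adj v u → f u ≠ γ := by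
    intro u hu huv he
    exact hγ (Finset.mem_image.2 ⟨u, Finset.mem_filter.2 ⟨hu, huv⟩, he⟩)
  have hne : ∀ u ∈ A, u ≠ v := fun u hu he => hv (he ▸ hu)
  refine ⟨Function.update f v γ, ?_, fun u hu => Function.update_of_ne (hne u hu) _ _⟩
  intro x hx y hy hxy
  rw [Finset.mem_insert] at hx hy
  rcases hx with rfl | hx
  · rcases hy with rfl | hy
    · exact absurd hxy (H.irrefl)
    · rw [Function.update_self, Function.update_of_ne (hne y hy)]
      exact (hγ' y hy hxy).symm
  · rcases hy with rfl | hy
    · rw [Function.update_self, Function.update_of_ne (hne x hx)]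
      exact hγ' x hx hxy.symm
    · rw [Function.update_of_ne (hne x hx), Function.update_of_ne (hne y hy)]
      exact h x hx y hy hxy

/-- Extension to a set all of whose subsets have a vertex with many neighbours elsewhere. -/
lemma Proper.extend_peel {X : ℕ} {Q S F : Finset V} {f : V → Fin X} (hSQ : S ⊆ Q) (hFQ : F ⊆ Q)
    (h : Proper H (S ∪ F) f) (R : Finset V) (hRQ : R ⊆ Q)
    (hR : ∀ U ⊆ R, U.Nonempty → ∃ v ∈ U,
      dg H Q v + dg H F v < X + dg H (Q \ (S ∪ U)) v) :
    ∀ U ⊆ R, ∃ f' : V → Fin X, Proper H (S ∪ F ∪ U) f' ∧ ∀ u ∈ S ∪ F, f' u = f u := by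
  intro U
  induction U using Finset.strongInduction with
  | H U ih =>
    intro hUR
    rcases U.eq_empty_or_nonempty with hU | hU
    · subst hU
      exact ⟨f, by rwa [Finset.union_empty], fun u _ => rfl⟩
    · obtain ⟨v, hvU, hv⟩ := hR U hUR hU
      obtain ⟨f1, hf1, hf1'⟩ := ih (U.erase v) (Finset.erase_ssubset hvU)
        ((Finset.erase_subset _ _).trans hUR)
      by_cases hvA : v ∈ S ∪ F
      · refine ⟨f1, ?_, hf1'⟩
        apply hf1.mono
        intro x hx
        rw [Finset.mem_union] at hx
        rcases hx with hx | hx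
        · exact Finset.mem_union_left _ hx
        · by_cases hxv : x = v
          · subst hxv; exact Finset.mem_union_left _ hvA
          · exact Finset.mem_union_right _ (Finset.mem_erase.2 ⟨hxv, hx⟩)
      · have hvA' : v ∉ S ∪ F ∪ U.erase v := by
          rw [Finset.mem_union, not_or]
          exact ⟨hvA, Finset.notMem_erase v U⟩
        have hcard : (((S ∪ F ∪ U.erase v).filter fun u => H.Adj v u).image f1).card < X := by
          refine lt_of_le_of_lt Finset.card_image_le ?_
          have h1 : ((S ∪ F ∪ U.erase v).filter fun u => H.Adj v u) ∪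
              ((Q \ (S ∪ U)).filter fun u => H.Adj v u) ⊆ Q.filter fun u => H.Adj v u := by
            intro u hu
            rw [Finset.mem_union, Finset.mem_filter, Finset.mem_filter] at hu
            rw [Finset.mem_filter]
            rcases hu with ⟨hu, hu'⟩ | ⟨hu, hu'⟩
            · refine ⟨?_, hu'⟩
              rw [Finset.mem_union, Finset.mem_union] at hu
              rcases hu with (hu | hu) | hu
              · exact hSQ hu
              · exact hFQ hu
              · exact hRQ (hUR (Finset.mem_of_mem_erase hu))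
            · exact ⟨(Finset.mem_sdiff.1 hu).1, hu'⟩
          have h2 : ((S ∪ F ∪ U.erase v).filter fun u => H.Adj v u) ∩
              ((Q \ (S ∪ U)).filter fun u => H.Adj v u) ⊆ F.filter fun u => H.Adj v u := by
            intro u hu
            rw [Finset.mem_inter, Finset.mem_filter, Finset.mem_filter] at hu
            obtain ⟨⟨hu1, hu2⟩, hu3, -⟩ := hu
            rw [Finset.mem_sdiff, Finset.mem_union, not_or] at hu3
            rw [Finset.mem_filter]
            refine ⟨?_, hu2⟩
            rw [Finset.mem_union, Finset.mem_union] at hu1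
            rcases hu1 with (hu1 | hu1) | hu1
            · exact absurd hu1 hu3.2.1
            · exact hu1
            · exact absurd (Finset.mem_of_mem_erase hu1) hu3.2.2
          have h3 := Finset.card_union_add_card_inter
            ((S ∪ F ∪ U.erase v).filter fun u => H.Adj v u)
            ((Q \ (S ∪ U)).filter fun u => H.Adj v u)
          have h4 := Finset.card_le_card h1
          have h5 := Finset.card_le_card h2
          unfold dg at hv
          omega
        obtain ⟨f2, hf2, hf2'⟩ := hf1.extend v hvA' hcard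
        refine ⟨f2, ?_, ?_⟩
        · apply hf2.mono
          intro x hx
          rw [Finset.mem_insert]
          by_cases hxv : x = v
          · exact Or.inl hxv
          · refine Or.inr ?_
            rw [Finset.mem_union] at hx ⊢
            rcases hx with hx | hx
            · exact Or.inl hx
            · exact Or.inr (Finset.mem_erase.2 ⟨hxv, hx⟩)
        · intro u hu
          rw [hf2' u (Finset.mem_union_left _ hu), hf1' u hu]

/-- Extension to vertices seeing repeated colours. -/
lemma Proper.extend_low {X : ℕ} {Q F : Finset V} {f : V → Fin X} (g : V → Fin X) (hFQ : F ⊆ Q)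
    {A : Finset V} (hA : A ⊆ Q) (hFA : F ⊆ A) (h : Proper H A f) (hfg : ∀ u ∈ F, f u = g u)
    (L : Finset V) (hLQ : L ⊆ Q)
    (hL : ∀ v ∈ L, dg H Q v + ((F.filter fun u => H.Adj v u).image g).card <
      X + dg H F v) :
    ∃ f' : V → Fin X, Proper H (A ∪ L) f' := by
  suffices hs : ∀ L' ⊆ L, ∃ f' : V → Fin X, Proper H (A ∪ L') f' ∧ ∀ u ∈ F, f' u = g u by
    obtain ⟨f', h1, -⟩ := hs L (Finset.Subset.refl L)
    exact ⟨f', h1⟩
  intro L'
  induction L' using Finset.induction_on with
  | empty => intro _; exact ⟨f, by rwa [Finset.union_empty], hfg⟩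
  | insert v L' hv ih =>
    intro hsub
    obtain ⟨f1, hf1, hf1'⟩ := ih ((Finset.subset_insert _ _).trans hsub)
    have hvL : v ∈ L := hsub (Finset.mem_insert_self _ _)
    by_cases hvA : v ∈ A ∪ L'
    · refine ⟨f1, ?_, hf1'⟩
      apply hf1.mono
      intro x hx
      rw [Finset.mem_union, Finset.mem_insert] at hx
      rcases hx with hx | rfl | hx
      · exact Finset.mem_union_left _ hx
      · exact hvA
      · exact Finset.mem_union_right _ hx
    · have hcard : (((A ∪ L').filter fun u => H.Adj v u).image f1).card < X := by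
        have hAL : A ∪ L' ⊆ Q :=
          Finset.union_subset hA (((Finset.subset_insert _ _).trans hsub).trans hLQ)
        have h1 : ((A ∪ L').filter fun u => H.Adj v u).image f1 ⊆
            ((F.filter fun u => H.Adj v u).image g) ∪
            (((A ∪ L') \ F).filter fun u => H.Adj v u).image f1 := by
          intro γ hγ
          rw [Finset.mem_image] at hγ
          obtain ⟨u, hu, rfl⟩ := hγ
          rw [Finset.mem_filter] at hu
          rw [Finset.mem_union, Finset.mem_image, Finset.mem_image]
          by_cases huF : u ∈ F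
          · exact Or.inl ⟨u, Finset.mem_filter.2 ⟨huF, hu.2⟩, (hf1' u huF).symm⟩
          · exact Or.inr ⟨u, Finset.mem_filter.2 ⟨Finset.mem_sdiff.2 ⟨hu.1, huF⟩, hu.2⟩, rfl⟩
        have h2 := (Finset.card_le_card h1).trans (Finset.card_union_le _ _)
        have h3 : ((((A ∪ L') \ F).filter fun u => H.Adj v u).image f1).card + dg H F v ≤
            dg H Q v := by
          have h4 : dg H ((A ∪ L') \ F ∪ F) v = dg H ((A ∪ L') \ F) v + dg H F v :=
            dg_union H Finset.sdiff_disjoint v
          have h5 : (A ∪ L') \ F ∪ F ⊆ Q :=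
            Finset.union_subset (Finset.sdiff_subset.trans hAL) hFQ
          have h6 := dg_mono H h5 v
          have h7 : ((((A ∪ L') \ F).filter fun u => H.Adj v u).image f1).card ≤
            dg H ((A ∪ L') \ F) v := Finset.card_image_le
          omega
        have h4 := hL v hvL
        omega
      obtain ⟨f2, hf2, hf2'⟩ := hf1.extend v hvA hcard
      refine ⟨f2, ?_, ?_⟩
      · apply hf2.mono
        intro x hx
        rw [Finset.mem_union, Finset.mem_insert] at hx
        rw [Finset.mem_insert, Finset.mem_union]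
        rcases hx with hx | rfl | hx
        · exact Or.inr (Or.inl hx)
        · exact Or.inl rfl
        · exact Or.inr (Or.inr hx)
      · intro u hu
        rw [hf2' u (Finset.mem_union_left _ (hFA hu)), hf1' u hu]

end Pool.Agent.Helper32.Sq
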