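import Pool.Agent.Helper32.Sq.RL
import Pool.Agent.Helper32.Sq.Closure
import Pool.Agent.Helper32.Sq.Part

/-!
# The main argument
-/

set_option autoImplicit false
set_option linter.unusedSectionVars false

namespace Pool.Agent.Helper32.Sq

variable {V : Type} [Fintype V] [DecidableEq V]

/-- The vertices of `Q` having `v` as an ancestor. -/
noncomputable def desc (out : V → Finset V) (Q : Finset V) (v : V) : ℕ :=
  (Q.filter fun u => v ∈ Anc out u).card

lemma Ori.sum_desc {k D : ℕ} {out : V → Finset V} (O : Ori k D out) (Q : Finset V) :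
    ∑ v ∈ Q, desc out Q v ≤ (k + k ^ 2) * Q.card := by
  unfold desc
  simp_rw [Finset.card_filter]
  rw [Finset.sum_comm]
  calc ∑ u ∈ Q, ∑ v ∈ Q, (if v ∈ Anc out u then 1 else 0)
      ≤ ∑ _u ∈ Q, (k + k ^ 2) := by
        apply Finset.sum_le_sum
        intro u _
        rw [← Finset.card_filter]
        refine le_trans (Finset.card_le_card ?_) (O.card_anc u)
        intro v hv
        exact (Finset.mem_filter.1 hv).2
    _ = (k + k ^ 2) * Q.card := by rw [Finset.sum_const, smul_eq_mul, mul_comm]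

lemma Ori.dg_le {k D : ℕ} {out : V → Finset V} (O : Ori k D out) (H : SimpleGraph V)
    [DecidableRel H.Adj] (hH : ∀ x y, H.Adj x y → Rel out x y) (Q : Finset V) (v : V) :
    dg H Q v ≤ k * D + D * (k - 1) + (k + k ^ 2) + desc out Q v := by
  classical
  have hsub : (Q.filter fun u => H.Adj v u) ⊆
      (Q.filter fun y => ∃ h ∈ out v, h ∈ out y) ∪
      (Q.filter fun y => v ≠ y ∧ ∃ w, v ∈ out w ∧ y ∈ out w) ∪ Anc out v ∪
      (Q.filter fun u => v ∈ Anc out u) := by
    intro u hu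
    rw [Finset.mem_filter] at hu
    obtain ⟨huQ, huv⟩ := hu
    have hne : v ≠ u := H.ne_of_adj huv
    rcases hH v u huv with h | h | h | h
    · exact Finset.mem_union_left _ (Finset.mem_union_right _ h)
    · exact Finset.mem_union_right _ (Finset.mem_filter.2 ⟨huQ, h⟩)
    · exact Finset.mem_union_left _ (Finset.mem_union_left _ (Finset.mem_union_left _
        (Finset.mem_filter.2 ⟨huQ, h⟩)))
    · exact Finset.mem_union_left _ (Finset.mem_union_left _ (Finset.mem_union_right _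
        (Finset.mem_filter.2 ⟨huQ, hne, h⟩)))
  have h1 := O.card_c Q v
  have h2 := O.card_d Q v
  have h3 := O.card_anc v
  unfold dg desc
  refine (Finset.card_le_card hsub).trans ?_
  refine (Finset.card_union_le _ _).trans (Nat.add_le_add_right ?_ _)
  refine (Finset.card_union_le _ _).trans (add_le_add ?_ h3)
  exact (Finset.card_union_le _ _).trans (add_le_add h1 h2)

/-- Existence of a minimal set that is not properly colourable. -/
lemma exists_critical (H : SimpleGraph V) [DecidableRel H.Adj] {X : ℕ}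
    (hX : ¬ ∃ f : V → Fin X, Proper H Finset.univ f) :
    ∃ Q : Finset V, (¬ ∃ f : V → Fin X, Proper H Q f) ∧
      (∀ S, S ⊂ Q → ∃ f : V → Fin X, Proper H S f) ∧
      ((∃ _f : V → Fin X, True) → Q.Nonempty) ∧
      ∀ v ∈ Q, X ≤ dg H Q v := by
  classical
  obtain ⟨Q, hQ, hmin⟩ := Finset.exists_min_image
    ((Finset.univ : Finset (Finset V)).filter fun Q => ¬ ∃ f : V → Fin X, Proper H Q f)
    Finset.card ⟨Finset.univ, Finset.mem_filter.2 ⟨Finset.mem_univ _, hX⟩⟩
  rw [Finset.mem_filter] at hQ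
  have hsub : ∀ S, S ⊂ Q → ∃ f : V → Fin X, Proper H S f := by
    intro S hS
    by_contra hcon
    have := hmin S (Finset.mem_filter.2 ⟨Finset.mem_univ _, hcon⟩)
    have h2 := Finset.card_lt_card hS
    omega
  refine ⟨Q, hQ.2, hsub, ?_, ?_⟩
  · rintro ⟨f, -⟩
    rw [Finset.nonempty_iff_ne_empty]
    intro he
    apply hQ.2
    refine ⟨f, ?_⟩
    intro x hx
    rw [he] at hx
    exact absurd hx (Finset.notMem_empty x)
  · intro v hv
    by_contra hcon
    push Not at hcon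
    obtain ⟨f, hf⟩ := hsub (Q.erase v) (Finset.erase_ssubset hv)
    obtain ⟨f', hf', -⟩ := hf.extend v (Finset.notMem_erase v Q) (by
      refine lt_of_le_of_lt Finset.card_image_le (lt_of_le_of_lt ?_ hcon)
      exact dg_mono H (Finset.erase_subset v Q) v)
    rw [Finset.insert_erase hv] at hf'
    exact hQ.2 ⟨f', hf'⟩

/-- Counting pairs with an entry in a small set. -/
lemma card_pairs_fst (W P : Finset V) (T : Finset (V × V)) (hT : T ⊆ W ×ˢ W)
    (hP : ∀ p ∈ T, p.1 ∈ P ∨ p.2 ∈ P) : T.card ≤ 2 * (P.card * W.card) := by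
  have h1 : T ⊆ P ×ˢ W ∪ W ×ˢ P := by
    intro p hp
    have h2 := hT hp
    rw [Finset.mem_product] at h2
    rw [Finset.mem_union, Finset.mem_product, Finset.mem_product]
    rcases hP p hp with h3 | h3
    · exact Or.inl ⟨h3, h2.2⟩
    · exact Or.inr ⟨h2.1, h3⟩
  refine (Finset.card_le_card h1).trans ((Finset.card_union_le _ _).trans ?_)
  rw [Finset.card_product, Finset.card_product]
  have : W.card * P.card = P.card * W.card := Nat.mul_comm _ _
  omega

/-- Low vertices see many fine pairs. -/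
lemma fine_pairs {k D : ℕ} {out : V → Finset V} (O : Ori k D out) (hk : 2 ≤ k) (hD : 0 < D)
    (hD1 : 2 * (1 + 2 * k + 2 * k ^ 2 : ℝ) ≤ c0 k * D) (H : SimpleGraph V) [DecidableRel H.Adj]
    (hH : ∀ x y, H.Adj x y → Rel out x y) (Q S : Finset V) (X : ℕ) (hX : D ≤ X)
    (v : V) (h1 : (2 * k - 1 - c0 k / 4) * D ≤ dg H Q v) (h2 : (dg H Q v : ℝ) ≤ 2 * k * D)
    (hv : IsLow H Q S (c0 k / (64 * k)) D v) :
    c0 k / 8 * (D : ℝ) ^ 2 ≤ ((((Q \ S) ×ˢ (Q \ S)).filter fun p : V × V =>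
          p.1 ≠ p.2 ∧ H.Adj v p.1 ∧ H.Adj v p.2 ∧ ¬ H.Adj p.1 p.2 ∧
          4 * (S.filter fun s => H.Adj p.1 s).card ≤ X ∧
          4 * (S.filter fun s => H.Adj p.2 s).card ≤ X).card : ℝ) := by
  classical
  have hD' : (0 : ℝ) < D := by exact_mod_cast hD
  have hk' : (2 : ℝ) ≤ k := by exact_mod_cast hk
  have hc := c0_pos k
  have hc' := c0_le k
  set σ : ℝ := c0 k / (64 * k) with hσ
  have hσk : σ * (64 * k) = c0 k := by rw [hσ]; field_simp
  have hσ0 : 0 < σ := by positivity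
  have hσ1 : 4 * σ ≤ 1 := by nlinarith
  set W := Q.filter fun u => H.Adj v u with hW
  have hWc : W.card = dg H Q v := rfl
  have h3 := O.nonadj hk hD hD1 W (by rw [hWc]; exact h1) (by
    rw [hWc]
    exact_mod_cast h2)
  set N := (W ×ˢ W).filter fun p : V × V => p.1 ≠ p.2 ∧ ¬ Rel out p.1 p.2 with hN
  set P1 := S.filter fun u => H.Adj v u with hP1
  set P2 := (Q \ S).filter fun u => H.Adj v u ∧ σ * D < dg H S u with hP2
  set F := (((Q \ S) ×ˢ (Q \ S)).filter fun p : V × V =>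
          p.1 ≠ p.2 ∧ H.Adj v p.1 ∧ H.Adj v p.2 ∧ ¬ H.Adj p.1 p.2 ∧
          4 * (S.filter fun s => H.Adj p.1 s).card ≤ X ∧
          4 * (S.filter fun s => H.Adj p.2 s).card ≤ X) with hF
  have h4 : N \ F ⊆ N := Finset.sdiff_subset
  have hgood : ∀ u ∈ W, u ∉ P1 ∪ P2 → u ∈ Q \ S ∧ 4 * (S.filter fun s => H.Adj u s).card ≤ X := by
    intro u hu hu'
    rw [hW, Finset.mem_filter] at hu
    rw [Finset.mem_union, not_or] at hu'
    have hS : u ∉ S := fun h => hu'.1 (Finset.mem_filter.2 ⟨h, hu.2⟩)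
    have hQS : u ∈ Q \ S := Finset.mem_sdiff.2 ⟨hu.1, hS⟩
    refine ⟨hQS, ?_⟩
    have h5 : ¬ σ * D < dg H S u := fun h => hu'.2 (Finset.mem_filter.2 ⟨hQS, hu.2, h⟩)
    have h6 : (4 : ℝ) * (dg H S u : ℝ) ≤ X := by
      have h7 : (D : ℝ) ≤ X := by exact_mod_cast hX
      have h8 : 4 * σ * D ≤ D := by nlinarith
      push Not at h5
      linarith
    unfold dg at h6
    exact_mod_cast h6
  have h5 : (N \ F).card ≤ 2 * ((P1 ∪ P2).card * W.card) := by
    apply card_pairs_fst W (P1 ∪ P2) (N \ F) (h4.trans (Finset.filter_subset _ _))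
    intro p hp
    by_contra hcon
    rw [not_or] at hcon
    rw [Finset.mem_sdiff] at hp
    obtain ⟨hpN, hpF⟩ := hp
    rw [hN, Finset.mem_filter, Finset.mem_product] at hpN
    obtain ⟨⟨hp1, hp2⟩, hne, hrel⟩ := hpN
    have g1 := hgood _ hp1 hcon.1
    have g2 := hgood _ hp2 hcon.2
    apply hpF
    rw [hF, Finset.mem_filter, Finset.mem_product]
    exact ⟨⟨g1.1, g2.1⟩, hne, (Finset.mem_filter.1 hp1).2, (Finset.mem_filter.1 hp2).2,
      fun h => hrel (hH _ _ h), g1.2, g2.2⟩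
  have h6 : N.card ≤ F.card + (N \ F).card := by
    have h7 : N ⊆ F ∪ (N \ F) := by
      intro p hp
      by_cases hpF : p ∈ F
      · exact Finset.mem_union_left _ hpF
      · exact Finset.mem_union_right _ (Finset.mem_sdiff.2 ⟨hp, hpF⟩)
    exact (Finset.card_le_card h7).trans (Finset.card_union_le _ _)
  have h7 : ((P1 ∪ P2).card : ℝ) ≤ 2 * σ * D := by
    have h8 : (P1 ∪ P2).card ≤ P1.card + P2.card := Finset.card_union_le _ _
    have h8' : ((P1 ∪ P2).card : ℝ) ≤ P1.card + P2.card := by exact_mod_cast h8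
    have h9 : (P1.card : ℝ) ≤ σ * D := hv.1
    have h10 : (P2.card : ℝ) ≤ σ * D := hv.2
    linarith
  have h8 : (W.card : ℝ) ≤ 2 * k * D := by rw [hWc]; exact h2
  have h9 : ((N \ F).card : ℝ) ≤ c0 k / 8 * (D : ℝ) ^ 2 := by
    calc ((N \ F).card : ℝ) ≤ 2 * (((P1 ∪ P2).card : ℝ) * (W.card : ℝ)) := by exact_mod_cast h5
      _ ≤ 2 * ((2 * σ * D) * (2 * k * D)) := by
          apply mul_le_mul_of_nonneg_left _ (by norm_num)
          exact mul_le_mul h7 h8 (by positivity) (by positivity)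
      _ = (σ * (64 * k)) / 8 * (D : ℝ) ^ 2 := by ring
      _ = c0 k / 8 * (D : ℝ) ^ 2 := by rw [hσk]
  have h10 : (N.card : ℝ) ≤ F.card + (N \ F).card := by exact_mod_cast h6
  linarith

open Filter in
lemma eventually_const_lt (c : ℝ) (hc : 0 < c) (x : ℝ) : ∀ᶠ D : ℕ in atTop, x < c * D :=
  (tendsto_natCast_atTop_atTop.const_mul_atTop hc).eventually_gt_atTop x

set_option maxHeartbeats 4000000 in
open Filter in
/-- The main theorem, in terms of orientations. -/
theorem main_orientation (k : ℕ) (hk : 2 ≤ k) : ∃ ε : ℝ, 0 < ε ∧ ∃ D0 : ℕ, ∀ D : ℕ, D0 ≤ D →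
    ∀ (V : Type) [Fintype V] [DecidableEq V] (out : V → Finset V) (H : SimpleGraph V),
      Ori k D out → (∀ x y, H.Adj x y → Rel out x y) →
      ∃ X : ℕ, (X : ℝ) ≤ (2 * k - 1 - ε) * D ∧ ∃ f : V → Fin X, Proper H Finset.univ f := by
  classical
  have hk' : (2 : ℝ) ≤ k := by exact_mod_cast hk
  have hc := c0_pos k
  have hc' := c0_le k
  set κ : ℝ := (k : ℝ) with hκ
  set σ : ℝ := c0 k / (64 * κ) with hσ
  have hσ0 : 0 < σ := by positivity
  have hσk : σ * (64 * κ) = c0 k := by rw [hσ]; field_simp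
  have hσ1 : σ ≤ 1 := by nlinarith
  set lam : ℝ := σ ^ 2 / (6 * (2 * κ)) with hlam
  have hlam0 : 0 < lam := by positivity
  obtain ⟨μ, hμ, D1, hpart⟩ := exists_partial (2 * κ) (c0 k / 8) (lam / 2) (by linarith)
    (by positivity) (by positivity)
  set ε : ℝ := min (min (μ / 4) (lam / 8)) (c0 k / 8) with hε
  have hε0 : 0 < ε := by positivity
  have hε1 : ε ≤ μ / 4 := (min_le_left _ _).trans (min_le_left _ _)
  have hε2 : ε ≤ lam / 8 := (min_le_left _ _).trans (min_le_right _ _)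
  have hε3 : ε ≤ c0 k / 8 := min_le_right _ _
  set A : ℝ := κ + κ ^ 2 with hA
  have hA0 : 0 < A := by positivity
  set C1 : ℝ := (2 * κ - 1) * (A / ε) + 2 * A + lam * (A / ε) with hC1
  refine ⟨ε, hε0, ?_⟩
  have hev : ∀ᶠ D : ℕ in atTop, D1 ≤ D ∧ 0 < D ∧
      2 * (1 + 2 * κ + 2 * κ ^ 2) < c0 k * D ∧ A < 1 / 2 * D ∧ 1 < c0 k / 8 * D ∧
      A + 1 < lam / 4 * D ∧ A + 1 < μ / 2 * D ∧ C1 < lam * D := by
    filter_upwards [eventually_ge_atTop D1, eventually_gt_atTop 0,
      eventually_const_lt (c0 k) hc (2 * (1 + 2 * κ + 2 * κ ^ 2)),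
      eventually_const_lt (1 / 2) (by norm_num) A, eventually_const_lt (c0 k / 8) (by positivity) 1,
      eventually_const_lt (lam / 4) (by positivity) (A + 1),
      eventually_const_lt (μ / 2) (by positivity) (A + 1),
      eventually_const_lt lam hlam0 C1] with D h1 h2 h3 h4 h5 h6 h7 h8
    exact ⟨h1, h2, h3, h4, h5, h6, h7, h8⟩
  obtain ⟨D0, hD0⟩ := eventually_atTop.1 hev
  refine ⟨D0, fun D hD V _ _ out H O hH => ?_⟩
  obtain ⟨hD1, hDpos, e1, e2, e3, e4, e5, e6⟩ := hD0 D hD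
  have hD' : (0 : ℝ) < D := by exact_mod_cast hDpos
  have hε4 : ε ≤ 1 / 32 := by linarith
  have hpos : 0 ≤ (2 * κ - 1 - ε) * D := mul_nonneg (by linarith) hD'.le
  set X : ℕ := ⌊(2 * κ - 1 - ε) * D⌋₊ with hX
  have hX1 : (X : ℝ) ≤ (2 * κ - 1 - ε) * D := Nat.floor_le hpos
  have hX2 : (2 * κ - 1 - ε) * D < X + 1 := Nat.lt_floor_add_one _
  have hXD : (D : ℝ) ≤ X := by
    have h1 : 1 * (D : ℝ) ≤ (κ - 1 - ε) * D + 1 / 32 * D := by
      rw [← add_mul]
      apply mul_le_mul_of_nonneg_right _ hD'.le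
      linarith
    nlinarith
  have hXD' : D ≤ X := by exact_mod_cast hXD
  have hX3 : (X : ℝ) ≤ 2 * κ * D := by nlinarith
  have hXpos : 0 < X := lt_of_lt_of_le hDpos hXD'
  refine ⟨X, hX1, ?_⟩
  by_contra hcon
  obtain ⟨Q, hQ, hQsub, hQne, hQdeg⟩ := exists_critical H hcon
  have hQne' : Q.Nonempty := hQne ⟨fun _ => ⟨0, hXpos⟩, trivial⟩
  have hn : (0 : ℝ) < Q.card := by exact_mod_cast hQne'.card_pos
  set B := Q.filter fun v => ε * D < desc out Q v with hB
  have hBQ : B ⊆ Q := Finset.filter_subset _ _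
  have hdesc : ∑ v ∈ Q, (desc out Q v : ℝ) ≤ A * Q.card := by
    have := O.sum_desc Q
    have h2 : ((∑ v ∈ Q, desc out Q v : ℕ) : ℝ) ≤ (((k + k ^ 2) * Q.card : ℕ) : ℝ) := by
      exact_mod_cast this
    push_cast at h2
    exact h2
  have hdescB : ∑ v ∈ B, (desc out Q v : ℝ) ≤ A * Q.card :=
    (Finset.sum_le_sum_of_subset_of_nonneg hBQ fun _ _ _ => by positivity).trans hdesc
  have hBcard : ε * D * B.card ≤ A * Q.card := by
    calc ε * D * B.card = ∑ _v ∈ B, ε * D := by rw [Finset.sum_const, nsmul_eq_mul]; ring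
      _ ≤ ∑ v ∈ B, (desc out Q v : ℝ) := Finset.sum_le_sum fun v hv =>
          (Finset.mem_filter.1 hv).2.le
      _ ≤ _ := hdescB
  have hdg : ∀ v, (dg H Q v : ℝ) ≤ (2 * κ - 1) * D + A + desc out Q v := by
    intro v
    have h1 := O.dg_le H hH Q v
    have h2 : (dg H Q v : ℝ) ≤ ((k * D + D * (k - 1) + (k + k ^ 2) + desc out Q v : ℕ) : ℝ) := by
      exact_mod_cast h1
    rw [Nat.cast_add, Nat.cast_add, Nat.cast_add, Nat.cast_mul, Nat.cast_mul,
      Nat.cast_sub (by omega)] at h2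
    push_cast at h2
    have h3 : κ * D + D * (κ - 1) + (κ + κ ^ 2) + (desc out Q v : ℝ) =
      (2 * κ - 1) * D + A + desc out Q v := by rw [hA]; ring
    linarith
  have hdg1 : ∀ v ∈ Q, v ∉ B → (dg H Q v : ℝ) ≤ (2 * κ - 1) * D + A + ε * D := by
    intro v hv hvB
    have h1 : ¬ ε * D < desc out Q v := fun h => hvB (Finset.mem_filter.2 ⟨hv, h⟩)
    have := hdg v
    linarith
  have hdg2 : ∀ v ∈ Q, v ∉ B → (dg H Q v : ℝ) ≤ 2 * κ * D := by
    intro v hv hvB
    have := hdg1 v hv hvB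
    nlinarith
  obtain ⟨S, hBS, hSQ, hSb, hpeel⟩ := exists_closed H Q B hBQ D hDpos (2 * κ) σ (by linarith)
    hσ0 hσ1 hdg2
  rw [← hlam] at hSb hpeel
  have hSne : S ≠ Q := by
    intro he
    rw [he] at hSb
    have h1 : ∑ v ∈ B, (dg H Q v : ℝ) ≤ ((2 * κ - 1) * D + A) * B.card + A * Q.card := by
      calc ∑ v ∈ B, (dg H Q v : ℝ) ≤ ∑ v ∈ B, ((2 * κ - 1) * D + A + (desc out Q v : ℝ)) :=
            Finset.sum_le_sum fun v _ => hdg v
        _ = ((2 * κ - 1) * D + A) * B.card + ∑ v ∈ B, (desc out Q v : ℝ) := by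
            rw [Finset.sum_add_distrib, Finset.sum_const, nsmul_eq_mul]; ring
        _ ≤ _ := by linarith
    have h2 : D * (B.card : ℝ) ≤ A / ε * Q.card := by
      have h3 : ε * (D * (B.card : ℝ)) ≤ ε * (A / ε * Q.card) := by
        calc ε * (D * (B.card : ℝ)) = ε * D * B.card := by ring
          _ ≤ A * Q.card := hBcard
          _ = ε * (A / ε * Q.card) := by field_simp
      exact le_of_mul_le_mul_left h3 hε0
    have h4 : (B.card : ℝ) ≤ Q.card := by exact_mod_cast Finset.card_le_card hBQ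
    have h5 : lam * D * Q.card ≤ C1 * Q.card := by
      calc lam * D * Q.card ≤ ∑ v ∈ B, (dg H Q v : ℝ) + lam * D * B.card := hSb
        _ ≤ ((2 * κ - 1) * D + A) * B.card + A * Q.card + lam * D * B.card := by linarith
        _ = (2 * κ - 1) * (D * B.card) + A * B.card + A * Q.card + lam * (D * B.card) := by ring
        _ ≤ (2 * κ - 1) * (A / ε * Q.card) + A * Q.card + A * Q.card +
            lam * (A / ε * Q.card) := by
            have g1 := mul_le_mul_of_nonneg_left h2 (show 0 ≤ 2 * κ - 1 by linarith)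
            have g2 := mul_le_mul_of_nonneg_left h2 hlam0.le
            have g3 := mul_le_mul_of_nonneg_left h4 hA0.le
            linarith
        _ = C1 * Q.card := by rw [hC1]; ring
    have h6 := le_of_mul_le_mul_right h5 hn
    linarith
  obtain ⟨φ, hφ⟩ := hQsub S (Finset.ssubset_iff_subset_ne.2 ⟨hSQ, hSne⟩)
  set Z := Q \ S with hZ
  have hZB : ∀ v ∈ Z, v ∈ Q ∧ v ∉ B := by
    intro v hv
    rw [hZ, Finset.mem_sdiff] at hv
    exact ⟨hv.1, fun h => hv.2 (hBS h)⟩
  set Low := Z.filter fun v => IsLow H Q S σ D v with hLow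
  obtain ⟨F, f, hFZ, hf1, hf2, hf3, hf4⟩ := hpart D hD1 X hXD' hX3 V H S Z Low φ
    (by rw [hZ]; exact Finset.disjoint_sdiff) (Finset.filter_subset _ _)
    (by
      intro v hv
      obtain ⟨hvQ, hvB⟩ := hZB v hv
      have h1 := hdg2 v hvQ hvB
      have h2 : dg H Z v ≤ dg H Q v := dg_mono H Finset.sdiff_subset v
      have h2' : (dg H Z v : ℝ) ≤ dg H Q v := by exact_mod_cast h2
      unfold dg at h2' h1
      linarith)
    (by
      intro v hv
      rw [hLow, Finset.mem_filter] at hv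
      obtain ⟨hvQ, hvB⟩ := hZB v hv.1
      have h1 := hdg2 v hvQ hvB
      have h2 := hQdeg v hvQ
      have h2' : (X : ℝ) ≤ dg H Q v := by exact_mod_cast h2
      refine fine_pairs O hk hDpos e1.le H hH Q S X hXD' v ?_ h1 hv.2
      nlinarith)
  have hFQ : F ⊆ Q := hFZ.trans Finset.sdiff_subset
  have hFS : ∀ u ∈ F, u ∉ S := fun u hu => (Finset.mem_sdiff.1 (hFZ hu)).2
  set g : V → Fin X := fun u => if u ∈ S then φ u else f u with hg
  have hgS : ∀ u ∈ S, g u = φ u := fun u hu => by simp [hg, hu]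
  have hgF : ∀ u ∈ F, g u = f u := fun u hu => by simp [hg, hFS u hu]
  have hgP : Proper H (S ∪ F) g := by
    intro x hx y hy hxy
    rw [Finset.mem_union] at hx hy
    rcases hx with hx | hx
    · rcases hy with hy | hy
      · rw [hgS x hx, hgS y hy]
        exact hφ x hx y hy hxy
      · rw [hgS x hx, hgF y hy]
        exact (hf2 y hy x hx hxy.symm).symm
    · rcases hy with hy | hy
      · rw [hgF x hx, hgS y hy]
        exact hf2 x hx y hy hxy
      · rw [hgF x hx, hgF y hy]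
        exact hf1 x hx y hy hxy
  set R := Z.filter fun v => ¬ IsLow H Q S σ D v with hR
  have hRQ : R ⊆ Q := (Finset.filter_subset _ _).trans Finset.sdiff_subset
  obtain ⟨f1, hf1P, hf1g⟩ := hgP.extend_peel hSQ hFQ R hRQ (by
    intro U hUR hU
    obtain ⟨v, hvU, hv⟩ := hpeel U (hUR.trans (Finset.filter_subset _ _)) hU
      (fun u hu => (Finset.mem_filter.1 (hUR hu)).2)
    refine ⟨v, hvU, ?_⟩
    have hvZ : v ∈ Z := (Finset.mem_filter.1 (hUR hvU)).1
    obtain ⟨hvQ, hvB⟩ := hZB v hvZ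
    have h1 := hdg1 v hvQ hvB
    have h2 : (dg H F v : ℝ) ≤ lam / 2 * D := hf3 v hvZ
    have h3 : (dg H Q v : ℝ) + dg H F v < X + dg H (Q \ (S ∪ U)) v := by nlinarith
    exact_mod_cast h3) R (Finset.Subset.refl R)
  obtain ⟨f2, hf2P⟩ := Proper.extend_low (Q := Q) (F := F) f hFQ (A := S ∪ F ∪ R)
    (Finset.union_subset (Finset.union_subset hSQ hFQ) hRQ)
    (Finset.subset_union_right.trans Finset.subset_union_left) hf1P
    (fun u hu => by rw [hf1g u (Finset.mem_union_right _ hu), hgF u hu]) Low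
    ((Finset.filter_subset _ _).trans Finset.sdiff_subset) (by
      intro v hv
      obtain ⟨hvQ, hvB⟩ := hZB v (Finset.mem_filter.1 hv).1
      have h1 := hdg1 v hvQ hvB
      have h2 := hf4 v hv
      have h3 : (dg H Q v : ℝ) + ((F.filter fun u => H.Adj v u).image f).card <
          X + dg H F v := by
        unfold dg at h1 ⊢
        nlinarith
      exact_mod_cast h3)
  apply hQ
  refine ⟨f2, hf2P.mono ?_⟩
  intro u hu
  by_cases huS : u ∈ S
  · exact Finset.mem_union_left _ (Finset.mem_union_left _ (Finset.mem_union_left _ huS))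
  · have huZ : u ∈ Z := Finset.mem_sdiff.2 ⟨hu, huS⟩
    by_cases hl : IsLow H Q S σ D u
    · exact Finset.mem_union_right _ (Finset.mem_filter.2 ⟨huZ, hl⟩)
    · exact Finset.mem_union_left _ (Finset.mem_union_right _ (Finset.mem_filter.2 ⟨huZ, hl⟩))

end Pool.Agent.Helper32.Sq
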