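import Pool.Agent.Helper32.Sq.Prob

/-!
# The random partial colouring: the number of good colours
-/

set_option autoImplicit false
set_option linter.unusedSectionVars false

namespace Pool.Agent.Helper32.Sq

variable {V : Type} [Fintype V] [DecidableEq V] (H : SimpleGraph V) [DecidableRel H.Adj]
variable {X m : ℕ}

/-- The active vertices of `N` with colour `γ`. -/
def cls (N : Finset V) (ω : V → Fin X × Fin m) (γ : Fin X) : Finset V :=
  N.filter fun z => (ω z).1 = γ ∧ ((ω z).2 : ℕ) = 0

/-- The colour `γ` does not appear on the neighbours of `z` in `S`. -/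
def Ok (S : Finset V) (φ : V → Fin X) (γ : Fin X) (z : V) : Prop := ∀ s ∈ S, H.Adj z s → φ s ≠ γ

open Classical in
/-- The good colours: exactly two active vertices of `N` have this colour, and they form a pair in
`FP`, and the colour is allowed for both. -/
noncomputable def gam (S : Finset V) (φ : V → Fin X) (FP : Finset (V × V)) (N : Finset V)
    (ω : V → Fin X × Fin m) : Finset (Fin X) :=
  Finset.univ.filter fun γ => ∃ p ∈ FP, cls N ω γ = {p.1, p.2} ∧ Ok H S φ γ p.1 ∧ Ok H S φ γ p.2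

lemma cls_congr {N : Finset V} {ω ω' : V → Fin X × Fin m} (h : ∀ z ∈ N, ω z = ω' z)
    (γ : Fin X) : cls N ω γ = cls N ω' γ := by
  unfold cls
  apply Finset.filter_congr
  intro z hz
  rw [h z hz]

lemma gam_congr {S : Finset V} {φ : V → Fin X} {FP : Finset (V × V)} {N : Finset V}
    {ω ω' : V → Fin X × Fin m} (h : ∀ z ∈ N, ω z = ω' z) :
    gam H S φ FP N ω = gam H S φ FP N ω' := by
  classical
  unfold gam
  apply Finset.filter_congr
  intro γ _
  rw [cls_congr h γ]

/-- Changing one coordinate changes the number of good colours by at most two. -/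
lemma gam_lip {S : Finset V} {φ : V → Fin X} {FP : Finset (V × V)} {N : Finset V} (i : V)
    {ω ω' : V → Fin X × Fin m} (h : ∀ j, j ≠ i → ω j = ω' j) :
    (gam H S φ FP N ω).card ≤ (gam H S φ FP N ω').card + 2 := by
  classical
  have h1 : gam H S φ FP N ω ⊆ gam H S φ FP N ω' ∪ {(ω i).1, (ω' i).1} := by
    intro γ hγ
    rw [Finset.mem_union, Finset.mem_insert, Finset.mem_singleton]
    by_cases h2 : γ = (ω i).1 ∨ γ = (ω' i).1
    · exact Or.inr h2
    · left
      rw [not_or] at h2
      unfold gam at hγ ⊢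
      rw [Finset.mem_filter] at hγ ⊢
      refine ⟨Finset.mem_univ _, ?_⟩
      have h3 : cls N ω' γ = cls N ω γ := by
        unfold cls
        apply Finset.filter_congr
        intro z _
        by_cases hz : z = i
        · subst hz
          constructor
          · rintro ⟨h4, -⟩; exact absurd h4.symm h2.2
          · rintro ⟨h4, -⟩; exact absurd h4.symm h2.1
        · rw [h z hz]
      rw [h3]
      exact hγ.2
  refine (Finset.card_le_card h1).trans ((Finset.card_union_le _ _).trans ?_)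
  have h2 : ({(ω i).1, (ω' i).1} : Finset (Fin X)).card ≤ 2 := Finset.card_le_two
  omega

lemma card_alpha : (Fintype.card (Fin X × Fin m) : ℝ) = X * m := by
  rw [Fintype.card_prod, Fintype.card_fin, Fintype.card_fin]
  push_cast
  rfl

/-- The probability that the class of `γ` is a given pair. -/
lemma card_class_pair (hX : 0 < X) (hm : 0 < m) (N : Finset V)
    (hN : (N.card : ℝ) ≤ X * m / 2) (x y : V) (hx : x ∈ N) (hy : y ∈ N) (hxy : x ≠ y)
    (γ : Fin X) :
    (Fintype.card (V → Fin X × Fin m) : ℝ) / (2 * (X * m : ℝ) ^ 2) ≤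
      (((Finset.univ : Finset (V → Fin X × Fin m)).filter fun ω => cls N ω γ = {x, y}).card : ℝ) := by
  classical
  set M : ℝ := X * m with hM
  have hM0 : 0 < M := by
    have h1 : (0 : ℝ) < X := by exact_mod_cast hX
    have h2 : (0 : ℝ) < m := by exact_mod_cast hm
    positivity
  set Ω := V → Fin X × Fin m with hΩ
  set b : Fin X × Fin m := (γ, ⟨0, hm⟩) with hb
  have hcls : ∀ (ω : Ω) (z : V), z ∈ N → (z ∈ cls N ω γ ↔ ω z = b) := by
    intro ω z hz
    unfold cls
    rw [Finset.mem_filter]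
    constructor
    · rintro ⟨-, h1, h2⟩
      exact Prod.ext h1 (Fin.ext h2)
    · intro h1
      refine ⟨hz, ?_, ?_⟩ <;> rw [h1]
  set E2 := (Finset.univ : Finset Ω).filter fun ω => ∀ i ∈ ({x, y} : Finset V), ω i = b with hE2
  set E3 : V → Finset Ω := fun z => (Finset.univ : Finset Ω).filter fun ω =>
    ∀ i ∈ ({z, x, y} : Finset V), ω i = b with hE3
  have h2 : (E2.card : ℝ) * M ^ 2 = Fintype.card Ω := by
    have := card_prescribed (ι := V) ({x, y} : Finset V) (fun _ => b)
    rw [Finset.card_pair hxy, card_alpha] at this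
    exact this
  have h3 : ∀ z, z ≠ x → z ≠ y → ((E3 z).card : ℝ) * M ^ 3 = Fintype.card Ω := by
    intro z hzx hzy
    have := card_prescribed (ι := V) ({z, x, y} : Finset V) (fun _ => b)
    rw [Finset.card_insert_of_notMem (by
      rw [Finset.mem_insert, Finset.mem_singleton, not_or]; exact ⟨hzx, hzy⟩),
      Finset.card_pair hxy, card_alpha] at this
    exact this
  have hsub : E2 ⊆ ((Finset.univ : Finset Ω).filter fun ω => cls N ω γ = {x, y}) ∪
      ((N.erase x).erase y).biUnion E3 := by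
    intro ω hω
    rw [hE2, Finset.mem_filter] at hω
    have hωx : ω x = b := hω.2 x (by simp)
    have hωy : ω y = b := hω.2 y (by simp)
    rw [Finset.mem_union, Finset.mem_biUnion, Finset.mem_filter]
    by_cases h4 : ∃ z ∈ (N.erase x).erase y, ω z = b
    · obtain ⟨z, hz, hz'⟩ := h4
      refine Or.inr ⟨z, hz, ?_⟩
      rw [hE3, Finset.mem_filter]
      refine ⟨Finset.mem_univ _, ?_⟩
      intro i hi
      rw [Finset.mem_insert, Finset.mem_insert, Finset.mem_singleton] at hi
      rcases hi with rfl | rfl | rfl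
      · exact hz'
      · exact hωx
      · exact hωy
    · left
      push Not at h4
      refine ⟨Finset.mem_univ _, ?_⟩
      ext z
      rw [Finset.mem_insert, Finset.mem_singleton]
      constructor
      · intro hz
        have hzN : z ∈ N := (Finset.mem_filter.1 hz).1
        have hz' := (hcls ω z hzN).1 hz
        by_contra hcon
        rw [not_or] at hcon
        exact h4 z (Finset.mem_erase.2 ⟨hcon.2, Finset.mem_erase.2 ⟨hcon.1, hzN⟩⟩) hz'
      · rintro (rfl | rfl)
        · exact (hcls ω z hx).2 hωx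
        · exact (hcls ω z hy).2 hωy
  have h5 : (E2.card : ℝ) ≤
      (((Finset.univ : Finset Ω).filter fun ω => cls N ω γ = {x, y}).card : ℝ) +
      ∑ z ∈ (N.erase x).erase y, ((E3 z).card : ℝ) := by
    have := (Finset.card_le_card hsub).trans ((Finset.card_union_le _ _).trans
      (Nat.add_le_add_left Finset.card_biUnion_le _))
    exact_mod_cast this
  have h6 : ∑ z ∈ (N.erase x).erase y, ((E3 z).card : ℝ) ≤ N.card * (Fintype.card Ω / M ^ 3) := by
    calc ∑ z ∈ (N.erase x).erase y, ((E3 z).card : ℝ)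
        = ∑ _z ∈ (N.erase x).erase y, (Fintype.card Ω : ℝ) / M ^ 3 := by
          apply Finset.sum_congr rfl
          intro z hz
          rw [Finset.mem_erase, Finset.mem_erase] at hz
          rw [eq_div_iff (by positivity)]
          exact h3 z hz.2.1 hz.1
      _ = (((N.erase x).erase y).card : ℝ) * (Fintype.card Ω / M ^ 3) := by
          rw [Finset.sum_const, nsmul_eq_mul]
      _ ≤ _ := by
          apply mul_le_mul_of_nonneg_right _ (by positivity)
          have : ((N.erase x).erase y).card ≤ N.card :=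
            Finset.card_le_card ((Finset.erase_subset _ _).trans (Finset.erase_subset _ _))
          exact_mod_cast this
  have h7 : (E2.card : ℝ) = Fintype.card Ω / M ^ 2 := by
    rw [eq_div_iff (by positivity)]
    exact h2
  have h8 : (N.card : ℝ) * (Fintype.card Ω / M ^ 3) ≤ (M / 2) * (Fintype.card Ω / M ^ 3) :=
    mul_le_mul_of_nonneg_right hN (by positivity)
  have h9 : (M / 2) * ((Fintype.card Ω : ℝ) / M ^ 3) = Fintype.card Ω / (2 * M ^ 2) := by
    field_simp
  have h10 : (Fintype.card Ω : ℝ) / M ^ 2 = 2 * (Fintype.card Ω / (2 * M ^ 2)) := by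
    field_simp
  rw [h7] at h5
  linarith

open Classical in
/-- The number of colours allowed for two vertices with few neighbours in `S`. -/
lemma card_ok (S : Finset V) (φ : V → Fin X) (x y : V)
    (hx : 4 * (S.filter fun s => H.Adj x s).card ≤ X)
    (hy : 4 * (S.filter fun s => H.Adj y s).card ≤ X) :
    (X : ℝ) / 2 ≤ (((Finset.univ : Finset (Fin X)).filter fun γ =>
      Ok H S φ γ x ∧ Ok H S φ γ y).card : ℝ) := by
  have h1 : (Finset.univ : Finset (Fin X)) ⊆
      (Finset.univ.filter fun γ => Ok H S φ γ x ∧ Ok H S φ γ y) ∪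
      (((S.filter fun s => H.Adj x s).image φ) ∪ ((S.filter fun s => H.Adj y s).image φ)) := by
    intro γ _
    rw [Finset.mem_union, Finset.mem_union]
    by_cases h2 : Ok H S φ γ x
    · by_cases h3 : Ok H S φ γ y
      · exact Or.inl (Finset.mem_filter.2 ⟨Finset.mem_univ _, h2, h3⟩)
      · unfold Ok at h3
        push Not at h3
        obtain ⟨s, hs, hs1, hs2⟩ := h3
        exact Or.inr (Or.inr (Finset.mem_image.2 ⟨s, Finset.mem_filter.2 ⟨hs, hs1⟩, hs2⟩))
    · unfold Ok at h2
      push Not at h2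
      obtain ⟨s, hs, hs1, hs2⟩ := h2
      exact Or.inr (Or.inl (Finset.mem_image.2 ⟨s, Finset.mem_filter.2 ⟨hs, hs1⟩, hs2⟩))
  have h2 := (Finset.card_le_card h1).trans ((Finset.card_union_le _ _).trans
    (Nat.add_le_add_left ((Finset.card_union_le _ _).trans
      (add_le_add Finset.card_image_le Finset.card_image_le)) _))
  rw [Finset.card_univ, Fintype.card_fin] at h2
  have h3 : X ≤ 2 * ((Finset.univ : Finset (Fin X)).filter fun γ =>
      Ok H S φ γ x ∧ Ok H S φ γ y).card := by omega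
  have h4 : (X : ℝ) ≤ 2 * (((Finset.univ : Finset (Fin X)).filter fun γ =>
      Ok H S φ γ x ∧ Ok H S φ γ y).card : ℝ) := by exact_mod_cast h3
  linarith

open Classical in
/-- Every good colour is counted at most twice. -/
lemma sum_pairs_le (S : Finset V) (φ : V → Fin X) (FP : Finset (V × V)) (N : Finset V)
    (ω : V → Fin X × Fin m) :
    ∑ p ∈ FP, ((Finset.univ : Finset (Fin X)).filter fun γ =>
      cls N ω γ = {p.1, p.2} ∧ Ok H S φ γ p.1 ∧ Ok H S φ γ p.2).card ≤
      2 * (gam H S φ FP N ω).card := by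
  simp_rw [Finset.card_filter]
  rw [Finset.sum_comm]
  simp_rw [← Finset.card_filter]
  have h1 : ∀ γ, (FP.filter fun p => cls N ω γ = {p.1, p.2} ∧ Ok H S φ γ p.1 ∧
      Ok H S φ γ p.2).card ≤ if γ ∈ gam H S φ FP N ω then 2 else 0 := by
    intro γ
    rcases (FP.filter fun p => cls N ω γ = {p.1, p.2} ∧ Ok H S φ γ p.1 ∧
      Ok H S φ γ p.2).eq_empty_or_nonempty with he | ⟨p0, hp0⟩
    · rw [he, Finset.card_empty]
      exact Nat.zero_le _
    · have hp0' := Finset.mem_filter.1 hp0
      have hγ : γ ∈ gam H S φ FP N ω := by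
        unfold gam
        rw [Finset.mem_filter]
        exact ⟨Finset.mem_univ _, p0, hp0'.1, hp0'.2⟩
      rw [if_pos hγ]
      have h2 : (FP.filter fun p => cls N ω γ = {p.1, p.2} ∧ Ok H S φ γ p.1 ∧
          Ok H S φ γ p.2) ⊆ {p0, p0.swap} := by
        intro p hp
        rw [Finset.mem_filter] at hp
        have h3 : ({p.1, p.2} : Finset V) = {p0.1, p0.2} := hp.2.1.symm.trans hp0'.2.1
        have h4 : s(p.1, p.2) = s(p0.1, p0.2) := by
          have h5 : ((s(p.1, p.2) : Sym2 V)).toFinset = (s(p0.1, p0.2) : Sym2 V).toFinset := by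
            rw [Sym2.toFinset_mk_eq, Sym2.toFinset_mk_eq, h3]
          have h6 : ∀ z : V, z ∈ s(p.1, p.2) ↔ z ∈ s(p0.1, p0.2) := by
            intro z
            rw [← Sym2.mem_toFinset, h5, Sym2.mem_toFinset]
          exact Sym2.ext h6
        rw [Sym2.eq_iff] at h4
        rw [Finset.mem_insert, Finset.mem_singleton]
        rcases h4 with ⟨h5, h6⟩ | ⟨h5, h6⟩
        · exact Or.inl (Prod.ext h5 h6)
        · exact Or.inr (Prod.ext h5 h6)
      exact (Finset.card_le_card h2).trans Finset.card_le_two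
  calc _ ≤ ∑ γ, (if γ ∈ gam H S φ FP N ω then 2 else 0) := Finset.sum_le_sum fun γ _ => h1 γ
    _ = 2 * (gam H S φ FP N ω).card := by
        rw [← Finset.sum_filter, Finset.sum_const, smul_eq_mul, mul_comm, Finset.filter_mem_eq_inter,
          Finset.univ_inter]

/-- The expected number of good colours. -/
lemma sum_gam_ge (hX : 0 < X) (hm : 0 < m) (N : Finset V)
    (hN : (N.card : ℝ) ≤ X * m / 2) (S : Finset V) (φ : V → Fin X) (FP : Finset (V × V))
    (hFP : ∀ p ∈ FP, p.1 ∈ N ∧ p.2 ∈ N ∧ p.1 ≠ p.2 ∧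
      4 * (S.filter fun s => H.Adj p.1 s).card ≤ X ∧ 4 * (S.filter fun s => H.Adj p.2 s).card ≤ X) :
    (FP.card : ℝ) / (8 * X * m ^ 2) * Fintype.card (V → Fin X × Fin m) ≤
      ∑ ω : V → Fin X × Fin m, ((gam H S φ FP N ω).card : ℝ) := by
  classical
  have hX' : (0 : ℝ) < X := by exact_mod_cast hX
  have hm' : (0 : ℝ) < m := by exact_mod_cast hm
  set Ω := V → Fin X × Fin m with hΩ
  have h1 : ∑ ω : Ω, ∑ p ∈ FP, (((Finset.univ : Finset (Fin X)).filter fun γ =>
      cls N ω γ = {p.1, p.2} ∧ Ok H S φ γ p.1 ∧ Ok H S φ γ p.2).card : ℝ) ≤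
      2 * ∑ ω : Ω, ((gam H S φ FP N ω).card : ℝ) := by
    rw [Finset.mul_sum]
    apply Finset.sum_le_sum
    intro ω _
    exact_mod_cast sum_pairs_le H S φ FP N ω
  rw [Finset.sum_comm] at h1
  have h2 : ∀ p ∈ FP, (X : ℝ) / 2 * (Fintype.card Ω / (2 * (X * m : ℝ) ^ 2)) ≤
      ∑ ω : Ω, (((Finset.univ : Finset (Fin X)).filter fun γ =>
      cls N ω γ = {p.1, p.2} ∧ Ok H S φ γ p.1 ∧ Ok H S φ γ p.2).card : ℝ) := by
    intro p hp
    obtain ⟨hp1, hp2, hp3, hp4, hp5⟩ := hFP p hp
    have h3 : ∑ ω : Ω, (((Finset.univ : Finset (Fin X)).filter fun γ =>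
        cls N ω γ = {p.1, p.2} ∧ Ok H S φ γ p.1 ∧ Ok H S φ γ p.2).card : ℝ) =
        ∑ γ : Fin X, (((Finset.univ : Finset Ω).filter fun ω =>
        cls N ω γ = {p.1, p.2} ∧ Ok H S φ γ p.1 ∧ Ok H S φ γ p.2).card : ℝ) := by
      have : ∑ ω : Ω, ((Finset.univ : Finset (Fin X)).filter fun γ =>
        cls N ω γ = {p.1, p.2} ∧ Ok H S φ γ p.1 ∧ Ok H S φ γ p.2).card =
        ∑ γ : Fin X, ((Finset.univ : Finset Ω).filter fun ω =>
        cls N ω γ = {p.1, p.2} ∧ Ok H S φ γ p.1 ∧ Ok H S φ γ p.2).card := by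
        simp_rw [Finset.card_filter]
        rw [Finset.sum_comm]
      exact_mod_cast this
    rw [h3]
    calc (X : ℝ) / 2 * (Fintype.card Ω / (2 * (X * m : ℝ) ^ 2))
        ≤ (((Finset.univ : Finset (Fin X)).filter fun γ =>
          Ok H S φ γ p.1 ∧ Ok H S φ γ p.2).card : ℝ) * (Fintype.card Ω / (2 * (X * m : ℝ) ^ 2)) :=
          mul_le_mul_of_nonneg_right (card_ok H S φ p.1 p.2 hp4 hp5) (by positivity)
      _ = ∑ _γ ∈ (Finset.univ : Finset (Fin X)).filter (fun γ =>
          Ok H S φ γ p.1 ∧ Ok H S φ γ p.2), (Fintype.card Ω : ℝ) / (2 * (X * m : ℝ) ^ 2) := by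
          rw [Finset.sum_const, nsmul_eq_mul]
      _ ≤ ∑ γ ∈ (Finset.univ : Finset (Fin X)).filter (fun γ =>
          Ok H S φ γ p.1 ∧ Ok H S φ γ p.2), (((Finset.univ : Finset Ω).filter fun ω =>
          cls N ω γ = {p.1, p.2} ∧ Ok H S φ γ p.1 ∧ Ok H S φ γ p.2).card : ℝ) := by
          apply Finset.sum_le_sum
          intro γ hγ
          rw [Finset.mem_filter] at hγ
          have h4 := card_class_pair (m := m) hX hm N hN p.1 p.2 hp1 hp2 hp3 γ
          refine h4.trans (le_of_eq ?_)
          congr 2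
          ext ω
          rw [Finset.mem_filter, Finset.mem_filter]
          constructor
          · rintro ⟨h5, h6⟩; exact ⟨h5, h6, hγ.2⟩
          · rintro ⟨h5, h6, -⟩; exact ⟨h5, h6⟩
      _ ≤ _ := Finset.sum_le_sum_of_subset_of_nonneg (Finset.subset_univ _)
          fun _ _ _ => by positivity
  have h3 : (FP.card : ℝ) * ((X : ℝ) / 2 * (Fintype.card Ω / (2 * (X * m : ℝ) ^ 2))) ≤
      2 * ∑ ω : Ω, ((gam H S φ FP N ω).card : ℝ) := by
    calc (FP.card : ℝ) * ((X : ℝ) / 2 * (Fintype.card Ω / (2 * (X * m : ℝ) ^ 2)))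
        = ∑ _p ∈ FP, ((X : ℝ) / 2 * (Fintype.card Ω / (2 * (X * m : ℝ) ^ 2))) := by
          rw [Finset.sum_const, nsmul_eq_mul]
      _ ≤ _ := (Finset.sum_le_sum h2).trans h1
  have h4 : (FP.card : ℝ) * ((X : ℝ) / 2 * (Fintype.card Ω / (2 * (X * m : ℝ) ^ 2))) =
      2 * ((FP.card : ℝ) / (8 * X * m ^ 2) * Fintype.card Ω) := by
    field_simp
    ring
  rw [h4] at h3
  linarith

end Pool.Agent.Helper32.Sq
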