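import Pool.Agent.Helper32.Sq.Part1

/-!
# The random partial colouring: savings and spoilers
-/

set_option autoImplicit false
set_option linter.unusedSectionVars false

namespace Pool.Agent.Helper32.Sq

variable {V : Type} [Fintype V] [DecidableEq V] (H : SimpleGraph V) [DecidableRel H.Adj]
variable {X m : ℕ}

/-- The neighbours of `v` in `Z`. -/
def nbr (Z : Finset V) (v : V) : Finset V := Z.filter fun u => H.Adj v u

open Classical in
/-- The vertices which keep their colours. -/
noncomputable def Fs (Z S : Finset V) (φ : V → Fin X) (ω : V → Fin X × Fin m) : Finset V :=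
  Z.filter fun z => ((ω z).2 : ℕ) = 0 ∧ Ok H S φ (ω z).1 z ∧
    ∀ w ∈ Z, H.Adj z w → ((ω w).2 : ℕ) = 0 → (ω w).1 ≠ (ω z).1

open Classical in
/-- The vertices outside `N` which spoil a good colour. -/
noncomputable def spl (Z S : Finset V) (φ : V → Fin X) (FP : Finset (V × V)) (N : Finset V)
    (ω ω' : V → Fin X × Fin m) : Finset V :=
  (Z \ N).filter fun w => ((ω' w).2 : ℕ) = 0 ∧ (ω' w).1 ∈ gam H S φ FP N ω ∧
    ∃ z ∈ cls N ω (ω' w).1, H.Adj z w

/-- The savings are at least the number of good colours minus the number of spoilers. -/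
lemma savings (Z S : Finset V) (φ : V → Fin X) (FP : Finset (V × V)) (v : V)
    (ω : V → Fin X × Fin m) (hFP : ∀ p ∈ FP, p.1 ≠ p.2 ∧ ¬ H.Adj p.1 p.2) :
    (((Fs H Z S φ ω).filter fun u => H.Adj v u).image fun z => (ω z).1).card +
      (gam H S φ FP (nbr H Z v) ω).card ≤
    ((Fs H Z S φ ω).filter fun u => H.Adj v u).card +
      (spl H Z S φ FP (nbr H Z v) ω ω).card := by
  classical
  set N := nbr H Z v with hN
  set FN := (Fs H Z S φ ω).filter fun u => H.Adj v u with hFN
  set G := gam H S φ FP N ω with hG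
  set U := G \ (spl H Z S φ FP N ω ω).image fun w => (ω w).1 with hU
  have h1 : G.card ≤ U.card + (spl H Z S φ FP N ω ω).card := by
    have h2 : G ⊆ U ∪ (spl H Z S φ FP N ω ω).image fun w => (ω w).1 := by
      intro γ hγ
      rw [Finset.mem_union, hU, Finset.mem_sdiff]
      by_cases h3 : γ ∈ (spl H Z S φ FP N ω ω).image fun w => (ω w).1
      · exact Or.inr h3
      · exact Or.inl ⟨hγ, h3⟩
    exact (Finset.card_le_card h2).trans ((Finset.card_union_le _ _).trans
      (Nat.add_le_add_left Finset.card_image_le _))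
  have h2 : ∀ γ ∈ U, 2 ≤ (FN.filter fun z => (ω z).1 = γ).card := by
    intro γ hγ
    rw [hU, Finset.mem_sdiff] at hγ
    obtain ⟨hγG, hγs⟩ := hγ
    have hγG' := hγG
    rw [hG, gam, Finset.mem_filter] at hγG'
    obtain ⟨-, p, hp, hcls, hok1, hok2⟩ := hγG'
    obtain ⟨hne, hnadj⟩ := hFP p hp
    have hmem : ∀ z ∈ cls N ω γ, z ∈ Z ∧ H.Adj v z ∧ (ω z).1 = γ ∧ ((ω z).2 : ℕ) = 0 := by
      intro z hz
      rw [cls, Finset.mem_filter, hN, nbr, Finset.mem_filter] at hz
      exact ⟨hz.1.1, hz.1.2, hz.2⟩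
    have hF : ∀ z ∈ cls N ω γ, z ∈ FN.filter fun z => (ω z).1 = γ := by
      intro z hz
      obtain ⟨g1, g2, g3, g4⟩ := hmem z hz
      rw [Finset.mem_filter, hFN, Finset.mem_filter, Fs, Finset.mem_filter]
      refine ⟨⟨⟨g1, g4, ?_, ?_⟩, g2⟩, g3⟩
      · rw [g3]
        rw [hcls, Finset.mem_insert, Finset.mem_singleton] at hz
        rcases hz with rfl | rfl
        · exact hok1
        · exact hok2
      · intro w hw hzw hw0 hcon
        rw [g3] at hcon
        by_cases hwN : w ∈ N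
        · have hwc : w ∈ cls N ω γ := by
            rw [cls, Finset.mem_filter]
            exact ⟨hwN, hcon, hw0⟩
          rw [hcls, Finset.mem_insert, Finset.mem_singleton] at hz hwc
          rcases hz with rfl | rfl
          · rcases hwc with rfl | rfl
            · exact H.irrefl hzw
            · exact hnadj hzw
          · rcases hwc with rfl | rfl
            · exact hnadj hzw.symm
            · exact H.irrefl hzw
        · apply hγs
          rw [Finset.mem_image]
          refine ⟨w, ?_, hcon⟩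
          rw [spl, Finset.mem_filter, Finset.mem_sdiff]
          refine ⟨⟨hw, hwN⟩, hw0, ?_, z, ?_, hzw⟩
          · rw [hcon]; exact hγG
          · rw [hcon]; exact hz
    have h3 : cls N ω γ ⊆ FN.filter fun z => (ω z).1 = γ := hF
    have h4 : (cls N ω γ).card = 2 := by
      rw [hcls, Finset.card_pair hne]
    rw [← h4]
    exact Finset.card_le_card h3
  have h3 : U ⊆ FN.image fun z => (ω z).1 := by
    intro γ hγ
    have h4 := h2 γ hγ
    have h5 : 0 < (FN.filter fun z => (ω z).1 = γ).card := by omega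
    obtain ⟨z, hz⟩ := Finset.card_pos.1 h5
    rw [Finset.mem_filter] at hz
    exact Finset.mem_image.2 ⟨z, hz.1, hz.2⟩
  have h4 : (FN.image fun z => (ω z).1).card + U.card ≤ FN.card := by
    rw [Finset.card_eq_sum_card_image (fun z => (ω z).1) FN]
    have h5 : U.card = ∑ γ ∈ FN.image fun z => (ω z).1, if γ ∈ U then 1 else 0 := by
      rw [← Finset.sum_filter, Finset.sum_const, smul_eq_mul, mul_one, Finset.filter_mem_eq_inter,
        Finset.inter_eq_right.2 h3]
    rw [h5, Finset.card_eq_sum_ones, ← Finset.sum_add_distrib]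
    apply Finset.sum_le_sum
    intro γ hγ
    by_cases h6 : γ ∈ U
    · rw [if_pos h6]
      exact h2 γ h6
    · rw [if_neg h6]
      rw [Finset.mem_image] at hγ
      obtain ⟨z, hz, hz'⟩ := hγ
      exact Finset.card_pos.2 ⟨z, Finset.mem_filter.2 ⟨hz, hz'⟩⟩
  omega

open Classical in
/-- The total number of spoiling choices. -/
lemma sum_spoil (Z S : Finset V) (φ : V → Fin X) (FP : Finset (V × V)) (N : Finset V)
    (ω : V → Fin X × Fin m) (hNZ : N ⊆ Z) (b : ℝ) (hb : ∀ z ∈ Z, ((nbr H Z z).card : ℝ) ≤ b)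
    (hFP : ∀ p ∈ FP, p.1 ≠ p.2) :
    ∑ w : V, (((Finset.univ : Finset (Fin X × Fin m)).filter fun c =>
      w ∈ Z \ N ∧ (c.2 : ℕ) = 0 ∧ c.1 ∈ gam H S φ FP N ω ∧ ∃ z ∈ cls N ω c.1, H.Adj z w).card : ℝ) ≤
      2 * b * (gam H S φ FP N ω).card := by
  set G := gam H S φ FP N ω with hG
  have h1 : ∀ w : V, ((Finset.univ : Finset (Fin X × Fin m)).filter fun c =>
      w ∈ Z \ N ∧ (c.2 : ℕ) = 0 ∧ c.1 ∈ G ∧ ∃ z ∈ cls N ω c.1, H.Adj z w).card ≤
      ∑ γ ∈ G, ∑ z ∈ cls N ω γ, if w ∈ Z ∧ H.Adj z w then 1 else 0 := by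
    intro w
    have h2 : ((Finset.univ : Finset (Fin X × Fin m)).filter fun c =>
      w ∈ Z \ N ∧ (c.2 : ℕ) = 0 ∧ c.1 ∈ G ∧ ∃ z ∈ cls N ω c.1, H.Adj z w).card ≤
      (G.filter fun γ => w ∈ Z ∧ ∃ z ∈ cls N ω γ, H.Adj z w).card := by
      apply Finset.card_le_card_of_injOn (fun c => c.1)
      · intro c hc
        rw [Finset.mem_coe, Finset.mem_filter] at hc
        obtain ⟨-, hc1, hc2, hc3, hc4⟩ := hc
        rw [Finset.mem_coe, Finset.mem_filter]
        exact ⟨hc3, (Finset.mem_sdiff.1 hc1).1, hc4⟩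
      · intro c hc c' hc' he
        rw [Finset.mem_coe, Finset.mem_filter] at hc hc'
        exact Prod.ext he (Fin.ext (hc.2.2.1.trans hc'.2.2.1.symm))
    refine h2.trans ?_
    rw [Finset.card_filter]
    apply Finset.sum_le_sum
    intro γ _
    by_cases h3 : w ∈ Z ∧ ∃ z ∈ cls N ω γ, H.Adj z w
    · rw [if_pos h3]
      obtain ⟨h4, z, hz, hz'⟩ := h3
      calc 1 = if w ∈ Z ∧ H.Adj z w then 1 else 0 := by rw [if_pos ⟨h4, hz'⟩]
        _ ≤ _ := Finset.single_le_sum (f := fun z => if w ∈ Z ∧ H.Adj z w then 1 else 0)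
            (fun _ _ => Nat.zero_le _) hz
    · rw [if_neg h3]
      exact Nat.zero_le _
  have h2 : ∑ w : V, ((Finset.univ : Finset (Fin X × Fin m)).filter fun c =>
      w ∈ Z \ N ∧ (c.2 : ℕ) = 0 ∧ c.1 ∈ G ∧ ∃ z ∈ cls N ω c.1, H.Adj z w).card ≤
      ∑ γ ∈ G, ∑ z ∈ cls N ω γ, (nbr H Z z).card := by
    refine (Finset.sum_le_sum fun w _ => h1 w).trans (le_of_eq ?_)
    rw [Finset.sum_comm]
    apply Finset.sum_congr rfl
    intro γ _
    rw [Finset.sum_comm]
    apply Finset.sum_congr rfl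
    intro z _
    rw [← Finset.card_filter, nbr]
    congr 1
    ext w
    simp
  have h3 : ∀ γ ∈ G, ((cls N ω γ).card : ℝ) ≤ 2 ∧ cls N ω γ ⊆ Z := by
    intro γ hγ
    have hγ' := hγ
    rw [hG, gam, Finset.mem_filter] at hγ'
    obtain ⟨-, p, hp, hcls, -, -⟩ := hγ'
    constructor
    · rw [hcls, Finset.card_pair (hFP p hp)]
      norm_num
    · exact (Finset.filter_subset _ _).trans hNZ
  calc ∑ w : V, (((Finset.univ : Finset (Fin X × Fin m)).filter fun c =>
      w ∈ Z \ N ∧ (c.2 : ℕ) = 0 ∧ c.1 ∈ G ∧ ∃ z ∈ cls N ω c.1, H.Adj z w).card : ℝ)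
      ≤ ∑ γ ∈ G, ∑ z ∈ cls N ω γ, ((nbr H Z z).card : ℝ) := by exact_mod_cast h2
    _ ≤ ∑ γ ∈ G, ∑ _z ∈ cls N ω γ, b := by
        apply Finset.sum_le_sum
        intro γ hγ
        apply Finset.sum_le_sum
        intro z hz
        exact hb z ((h3 γ hγ).2 hz)
    _ ≤ ∑ _γ ∈ G, 2 * b := by
        apply Finset.sum_le_sum
        intro γ hγ
        rw [Finset.sum_const, nsmul_eq_mul]
        rcases (cls N ω γ).eq_empty_or_nonempty with he | ⟨z, hz⟩
        · have h4 : (cls N ω γ).card = 2 := by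
            have hγ' := hγ
            rw [hG, gam, Finset.mem_filter] at hγ'
            obtain ⟨-, p, hp, hcls, -, -⟩ := hγ'
            rw [hcls, Finset.card_pair (hFP p hp)]
          rw [he] at h4
          simp at h4
        · have hb0 : 0 ≤ b := le_trans (by positivity) (hb z ((h3 γ hγ).2 hz))
          exact mul_le_mul_of_nonneg_right (h3 γ hγ).1 hb0
    _ = 2 * b * G.card := by rw [Finset.sum_const, nsmul_eq_mul]; ring

/-- The exponential moment of the number of spoilers. -/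
lemma sum_exp_spl (hX : 0 < X) (hm : 0 < m) (Z S : Finset V) (φ : V → Fin X)
    (FP : Finset (V × V)) (N : Finset V)
    (ω : V → Fin X × Fin m) (hNZ : N ⊆ Z) (b : ℝ) (hb : ∀ z ∈ Z, ((nbr H Z z).card : ℝ) ≤ b)
    (hFP : ∀ p ∈ FP, p.1 ≠ p.2) :
    ∑ ω' : V → Fin X × Fin m, Real.exp ((spl H Z S φ FP N ω ω').card : ℝ) ≤
      Fintype.card (V → Fin X × Fin m) *
        Real.exp (4 * b / (X * m) * (gam H S φ FP N ω).card) := by
  classical
  set G := gam H S φ FP N ω with hG
  set M : ℝ := X * m with hM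
  have hM0 : 0 < M := by
    have h1 : (0 : ℝ) < X := by exact_mod_cast hX
    have h2 : (0 : ℝ) < m := by exact_mod_cast hm
    positivity
  set Q : V → (Fin X × Fin m) → Prop := fun w c =>
    w ∈ Z \ N ∧ (c.2 : ℕ) = 0 ∧ c.1 ∈ G ∧ ∃ z ∈ cls N ω c.1, H.Adj z w with hQ
  set e : V → (Fin X × Fin m) → ℝ := fun w c => if Q w c then 1 else 0 with he
  have h1 : ∀ ω' : V → Fin X × Fin m, ((spl H Z S φ FP N ω ω').card : ℝ) =
      ∑ w, e w (ω' w) := by
    intro ω'
    have h2 : spl H Z S φ FP N ω ω' = Finset.univ.filter fun w => Q w (ω' w) := by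
      ext w
      rw [spl, Finset.mem_filter, Finset.mem_filter, hQ]
      simp only [Finset.mem_univ, true_and]
      rfl
    rw [h2, Finset.card_filter]
    push_cast
    rfl
  simp_rw [h1]
  rw [sum_prod_exp]
  set r : V → ℝ := fun w => (((Finset.univ : Finset (Fin X × Fin m)).filter fun c =>
    Q w c).card : ℝ) with hr
  have h2 : ∀ w, ∑ c, Real.exp (e w c) ≤ M * Real.exp (2 * r w / M) := by
    intro w
    have h3 : ∀ c, Real.exp (e w c) ≤ 1 + 2 * e w c := by
      intro c
      simp only [he]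
      by_cases h4 : Q w c
      · rw [if_pos h4]
        have := Real.exp_one_lt_d9
        linarith
      · rw [if_neg h4, Real.exp_zero]
        linarith
    have h4 : ∑ c, (1 + 2 * e w c) = M + 2 * r w := by
      rw [Finset.sum_add_distrib, Finset.sum_const, Finset.card_univ, nsmul_eq_mul, mul_one,
        card_alpha, ← Finset.mul_sum, hr]
      simp only [he]
      rw [← Finset.sum_filter, Finset.sum_const, nsmul_eq_mul, mul_one]
    have h5 : 2 * r w / M + 1 ≤ Real.exp (2 * r w / M) := Real.add_one_le_exp _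
    calc ∑ c, Real.exp (e w c) ≤ ∑ c, (1 + 2 * e w c) := Finset.sum_le_sum fun c _ => h3 c
      _ = M * (2 * r w / M + 1) := by rw [h4]; field_simp; ring
      _ ≤ _ := mul_le_mul_of_nonneg_left h5 hM0.le
  have h3 : ∏ w : V, ∑ c, Real.exp (e w c) ≤ ∏ w : V, M * Real.exp (2 * r w / M) := by
    apply Finset.prod_le_prod
    · intro w _
      exact Finset.sum_nonneg fun c _ => (Real.exp_pos _).le
    · intro w _
      exact h2 w
  refine h3.trans ?_
  rw [Finset.prod_mul_distrib, Finset.prod_const, Finset.card_univ, ← Real.exp_sum]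
  have h4 : (Fintype.card (V → Fin X × Fin m) : ℝ) = M ^ Fintype.card V := by
    rw [Fintype.card_fun, Nat.cast_pow, card_alpha]
  rw [h4]
  apply mul_le_mul_of_nonneg_left _ (by positivity)
  apply Real.exp_le_exp.2
  have h5 := sum_spoil H Z S φ FP N ω hNZ b hb hFP
  have h6 : ∑ w, r w ≤ 2 * b * G.card := h5
  calc ∑ w, 2 * r w / M = 2 / M * ∑ w, r w := by
        rw [Finset.mul_sum]
        apply Finset.sum_congr rfl
        intro w _
        ring
    _ ≤ 2 / M * (2 * b * G.card) := mul_le_mul_of_nonneg_left h6 (by positivity)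
    _ = 4 * b / M * G.card := by ring

end Pool.Agent.Helper32.Sq
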