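import Pool.Agent.Helper39.McD

/-!
# Uniform product spaces: resampling, the local lemma, bounded differences
-/

set_option autoImplicit false
set_option linter.unusedSectionVars false

namespace Pool.Agent.Helper32.Sq

variable {ι α : Type} [Fintype ι] [DecidableEq ι] [Fintype α] [DecidableEq α]

/-- Combine two points: use `ω` on `T` and `ω'` elsewhere. -/
def mix (T : Finset ι) (ω ω' : ι → α) : ι → α := fun i => if i ∈ T then ω i else ω' i

lemma mix_mem {T : Finset ι} {ω ω' : ι → α} {i : ι} (h : i ∈ T) : mix T ω ω' i = ω i := by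
  simp [mix, h]

lemma mix_not_mem {T : Finset ι} {ω ω' : ι → α} {i : ι} (h : i ∉ T) : mix T ω ω' i = ω' i := by
  simp [mix, h]

/-- The resampling involution. -/
def mixEquiv (T : Finset ι) : ((ι → α) × (ι → α)) ≃ ((ι → α) × (ι → α)) where
  toFun p := (mix T p.1 p.2, mix T p.2 p.1)
  invFun p := (mix T p.1 p.2, mix T p.2 p.1)
  left_inv p := by
    refine Prod.ext ?_ ?_ <;> funext i <;> by_cases h : i ∈ T <;> simp [mix, h]
  right_inv p := by
    refine Prod.ext ?_ ?_ <;> funext i <;> by_cases h : i ∈ T <;> simp [mix, h]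

lemma sum_mix (T : Finset ι) (F : (ι → α) → ℝ) :
    ∑ ω, ∑ ω', F (mix T ω ω') = Fintype.card (ι → α) * ∑ ω, F ω := by
  have h1 := (mixEquiv (α := α) T).sum_comp (fun p => F p.1)
  rw [Fintype.sum_prod_type, Fintype.sum_prod_type] at h1
  have h2 : ∑ ω : ι → α, ∑ ω' : ι → α, F (mix T ω ω') = ∑ ω : ι → α, ∑ _ω' : ι → α, F ω := h1
  rw [h2]
  simp only [Finset.sum_const, Finset.card_univ, nsmul_eq_mul]
  rw [Finset.mul_sum]

/-- The event `A` depends only on the coordinates in `T`. -/
def DepOn (T : Finset ι) (A : Finset (ι → α)) : Prop :=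
  ∀ ω ω' : ι → α, (∀ i ∈ T, ω i = ω' i) → ω ∈ A → ω' ∈ A

lemma card_indep (T T' : Finset ι) (hT : Disjoint T T') (A B : Finset (ι → α)) (hA : DepOn T A)
    (hB : DepOn T' B) :
    ((A ∩ B).card : ℝ) * Fintype.card (ι → α) = A.card * B.card := by
  classical
  have h1 := sum_mix T (fun ω : ι → α => if ω ∈ A ∩ B then (1 : ℝ) else 0)
  rw [← Finset.sum_filter, Finset.sum_const, nsmul_eq_mul, mul_one, Finset.filter_mem_eq_inter,
    Finset.univ_inter] at h1
  rw [mul_comm, ← h1]
  have h2 : ∀ ω ω' : ι → α, (if mix T ω ω' ∈ A ∩ B then (1 : ℝ) else 0) =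
      (if ω ∈ A then 1 else 0) * (if ω' ∈ B then 1 else 0) := by
    intro ω ω'
    have h3 : mix T ω ω' ∈ A ↔ ω ∈ A :=
      ⟨fun h => hA _ _ (fun i hi => mix_mem hi) h, fun h => hA _ _ (fun i hi => (mix_mem hi).symm) h⟩
    have h4 : mix T ω ω' ∈ B ↔ ω' ∈ B :=
      ⟨fun h => hB _ _ (fun i hi => mix_not_mem (Finset.disjoint_right.1 hT hi)) h,
        fun h => hB _ _ (fun i hi => (mix_not_mem (Finset.disjoint_right.1 hT hi)).symm) h⟩
    by_cases hA' : ω ∈ A <;> by_cases hB' : ω' ∈ B <;> simp [Finset.mem_inter, h3, h4, hA', hB']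
  simp_rw [h2]
  simp_rw [← Finset.mul_sum]
  rw [← Finset.sum_mul]
  congr 1 <;>
  · rw [← Finset.sum_filter, Finset.sum_const, nsmul_eq_mul, mul_one, Finset.filter_mem_eq_inter,
      Finset.univ_inter]

/-- The symmetric Lovász local lemma on a uniform product space. -/
theorem lll [Nonempty α] {J : Type} [Fintype J] [DecidableEq J] (A : J → Finset (ι → α))
    (T : J → Finset ι) (hT : ∀ j, DepOn (T j) (A j)) (q : ℝ) (d : ℕ) (hq0 : 0 ≤ q)
    (hA : ∀ j, ((A j).card : ℝ) ≤ q * Fintype.card (ι → α))
    (hd : ∀ j, ((Finset.univ : Finset J).filter fun j' => ¬ Disjoint (T j) (T j')).card ≤ d)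
    (hq : 4 * q * (d + 1) ≤ 1) : ∃ ω : ι → α, ∀ j, ω ∉ A j := by
  classical
  set av : Finset J → Finset (ι → α) := fun S => Finset.univ.filter fun ω => ∀ j ∈ S, ω ∉ A j
    with hav
  have hΩ : (0 : ℝ) < Fintype.card (ι → α) := by exact_mod_cast Fintype.card_pos
  have hav_mono : ∀ S S' : Finset J, S ⊆ S' → av S' ⊆ av S := by
    intro S S' h ω hω
    rw [hav, Finset.mem_filter] at hω ⊢
    exact ⟨Finset.mem_univ _, fun j hj => hω.2 j (h hj)⟩
  have hdq : 2 * q * d ≤ 1 / 2 := by nlinarith
  have claim : ∀ n : ℕ, ∀ S : Finset J, S.card ≤ n → ∀ i ∉ S,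
      ((A i ∩ av S).card : ℝ) ≤ 2 * q * (av S).card := by
    intro n
    induction n with
    | zero =>
      intro S hS i _
      have hS0 : S = ∅ := Finset.card_eq_zero.1 (Nat.le_zero.1 hS)
      have h1 : av S = Finset.univ := by
        rw [hav, hS0]
        simp
      rw [h1, Finset.inter_univ, Finset.card_univ]
      have := hA i
      nlinarith
    | succ n ih =>
      intro S hS i hi
      set S1 := S.filter fun j => ¬ Disjoint (T i) (T j) with hS1
      set S2 := S.filter fun j => Disjoint (T i) (T j) with hS2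
      have hS12 : S1 ∪ S2 = S := by
        ext j
        rw [Finset.mem_union, hS1, hS2, Finset.mem_filter, Finset.mem_filter]
        constructor
        · rintro (h | h) <;> exact h.1
        · intro h
          by_cases h' : Disjoint (T i) (T j)
          · exact Or.inr ⟨h, h'⟩
          · exact Or.inl ⟨h, h'⟩
      have hS2S : S2 ⊆ S := Finset.filter_subset _ _
      -- independence
      have hdep : DepOn (S2.biUnion T) (av S2) := by
        intro ω ω' h hω
        rw [hav, Finset.mem_filter] at hω ⊢
        refine ⟨Finset.mem_univ _, fun j hj hcon => hω.2 j hj ?_⟩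
        exact hT j ω' ω (fun t ht => (h t (Finset.mem_biUnion.2 ⟨j, hj, ht⟩)).symm) hcon
      have hdis : Disjoint (T i) (S2.biUnion T) := by
        rw [Finset.disjoint_biUnion_right]
        intro j hj
        exact (Finset.mem_filter.1 hj).2
      have h1 := card_indep (T i) (S2.biUnion T) hdis (A i) (av S2) (hT i) hdep
      have h2 : ((A i ∩ av S2).card : ℝ) ≤ q * (av S2).card := by
        have h3 : ((A i ∩ av S2).card : ℝ) * Fintype.card (ι → α) ≤
            (q * (av S2).card) * Fintype.card (ι → α) := by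
          rw [h1]
          have := mul_le_mul_of_nonneg_right (hA i) (show (0 : ℝ) ≤ (av S2).card by positivity)
          linarith
        exact le_of_mul_le_mul_right h3 hΩ
      have h3 : ((A i ∩ av S).card : ℝ) ≤ (A i ∩ av S2).card := by
        exact_mod_cast Finset.card_le_card (Finset.inter_subset_inter_left (hav_mono _ _ hS2S))
      have h4 : ((av S2).card : ℝ) ≤ 2 * (av S).card := by
        by_cases hS1e : S1 = ∅
        · have h5 : S2 = S := by rw [← hS12, hS1e, Finset.empty_union]
          rw [h5]
          have : (0 : ℝ) ≤ (av S).card := by positivity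
          linarith
        · have hlt : S2.card < S.card := by
            apply Finset.card_lt_card
            rw [Finset.ssubset_iff_subset_ne]
            refine ⟨hS2S, fun he => hS1e ?_⟩
            rw [Finset.eq_empty_iff_forall_notMem]
            intro j hj
            rw [hS1, Finset.mem_filter] at hj
            have hj2 : j ∈ S2 := by rw [he]; exact hj.1
            exact hj.2 (Finset.mem_filter.1 hj2).2
          have h5 : av S2 ⊆ av S ∪ S1.biUnion fun j => A j ∩ av S2 := by
            intro ω hω
            rw [Finset.mem_union, Finset.mem_biUnion]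
            by_cases h6 : ∃ j ∈ S1, ω ∈ A j
            · obtain ⟨j, hj, hj'⟩ := h6
              exact Or.inr ⟨j, hj, Finset.mem_inter.2 ⟨hj', hω⟩⟩
            · push Not at h6
              left
              rw [hav, Finset.mem_filter] at hω ⊢
              refine ⟨Finset.mem_univ _, fun j hj => ?_⟩
              rw [← hS12, Finset.mem_union] at hj
              rcases hj with hj | hj
              · exact h6 j hj
              · exact hω.2 j hj
          have h6 : ((av S2).card : ℝ) ≤ (av S).card + ∑ j ∈ S1, ((A j ∩ av S2).card : ℝ) := by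
            have h7 := (Finset.card_le_card h5).trans
              ((Finset.card_union_le _ _).trans (Nat.add_le_add_left Finset.card_biUnion_le _))
            exact_mod_cast h7
          have h7 : ∑ j ∈ S1, ((A j ∩ av S2).card : ℝ) ≤ ∑ _j ∈ S1, 2 * q * (av S2).card := by
            apply Finset.sum_le_sum
            intro j hj
            apply ih S2 (by omega) j
            intro hj2
            exact (Finset.mem_filter.1 hj).2 (Finset.mem_filter.1 hj2).2
          rw [Finset.sum_const, nsmul_eq_mul] at h7
          have h8 : (S1.card : ℝ) ≤ d := by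
            have h9 : S1.card ≤ d := by
              refine (Finset.card_le_card ?_).trans (hd i)
              intro j hj
              exact Finset.mem_filter.2 ⟨Finset.mem_univ _, (Finset.mem_filter.1 hj).2⟩
            exact_mod_cast h9
          have h9 : (S1.card : ℝ) * (2 * q * (av S2).card) ≤ 1 / 2 * (av S2).card := by
            have h10 : (S1.card : ℝ) * (2 * q) ≤ 1 / 2 := by
              have := mul_le_mul_of_nonneg_right h8 (show 0 ≤ 2 * q by linarith)
              linarith
            have h11 := mul_le_mul_of_nonneg_right h10 (show (0 : ℝ) ≤ (av S2).card by positivity)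
            linarith
          linarith
      have h5 := mul_le_mul_of_nonneg_left h4 hq0
      linarith
  have hpos : ∀ S : Finset J, 0 < (av S).card := by
    intro S
    induction S using Finset.induction_on with
    | empty =>
      have h1 : av ∅ = Finset.univ := by
        rw [hav]
        simp
      rw [h1, Finset.card_univ]
      exact Fintype.card_pos
    | insert i S hi ih =>
      have h1 := claim S.card S le_rfl i hi
      have h2 : av S ⊆ av (insert i S) ∪ (A i ∩ av S) := by
        intro ω hω
        rw [Finset.mem_union]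
        by_cases h3 : ω ∈ A i
        · exact Or.inr (Finset.mem_inter.2 ⟨h3, hω⟩)
        · left
          rw [hav, Finset.mem_filter] at hω ⊢
          refine ⟨Finset.mem_univ _, fun j hj => ?_⟩
          rw [Finset.mem_insert] at hj
          rcases hj with rfl | hj
          · exact h3
          · exact hω.2 j hj
      have h3 : ((av S).card : ℝ) ≤ (av (insert i S)).card + (A i ∩ av S).card := by
        exact_mod_cast (Finset.card_le_card h2).trans (Finset.card_union_le _ _)
      have h4 : (0 : ℝ) < (av S).card := by exact_mod_cast ih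
      have h5 : 2 * q < 1 := by
        have : (0 : ℝ) ≤ d := by positivity
        nlinarith
      have h6 : (0 : ℝ) < (av (insert i S)).card := by nlinarith
      exact_mod_cast h6
  obtain ⟨ω, hω⟩ := Finset.card_pos.1 (hpos Finset.univ)
  rw [hav, Finset.mem_filter] at hω
  exact ⟨ω, fun j => hω.2 j (Finset.mem_univ j)⟩

lemma sum_restrict (T : Finset ι) (h : (T → α) → ℝ) :
    ∑ ω : ι → α, h (fun i : T => ω i) =
      (Fintype.card α : ℝ) ^ (Fintype.card {x // ¬ x ∈ T}) * ∑ x, h x := by
  rw [← (Equiv.piEquivPiSubtypeProd (fun i => i ∈ T) (fun _ => α)).symm.sum_comp,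
    Fintype.sum_prod_type, Finset.mul_sum]
  apply Finset.sum_congr rfl
  intro x _
  have h1 : ∀ y : {x // ¬ x ∈ T} → α, h (fun i : T =>
      (Equiv.piEquivPiSubtypeProd (fun i => i ∈ T) (fun _ => α)).symm (x, y) i) = h x := by
    intro y
    congr 1
    funext i
    simp [Equiv.piEquivPiSubtypeProd]
  rw [Finset.sum_congr rfl fun y _ => h1 y]
  simp [Finset.sum_const, Finset.card_univ]

lemma card_split (T : Finset ι) : (Fintype.card (ι → α) : ℝ) =
    (Fintype.card α : ℝ) ^ (Fintype.card {x // ¬ x ∈ T}) *
      (Fintype.card α : ℝ) ^ (Fintype.card T) := by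
  have h := sum_restrict (α := α) T (fun _ => 1)
  simp only [Finset.sum_const, Finset.card_univ, nsmul_eq_mul, mul_one] at h
  rw [h]
  congr 1
  simp

/-- The bounded differences inequality for functions depending on few coordinates. -/
theorem mcd [Nonempty α] (T : Finset ι) (hTne : T.Nonempty) (f : (ι → α) → ℝ)
    (hf : ∀ ω ω' : ι → α, (∀ i ∈ T, ω i = ω' i) → f ω = f ω')
    (hL : ∀ i, ∀ ω ω' : ι → α, (∀ j, j ≠ i → ω j = ω' j) → |f ω - f ω'| ≤ 1)
    (μ : ℝ) (hμ0 : 0 ≤ μ) (hμ : μ * Fintype.card (ι → α) ≤ ∑ ω, f ω)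
    (B : Finset (ι → α)) (hB : ∀ ω ∈ B, f ω ≤ 0) :
    (B.card : ℝ) ≤ Fintype.card (ι → α) * Real.exp (-μ ^ 2 / (2 * (T.card : ℝ))) := by
  classical
  have a0 : α := Classical.arbitrary α
  set ext : (T → α) → (ι → α) := fun x i => if h : i ∈ T then x ⟨i, h⟩ else a0 with hext
  set g : (T → α) → ℝ := fun x => f (ext x) with hg
  have hfg : ∀ ω, f ω = g (fun i : T => ω i) := by
    intro ω
    apply hf
    intro i hi
    simp [hext, hi]
  have hα : (0 : ℝ) < Fintype.card α := by exact_mod_cast Fintype.card_pos
  set c : ℝ := (Fintype.card α : ℝ) ^ (Fintype.card {x // ¬ x ∈ T}) with hc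
  have hc0 : 0 < c := pow_pos hα _
  have hTpos : 0 < Fintype.card T := by
    rw [Fintype.card_coe]
    exact hTne.card_pos
  set μ' : ℝ := (∑ y, g y) / (Fintype.card α : ℝ) ^ (Fintype.card T) with hμ'
  have hsum : ∑ ω, f ω = c * ∑ x, g x := by
    rw [← sum_restrict]
    exact Finset.sum_congr rfl fun ω _ => hfg ω
  have hcard := card_split (α := α) T
  rw [← hc] at hcard
  have hpT : (0 : ℝ) < (Fintype.card α : ℝ) ^ (Fintype.card T) := pow_pos hα _
  have hμμ' : μ ≤ μ' := by
    rw [hμ', le_div_iff₀ hpT]
    rw [hsum, hcard] at hμ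
    have h1 : c * (μ * (Fintype.card α : ℝ) ^ (Fintype.card T)) ≤ c * ∑ x, g x := by linarith
    exact le_of_mul_le_mul_left h1 hc0
  have ht := Pool.Agent.Helper39.LCP.tail (ι := T) (α := α) hTpos g (by
    intro i x x' hxx
    apply hL i
    intro j hj
    by_cases h : j ∈ T
    · simp only [hext, h, dif_pos]
      exact hxx ⟨j, h⟩ (fun he => hj (by rw [← he]))
    · simp only [hext, h, dif_neg, not_false_iff]) μ' hμ' (hμ0.trans hμμ')
    (Finset.univ.filter fun x => g x ≤ 0) (fun x hx => (Finset.mem_filter.1 hx).2)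
  have hBle : (B.card : ℝ) ≤ c * ((Finset.univ.filter fun x => g x ≤ 0).card : ℝ) := by
    have h1 := sum_restrict (α := α) T (fun x => if g x ≤ 0 then (1 : ℝ) else 0)
    rw [← Finset.sum_filter, ← Finset.sum_filter, Finset.sum_const, Finset.sum_const,
      nsmul_eq_mul, nsmul_eq_mul, mul_one, mul_one] at h1
    rw [← hc] at h1
    rw [← h1]
    have h2 : B ⊆ Finset.univ.filter fun ω : ι → α => g (fun i : T => ω i) ≤ 0 := by
      intro ω hω
      rw [Finset.mem_filter, ← hfg]
      exact ⟨Finset.mem_univ _, hB ω hω⟩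
    exact_mod_cast Finset.card_le_card h2
  have hexp : Real.exp (-μ' ^ 2 / (2 * (Fintype.card T : ℝ))) ≤
      Real.exp (-μ ^ 2 / (2 * (T.card : ℝ))) := by
    apply Real.exp_le_exp.2
    rw [Fintype.card_coe]
    have hT0 : (0 : ℝ) < T.card := Nat.cast_pos.2 hTne.card_pos
    apply div_le_div_of_nonneg_right _ (by linarith)
    have := pow_le_pow_left₀ hμ0 hμμ' 2
    linarith
  calc (B.card : ℝ) ≤ c * ((Finset.univ.filter fun x => g x ≤ 0).card : ℝ) := hBle
    _ ≤ c * ((Fintype.card α : ℝ) ^ (Fintype.card T) *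
        Real.exp (-μ' ^ 2 / (2 * (Fintype.card T : ℝ)))) := mul_le_mul_of_nonneg_left ht hc0.le
    _ = Fintype.card (ι → α) * Real.exp (-μ' ^ 2 / (2 * (Fintype.card T : ℝ))) := by
        rw [hcard]; ring
    _ ≤ _ := mul_le_mul_of_nonneg_left hexp (by positivity)

/-- The number of points with prescribed values. -/
lemma card_prescribed (T : Finset ι) (a : ι → α) :
    (((Finset.univ : Finset (ι → α)).filter fun ω => ∀ i ∈ T, ω i = a i).card : ℝ) *
      (Fintype.card α : ℝ) ^ T.card = Fintype.card (ι → α) := by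
  classical
  have h1 := sum_restrict (α := α) T (fun x => if ∀ i : T, x i = a i then (1 : ℝ) else 0)
  rw [← Finset.sum_filter, ← Finset.sum_filter, Finset.sum_const, Finset.sum_const,
      nsmul_eq_mul, nsmul_eq_mul, mul_one, mul_one] at h1
  have h2 : (Finset.univ.filter fun x : T → α => ∀ i : T, x i = a i).card = 1 := by
    rw [Finset.card_eq_one]
    refine ⟨fun i => a i, ?_⟩
    ext x
    simp only [Finset.mem_filter, Finset.mem_univ, true_and, Finset.mem_singleton]
    constructor
    · intro h; funext i; exact h i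
    · rintro rfl i; rfl
  rw [h2, Nat.cast_one, mul_one] at h1
  have h3 : ((Finset.univ : Finset (ι → α)).filter fun ω => ∀ i ∈ T, ω i = a i) =
      Finset.univ.filter fun ω : ι → α => ∀ i : T, ω i = a i := by
    ext ω
    simp
  rw [h3, h1, card_split (α := α) T, Fintype.card_coe]

/-- The moment generating function of a sum of independent indicators. -/
lemma sum_prod_exp (e : ι → α → ℝ) :
    ∑ ω : ι → α, Real.exp (∑ i, e i (ω i)) = ∏ i, ∑ a, Real.exp (e i a) := by
  simp_rw [Real.exp_sum]
  rw [Finset.prod_univ_sum]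
  simp

end Pool.Agent.Helper32.Sq
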