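import Mathlib

/-!
# Squares of sparse graphs: orientations and the robust non-clique lemma
-/

set_option autoImplicit false
set_option linter.unusedSectionVars false

namespace Pool.Agent.Helper32.Sq

variable {V : Type} [Fintype V] [DecidableEq V]

/-- The vertices reached by directed paths of length one or two. -/
def Anc (out : V → Finset V) (x : V) : Finset V := out x ∪ (out x).biUnion out

/-- The relation of being at distance at most two, in terms of the orientation. -/
def Rel (out : V → Finset V) (x y : V) : Prop :=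
  y ∈ Anc out x ∨ x ∈ Anc out y ∨ (∃ h ∈ out x, h ∈ out y) ∨ (∃ w, x ∈ out w ∧ y ∈ out w)

/-- Orientations with bounded out- and in-degrees. -/
structure Ori (k D : ℕ) (out : V → Finset V) : Prop where
  card_out : ∀ v, (out v).card ≤ k
  card_in : ∀ h, (Finset.univ.filter fun u => h ∈ out u).card ≤ D

lemma Ori.card_anc {k D : ℕ} {out : V → Finset V} (O : Ori k D out) (x : V) :
    (Anc out x).card ≤ k + k ^ 2 := by
  unfold Anc
  refine (Finset.card_union_le _ _).trans (add_le_add (O.card_out x) ?_)
  refine Finset.card_biUnion_le.trans ?_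
  calc ∑ u ∈ out x, (out u).card ≤ ∑ _u ∈ out x, k := Finset.sum_le_sum fun u _ => O.card_out u
    _ = (out x).card * k := by rw [Finset.sum_const, smul_eq_mul]
    _ ≤ k * k := Nat.mul_le_mul_right _ (O.card_out x)
    _ = k ^ 2 := (sq k).symm

/-- The number of ordered pairs in `W × W` satisfying `P` with first entry `x`. -/
lemma card_pairs (W : Finset V) (P : V → V → Prop) [DecidableRel P] :
    ((W ×ˢ W).filter fun p : V × V => P p.1 p.2).card =
      ∑ x ∈ W, (W.filter fun y => P x y).card := by
  rw [Finset.card_filter, Finset.sum_product]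
  apply Finset.sum_congr rfl
  intro x _
  rw [Finset.card_filter]

lemma card_pairs_symm (W : Finset V) (P : V → V → Prop) [DecidableRel P] :
    ((W ×ˢ W).filter fun p : V × V => P p.1 p.2).card =
      ((W ×ˢ W).filter fun p : V × V => P p.2 p.1).card := by
  rw [Finset.card_filter, Finset.card_filter, Finset.sum_product, Finset.sum_product_right]

/-- Pairs with a common in-neighbour, for a fixed first entry. -/
lemma Ori.card_d {k D : ℕ} {out : V → Finset V} (O : Ori k D out) (W : Finset V) (x : V) :
    (W.filter fun y => x ≠ y ∧ ∃ w, x ∈ out w ∧ y ∈ out w).card ≤ D * (k - 1) := by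
  have h1 : (W.filter fun y => x ≠ y ∧ ∃ w, x ∈ out w ∧ y ∈ out w) ⊆
      (Finset.univ.filter fun u => x ∈ out u).biUnion fun w => (out w).erase x := by
    intro y hy
    rw [Finset.mem_filter] at hy
    obtain ⟨-, hne, w, hw1, hw2⟩ := hy
    rw [Finset.mem_biUnion]
    exact ⟨w, by simpa using hw1, Finset.mem_erase.2 ⟨hne.symm, hw2⟩⟩
  refine (Finset.card_le_card h1).trans (Finset.card_biUnion_le.trans ?_)
  calc ∑ w ∈ Finset.univ.filter (fun u => x ∈ out u), ((out w).erase x).card
      ≤ ∑ _w ∈ Finset.univ.filter (fun u => x ∈ out u), (k - 1) := by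
        apply Finset.sum_le_sum
        intro w hw
        rw [Finset.mem_filter] at hw
        rw [Finset.card_erase_of_mem hw.2]
        exact Nat.sub_le_sub_right (O.card_out w) 1
    _ = (Finset.univ.filter fun u => x ∈ out u).card * (k - 1) := by
        rw [Finset.sum_const, smul_eq_mul]
    _ ≤ D * (k - 1) := Nat.mul_le_mul_right _ (O.card_in x)

/-- Pairs with a common out-neighbour, for a fixed first entry. -/
lemma Ori.card_c {k D : ℕ} {out : V → Finset V} (O : Ori k D out) (W : Finset V) (x : V) :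
    (W.filter fun y => ∃ h ∈ out x, h ∈ out y).card ≤ k * D := by
  have h1 : (W.filter fun y => ∃ h ∈ out x, h ∈ out y) ⊆
      (out x).biUnion fun h => Finset.univ.filter fun u => h ∈ out u := by
    intro y hy
    rw [Finset.mem_filter] at hy
    obtain ⟨-, h, hh, hy⟩ := hy
    rw [Finset.mem_biUnion]
    exact ⟨h, hh, by simpa using hy⟩
  refine (Finset.card_le_card h1).trans (Finset.card_biUnion_le.trans ?_)
  calc ∑ h ∈ out x, (Finset.univ.filter fun u => h ∈ out u).card
      ≤ ∑ _h ∈ out x, D := Finset.sum_le_sum fun h _ => O.card_in h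
    _ = (out x).card * D := by rw [Finset.sum_const, smul_eq_mul]
    _ ≤ k * D := Nat.mul_le_mul_right _ (O.card_out x)

/-- The number of elements of `W` pointing to `h`. -/
def kh (out : V → Finset V) (W : Finset V) (h : V) : ℕ := (W.filter fun x => h ∈ out x).card

lemma kh_le {k D : ℕ} {out : V → Finset V} (O : Ori k D out) (W : Finset V) (h : V) :
    kh out W h ≤ D := by
  refine le_trans (Finset.card_le_card ?_) (O.card_in h)
  exact Finset.filter_subset_filter _ (Finset.subset_univ _)

lemma sum_kh_on (out : V → Finset V) (W B : Finset V) :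
    ∑ h ∈ B, kh out W h = ∑ x ∈ W, (out x ∩ B).card := by
  unfold kh
  simp_rw [Finset.card_filter]
  rw [Finset.sum_comm]
  apply Finset.sum_congr rfl
  intro x _
  rw [Finset.card_eq_sum_ones, Finset.inter_comm, ← Finset.filter_mem_eq_inter,
    Finset.sum_filter]

lemma sum_inter (out : V → Finset V) (W : Finset V) :
    ∑ p ∈ W ×ˢ W, (out p.1 ∩ out p.2).card = ∑ h, kh out W h ^ 2 := by
  have h1 : ∀ x y : V, (out x ∩ out y).card =
      ∑ h, (if h ∈ out x then 1 else 0) * (if h ∈ out y then 1 else 0) := by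
    intro x y
    rw [← Finset.filter_mem_eq_inter]
    have : (out x).filter (fun i => i ∈ out y) =
        Finset.univ.filter fun i => i ∈ out x ∧ i ∈ out y := by
      ext i; simp
    rw [this, Finset.card_filter]
    apply Finset.sum_congr rfl
    intro h _
    by_cases h1 : h ∈ out x <;> by_cases h2 : h ∈ out y <;> simp [h1, h2]
  rw [Finset.sum_product]
  simp_rw [h1]
  have h2 : ∀ h, kh out W h = ∑ x ∈ W, if h ∈ out x then 1 else 0 := by
    intro h; unfold kh; rw [Finset.card_filter]
  simp_rw [h2, sq, Finset.sum_mul_sum]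
  rw [Finset.sum_comm]
  rw [Finset.sum_comm]
  simp_rw [Finset.sum_comm (s := Finset.univ)]

/-- The number of pairs with a common out-neighbour, with multiple hubs taken into account. -/
lemma card_common (out : V → Finset V) (W : Finset V) :
    ((W ×ˢ W).filter fun p : V × V => ∃ h ∈ out p.1, h ∈ out p.2).card +
      ((W ×ˢ W).filter fun p : V × V => 2 ≤ (out p.1 ∩ out p.2).card).card ≤
      ∑ h, kh out W h ^ 2 := by
  rw [← sum_inter, Finset.card_filter, Finset.card_filter, ← Finset.sum_add_distrib]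
  apply Finset.sum_le_sum
  intro p _
  have h1 : (∃ h ∈ out p.1, h ∈ out p.2) → 1 ≤ (out p.1 ∩ out p.2).card := by
    rintro ⟨h, h1, h2⟩
    exact Finset.card_pos.2 ⟨h, Finset.mem_inter.2 ⟨h1, h2⟩⟩
  split_ifs with h2 h3 h3
  · omega
  · have := h1 h2; omega
  · omega
  · omega

/-- Many vertices have the same out-neighbourhood. -/
lemma card_same (out : V → Finset V) (W' B : Finset V) (hB : ∀ x ∈ W', out x ⊆ B) :
    ((W'.card : ℝ)) ^ 2 ≤ (2 : ℝ) ^ B.card *
      (((W' ×ˢ W').filter fun p : V × V => out p.1 = out p.2).card : ℝ) := by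
  have h1 : W'.card = ∑ T ∈ B.powerset, (W'.filter fun x => out x = T).card := by
    rw [Finset.card_eq_sum_card_fiberwise (t := B.powerset) (f := out)]
    intro x hx
    exact Finset.mem_powerset.2 (hB x hx)
  have h2 : ((W' ×ˢ W').filter fun p : V × V => out p.1 = out p.2).card =
      ∑ T ∈ B.powerset, (W'.filter fun x => out x = T).card ^ 2 := by
    rw [card_pairs W' fun x y => out x = out y]
    have h3 : ∀ T ∈ B.powerset, (W'.filter fun x => out x = T).card ^ 2 =
        ∑ x ∈ W'.filter (fun x => out x = T), (W'.filter fun y => out x = out y).card := by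
      intro T _
      rw [sq, ← smul_eq_mul, ← Finset.sum_const]
      apply Finset.sum_congr rfl
      intro x hx
      rw [Finset.mem_filter] at hx
      congr 1
      ext y
      simp only [Finset.mem_filter]
      rw [hx.2]
      exact and_congr_right fun _ => eq_comm
    rw [Finset.sum_congr rfl h3]
    exact (Finset.sum_fiberwise_of_maps_to (fun x hx => Finset.mem_powerset.2 (hB x hx)) _).symm
  rw [h1, h2]
  push_cast
  have h4 := sq_sum_le_card_mul_sum_sq (s := B.powerset)
    (f := fun T => ((W'.filter fun x => out x = T).card : ℝ))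
  rw [Finset.card_powerset] at h4
  push_cast at h4
  exact h4

/-- The saving constant. -/
noncomputable def c0 (k : ℕ) : ℝ := 1 / (4 * 2 ^ (4 * k ^ 2))

lemma c0_pos (k : ℕ) : 0 < c0 k := by unfold c0; positivity

lemma c0_le (k : ℕ) : c0 k ≤ 1 / 4 := by
  unfold c0
  apply div_le_div_of_nonneg_left (by norm_num) (by norm_num)
  have : (1 : ℝ) ≤ 2 ^ (4 * k ^ 2) := one_le_pow₀ (by norm_num)
  linarith

/-- The main estimate for the pairs with a common out-neighbour. -/
lemma Ori.common {k D : ℕ} {out : V → Finset V} (O : Ori k D out) (hk : 2 ≤ k) (hD : 0 < D)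
    (W : Finset V) (h1 : D ≤ W.card) (h2 : W.card ≤ 2 * k * D) :
    (((W ×ˢ W).filter fun p : V × V => ∃ h ∈ out p.1, h ∈ out p.2).card : ℝ) ≤
      (k - c0 k) * D * W.card := by
  have hD' : (0 : ℝ) < D := by exact_mod_cast hD
  have hk' : (2 : ℝ) ≤ k := by exact_mod_cast hk
  set w : ℝ := (W.card : ℝ) with hw
  have h1' : (D : ℝ) ≤ w := by rw [hw]; exact_mod_cast h1
  have h2' : w ≤ 2 * k * D := by rw [hw]; exact_mod_cast h2
  have hw0 : 0 < w := lt_of_lt_of_le hD' h1'
  set L2 : ℝ := (((W ×ˢ W).filter fun p : V × V => 2 ≤ (out p.1 ∩ out p.2).card).card : ℝ)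
    with hL2
  set N : ℝ := (((W ×ˢ W).filter fun p : V × V => ∃ h ∈ out p.1, h ∈ out p.2).card : ℝ) with hN
  set A : ℝ := ∑ h, (kh out W h : ℝ) with hA
  set B : ℝ := ∑ h, (kh out W h : ℝ) ^ 2 with hB
  have hNB : N + L2 ≤ B := by
    have := card_common out W
    rw [hN, hL2, hB]
    exact_mod_cast this
  have hL20 : 0 ≤ L2 := by rw [hL2]; positivity
  have hAle : A ≤ k * w := by
    have h3 : ∑ h, kh out W h ≤ W.card * k := by
      rw [sum_kh_on out W Finset.univ]
      calc ∑ x ∈ W, (out x ∩ Finset.univ).card ≤ ∑ _x ∈ W, k := by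
            apply Finset.sum_le_sum
            intro x _
            rw [Finset.inter_univ]
            exact O.card_out x
        _ = W.card * k := by rw [Finset.sum_const, smul_eq_mul]
    rw [hA, hw]
    calc (∑ h, (kh out W h : ℝ)) = ((∑ h, kh out W h : ℕ) : ℝ) := by push_cast; rfl
      _ ≤ ((W.card * k : ℕ) : ℝ) := by exact_mod_cast h3
      _ = k * W.card := by push_cast; ring
  have hc0 := c0_pos k
  have hc0' := c0_le k
  by_cases hcase : B ≤ (k - 1 / 4) * D * w
  · have h4 : (k - 1 / 4) * D * w ≤ (k - c0 k) * D * w := by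
      apply mul_le_mul_of_nonneg_right _ hw0.le
      apply mul_le_mul_of_nonneg_right _ hD'.le
      linarith
    linarith
  · push Not at hcase
    set Big : Finset V := Finset.univ.filter fun h => D ≤ 2 * kh out W h with hBig
    set As : ℝ := ∑ h ∈ Finset.univ.filter (fun h => ¬ D ≤ 2 * kh out W h), (kh out W h : ℝ)
      with hAs
    set Ab : ℝ := ∑ h ∈ Big, (kh out W h : ℝ) with hAb
    have hsplit : Ab + As = A := Finset.sum_filter_add_sum_filter_not _ _ _
    have hAs0 : 0 ≤ As := Finset.sum_nonneg fun h _ => by positivity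
    have hBigcard : (Big.card : ℝ) * D ≤ 2 * A := by
      calc (Big.card : ℝ) * D = ∑ _h ∈ Big, (D : ℝ) := by rw [Finset.sum_const, nsmul_eq_mul]
        _ ≤ ∑ h ∈ Big, 2 * (kh out W h : ℝ) := by
            apply Finset.sum_le_sum
            intro h hh
            rw [hBig, Finset.mem_filter] at hh
            exact_mod_cast hh.2
        _ = 2 * Ab := by rw [← Finset.mul_sum]
        _ ≤ 2 * A := by linarith
    have hBig4 : Big.card ≤ 4 * k ^ 2 := by
      have h5 : (Big.card : ℝ) * D ≤ 4 * k ^ 2 * D := by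
        nlinarith
      have h6 : (Big.card : ℝ) ≤ 4 * k ^ 2 := le_of_mul_le_mul_right h5 hD'
      exact_mod_cast h6
    have hBle : B ≤ D * Ab + D / 2 * As := by
      rw [hB, ← Finset.sum_filter_add_sum_filter_not Finset.univ (fun h => D ≤ 2 * kh out W h),
        hAb, hAs, Finset.mul_sum, Finset.mul_sum]
      apply add_le_add
      · apply Finset.sum_le_sum
        intro h _
        have : (kh out W h : ℝ) ≤ D := by exact_mod_cast kh_le O W h
        rw [sq]
        exact mul_le_mul_of_nonneg_right this (by positivity)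
      · apply Finset.sum_le_sum
        intro h hh
        rw [Finset.mem_filter] at hh
        have h5 : 2 * (kh out W h : ℝ) ≤ D := by
          have := hh.2
          push Not at this
          exact_mod_cast this.le
        rw [sq]
        apply mul_le_mul_of_nonneg_right _ (by positivity)
        linarith
    have hAs' : As ≤ w / 2 := by nlinarith
    have hAb' : (k - 1 / 2) * w ≤ Ab := by nlinarith
    -- the vertices with all out-neighbours in `Big`
    set W' : Finset V := W.filter fun x => k ≤ (out x ∩ Big).card with hW'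
    have hW'card : w / 2 ≤ W'.card := by
      have h5 : ∑ h ∈ Big, kh out W h ≤ (k - 1) * W.card + W'.card := by
        rw [sum_kh_on]
        have h6 : ∀ x ∈ W, (out x ∩ Big).card ≤ (k - 1) + if k ≤ (out x ∩ Big).card then 1 else 0 := by
          intro x _
          have h7 : (out x ∩ Big).card ≤ k :=
            (Finset.card_le_card Finset.inter_subset_left).trans (O.card_out x)
          split_ifs with h8 <;> omega
        refine (Finset.sum_le_sum h6).trans ?_
        rw [Finset.sum_add_distrib, Finset.sum_const, smul_eq_mul, ← Finset.card_filter]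
        rw [mul_comm]
      have h6 : Ab ≤ (k - 1) * w + W'.card := by
        rw [hAb, hw]
        have h7 : ((∑ h ∈ Big, kh out W h : ℕ) : ℝ) ≤ (((k - 1) * W.card + W'.card : ℕ) : ℝ) := by
          exact_mod_cast h5
        push_cast [Nat.cast_sub (by omega : 1 ≤ k)] at h7
        exact h7
      linarith
    have hW'out : ∀ x ∈ W', out x ⊆ Big := by
      intro x hx
      rw [hW', Finset.mem_filter] at hx
      have h5 : out x ∩ Big = out x := by
        apply Finset.eq_of_subset_of_card_le Finset.inter_subset_left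
        exact (O.card_out x).trans hx.2
      rw [← h5]
      exact Finset.inter_subset_right
    have h5 := card_same out W' Big hW'out
    have h6 : (((W' ×ˢ W').filter fun p : V × V => out p.1 = out p.2).card : ℝ) ≤ L2 := by
      rw [hL2]
      have : ((W' ×ˢ W').filter fun p : V × V => out p.1 = out p.2) ⊆
          ((W ×ˢ W).filter fun p : V × V => 2 ≤ (out p.1 ∩ out p.2).card) := by
        intro p hp
        rw [Finset.mem_filter, Finset.mem_product] at hp ⊢
        obtain ⟨⟨hp1, hp2⟩, hp3⟩ := hp
        have hp1' := hp1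
        rw [hW', Finset.mem_filter] at hp1 hp2
        refine ⟨⟨hp1.1, hp2.1⟩, ?_⟩
        rw [← hp3, Finset.inter_self]
        have h7 := Finset.card_le_card (Finset.inter_subset_left (s₁ := out p.1) (s₂ := Big))
        omega
      exact_mod_cast Finset.card_le_card this
    have h7 : (2 : ℝ) ^ Big.card ≤ 2 ^ (4 * k ^ 2) := pow_le_pow_right₀ (by norm_num) hBig4
    have h8 : w ^ 2 / 4 ≤ 2 ^ (4 * k ^ 2) * L2 := by
      calc w ^ 2 / 4 = (w / 2) ^ 2 := by ring
        _ ≤ (W'.card : ℝ) ^ 2 := by
            apply pow_le_pow_left₀ (by positivity) hW'card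
        _ ≤ _ := h5
        _ ≤ 2 ^ (4 * k ^ 2) * L2 := by
            apply mul_le_mul h7 h6 (by positivity) (by positivity)
    have h9 : c0 k * D * w ≤ L2 := by
      have h10 : c0 k * w ^ 2 ≤ L2 := by
        unfold c0
        rw [one_div, mul_comm, ← div_eq_mul_inv, div_le_iff₀ (by positivity)]
        linarith
      refine le_trans ?_ h10
      rw [mul_assoc, sq]
      apply mul_le_mul_of_nonneg_left _ hc0.le
      exact mul_le_mul_of_nonneg_right h1' hw0.le
    have h10 : B ≤ k * D * w := by
      have h11 : D * As / 2 ≤ D * As := by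
        have := mul_nonneg hD'.le hAs0
        linarith
      have h12 : D * A = D * Ab + D * As := by rw [← hsplit]; ring
      have h13 : D * A ≤ D * (k * w) := mul_le_mul_of_nonneg_left hAle hD'.le
      have h14 : (D : ℝ) * (k * w) = k * D * w := by ring
      have h15 : (D : ℝ) / 2 * As = D * As / 2 := by ring
      linarith
    have h16 : ((k : ℝ) - c0 k) * D * w = k * D * w - c0 k * D * w := by ring
    linarith

open Classical in
/-- The robust non-clique lemma: the number of ordered pairs at distance at most two. -/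
lemma Ori.robust {k D : ℕ} {out : V → Finset V} (O : Ori k D out) (hk : 2 ≤ k) (hD : 0 < D)
    (hD1 : 2 * (1 + 2 * k + 2 * k ^ 2 : ℝ) ≤ c0 k * D)
    (W : Finset V) (h1 : D ≤ W.card) (h2 : W.card ≤ 2 * k * D) :
    (((W ×ˢ W).filter fun p : V × V => p.1 = p.2 ∨ Rel out p.1 p.2).card : ℝ) ≤
      (2 * k - 1 - c0 k / 2) * D * W.card := by
  have hsub : ((W ×ˢ W).filter fun p : V × V => p.1 = p.2 ∨ Rel out p.1 p.2) ⊆
      ((W ×ˢ W).filter fun p : V × V => p.1 = p.2) ∪
      (((W ×ˢ W).filter fun p : V × V => p.2 ∈ Anc out p.1) ∪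
      (((W ×ˢ W).filter fun p : V × V => p.1 ∈ Anc out p.2) ∪
      (((W ×ˢ W).filter fun p : V × V => ∃ h ∈ out p.1, h ∈ out p.2) ∪
      ((W ×ˢ W).filter fun p : V × V => p.1 ≠ p.2 ∧ ∃ w, p.1 ∈ out w ∧ p.2 ∈ out w)))) := by
    intro p hp
    simp only [Finset.mem_union, Finset.mem_filter] at hp ⊢
    obtain ⟨hp1, hp2⟩ := hp
    by_cases he : p.1 = p.2
    · exact Or.inl ⟨hp1, he⟩
    · rcases hp2 with hp2 | hp2 | hp2 | hp2 | hp2
      · exact absurd hp2 he
      · exact Or.inr (Or.inl ⟨hp1, hp2⟩)
      · exact Or.inr (Or.inr (Or.inl ⟨hp1, hp2⟩))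
      · exact Or.inr (Or.inr (Or.inr (Or.inl ⟨hp1, hp2⟩)))
      · exact Or.inr (Or.inr (Or.inr (Or.inr ⟨hp1, he, hp2⟩)))
  have hcard := Finset.card_le_card hsub
  have e1 : ((W ×ˢ W).filter fun p : V × V => p.1 = p.2).card ≤ W.card := by
    rw [card_pairs W fun x y => x = y, Finset.card_eq_sum_ones W]
    apply Finset.sum_le_sum
    intro x _
    rw [Finset.card_le_one]
    intro a ha b hb
    rw [Finset.mem_filter] at ha hb
    rw [← ha.2, ← hb.2]
  have e2 : ((W ×ˢ W).filter fun p : V × V => p.2 ∈ Anc out p.1).card ≤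
      W.card * (k + k ^ 2) := by
    rw [card_pairs W fun x y => y ∈ Anc out x, ← smul_eq_mul, ← Finset.sum_const]
    apply Finset.sum_le_sum
    intro x _
    refine le_trans (Finset.card_le_card ?_) (O.card_anc x)
    intro y hy
    exact (Finset.mem_filter.1 hy).2
  have e3 : ((W ×ˢ W).filter fun p : V × V => p.1 ∈ Anc out p.2).card ≤
      W.card * (k + k ^ 2) := by
    rw [card_pairs_symm W fun x y => x ∈ Anc out y]
    exact e2
  have e5 : ((W ×ˢ W).filter fun p : V × V => p.1 ≠ p.2 ∧ ∃ w, p.1 ∈ out w ∧ p.2 ∈ out w).card ≤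
      W.card * (D * (k - 1)) := by
    rw [card_pairs W fun x y => x ≠ y ∧ ∃ w, x ∈ out w ∧ y ∈ out w, ← smul_eq_mul,
      ← Finset.sum_const]
    apply Finset.sum_le_sum
    intro x _
    exact O.card_d W x
  have e4 := O.common hk hD W h1 h2
  have hU : ((W ×ˢ W).filter fun p : V × V => p.1 = p.2 ∨ Rel out p.1 p.2).card ≤
      W.card + (W.card * (k + k ^ 2) + (W.card * (k + k ^ 2) +
      (((W ×ˢ W).filter fun p : V × V => ∃ h ∈ out p.1, h ∈ out p.2).card +
      W.card * (D * (k - 1))))) := by
    refine hcard.trans ((Finset.card_union_le _ _).trans (add_le_add e1 ?_))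
    refine (Finset.card_union_le _ _).trans (add_le_add e2 ?_)
    refine (Finset.card_union_le _ _).trans (add_le_add e3 ?_)
    exact (Finset.card_union_le _ _).trans (add_le_add le_rfl e5)
  have hU' : (((W ×ˢ W).filter fun p : V × V => p.1 = p.2 ∨ Rel out p.1 p.2).card : ℝ) ≤
      (W.card : ℝ) + (W.card * (k + k ^ 2) + (W.card * (k + k ^ 2) +
      ((((W ×ˢ W).filter fun p : V × V => ∃ h ∈ out p.1, h ∈ out p.2).card : ℝ) +
      W.card * (D * (k - 1))))) := by
    have h3 : ((k - 1 : ℕ) : ℝ) = (k : ℝ) - 1 := by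
      rw [Nat.cast_sub (by omega : 1 ≤ k), Nat.cast_one]
    rw [← h3]
    exact_mod_cast hU
  have hw0 : (0 : ℝ) ≤ W.card := by positivity
  have h3 := mul_le_mul_of_nonneg_right hD1 hw0
  nlinarith

open Classical in
/-- Many non adjacent pairs. -/
lemma Ori.nonadj {k D : ℕ} {out : V → Finset V} (O : Ori k D out) (hk : 2 ≤ k) (hD : 0 < D)
    (hD1 : 2 * (1 + 2 * k + 2 * k ^ 2 : ℝ) ≤ c0 k * D)
    (W : Finset V) (h1 : (2 * k - 1 - c0 k / 4) * D ≤ W.card) (h2 : W.card ≤ 2 * k * D) :
    c0 k / 4 * (D : ℝ) ^ 2 ≤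
      (((W ×ˢ W).filter fun p : V × V => p.1 ≠ p.2 ∧ ¬ Rel out p.1 p.2).card : ℝ) := by
  have hD' : (0 : ℝ) < D := by exact_mod_cast hD
  have hk' : (2 : ℝ) ≤ k := by exact_mod_cast hk
  have hc := c0_pos k
  have hc' := c0_le k
  have h3 : (D : ℝ) ≤ W.card := by
    refine le_trans ?_ h1
    nlinarith
  have h4 := O.robust hk hD hD1 W (by exact_mod_cast h3) h2
  have h5 : ((W ×ˢ W).filter fun p : V × V => p.1 = p.2 ∨ Rel out p.1 p.2).card +
      ((W ×ˢ W).filter fun p : V × V => p.1 ≠ p.2 ∧ ¬ Rel out p.1 p.2).card =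
      W.card * W.card := by
    rw [← Finset.card_product, ← Finset.card_filter_add_card_filter_not
      (s := W ×ˢ W) (fun p : V × V => p.1 = p.2 ∨ Rel out p.1 p.2)]
    congr 2
    ext p
    simp only [Finset.mem_filter, not_or, ne_eq]
  have h6 : (((W ×ˢ W).filter fun p : V × V => p.1 = p.2 ∨ Rel out p.1 p.2).card : ℝ) +
      (((W ×ˢ W).filter fun p : V × V => p.1 ≠ p.2 ∧ ¬ Rel out p.1 p.2).card : ℝ) =
      W.card * W.card := by exact_mod_cast h5
  have hw0 : (0 : ℝ) ≤ W.card := by positivity
  have h7 := mul_le_mul_of_nonneg_right h1 hw0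
  have h8 := mul_le_mul_of_nonneg_left h3 (by positivity : 0 ≤ c0 k / 4 * (D : ℝ))
  nlinarith

end Pool.Agent.Helper32.Sq
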